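import Pool.Agent.H92.BC.CovA

/-!
# The base: `x^2 y = Z^2 - 4`, `|x|^4 + |y|^2 + 2 |Z|^2 = 17`
-/

namespace Pool.Agent.H92.BC

open Complex ComplexConjugate
open scoped ContDiff Topology

/-- the potential -/
noncomputable def psiF (p : C3) : ℝ := normSq (p.1 ^ 2) + normSq p.2.1 + 2 * normSq p.2.2

/-- the strictly plurisubharmonic potential -/
noncomputable def phiF (p : C3) : ℝ := psiF p + normSq p.1

/-- the affine surface -/
noncomputable def gEqn (p : C3) : ℂ := p.1 ^ 2 * p.2.1 - p.2.2 ^ 2 + 4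

/-- the equations of the base -/
noncomputable def baseEqn (p : C3) : ℂ × ℝ := (gEqn p, psiF p - 17)

/-- the function defining the open book -/
noncomputable def FF (p : C3) : ℂ := 4 * p.2.1 + conj p.1 ^ 2

/-- `∂ψ` -/
noncomputable def lz (p v : C3) : ℂ :=
  conj p.1 ^ 2 * (2 * p.1 * v.1) + conj p.2.1 * v.2.1 + 2 * (conj p.2.2 * v.2.2)

/-- the hermitian form of `ψ` -/
noncomputable def hz (p u v : C3) : ℂ :=
  conj (2 * p.1 * u.1) * (2 * p.1 * v.1) + conj u.2.1 * v.2.1 + 2 * (conj u.2.2 * v.2.2)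

theorem sq_hasFDerivAt (p : C3) :
    HasFDerivAt (fun q : C3 => q.1 ^ 2) ((2 * p.1) • c1) p := by
  have h1 : HasFDerivAt (fun q : C3 => q.1) c1 p := c1.hasFDerivAt
  have h2 := h1.pow 2
  refine h2.congr_fderiv ?_
  ext v <;> simp

theorem sq_contDiff : ContDiff ℝ ∞ (fun q : C3 => q.1 ^ 2) := c1.contDiff.pow 2

theorem psiF_contDiff : ContDiff ℝ ∞ psiF :=
  ((normSq_contDiff sq_contDiff).add (normSq_contDiff c2.contDiff)).add
    (contDiff_const.mul (normSq_contDiff c3.contDiff))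

theorem phiF_contDiff : ContDiff ℝ ∞ phiF :=
  psiF_contDiff.add (normSq_contDiff c1.contDiff)

theorem gEqn_contDiff : ContDiff ℝ ∞ gEqn :=
  ((sq_contDiff.mul c2.contDiff).sub (c3.contDiff.pow 2)).add contDiff_const

theorem baseEqn_contDiff : ContDiff ℝ ∞ baseEqn :=
  gEqn_contDiff.prodMk (psiF_contDiff.sub contDiff_const)

theorem FF_contDiff : ContDiff ℝ ∞ FF :=
  (contDiff_const.mul c2.contDiff).add ((conjCLE.contDiff.comp c1.contDiff).pow 2)

theorem psiF_hasFDerivAt (p : C3) : HasFDerivAt psiF (fderiv ℝ psiF p) p :=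
  (psiF_contDiff.differentiable (by simp) p).hasFDerivAt

theorem psiF_fderiv (p v : C3) : fderiv ℝ psiF p v = 2 * (lz p v).re := by
  have h2 : HasFDerivAt (fun q : C3 => q.2.1) c2 p := c2.hasFDerivAt
  have h3 : HasFDerivAt (fun q : C3 => q.2.2) c3 p := c3.hasFDerivAt
  have h4 := ((normSq_hasFDerivAt (sq_hasFDerivAt p)).add (normSq_hasFDerivAt h2)).add
    ((normSq_hasFDerivAt h3).const_mul 2)
  have h5 : fderiv ℝ psiF p = _ := h4.fderiv
  rw [h5]
  simp [lz]
  ring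

theorem phiF_fderiv (p v : C3) : fderiv ℝ phiF p v = 2 * (lz p v + conj p.1 * v.1).re := by
  have h1 : HasFDerivAt (fun q : C3 => q.1) c1 p := c1.hasFDerivAt
  have h4 := (psiF_hasFDerivAt p).add (normSq_hasFDerivAt h1)
  have h5 : fderiv ℝ phiF p = _ := h4.fderiv
  rw [h5, _root_.add_apply, psiF_fderiv]
  simp
  ring

theorem gEqn_fderiv (p v : C3) :
    fderiv ℝ gEqn p v = 2 * p.1 * v.1 * p.2.1 + p.1 ^ 2 * v.2.1 - 2 * p.2.2 * v.2.2 := by
  have h2 : HasFDerivAt (fun q : C3 => q.2.1) c2 p := c2.hasFDerivAt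
  have h3 : HasFDerivAt (fun q : C3 => q.2.2) c3 p := c3.hasFDerivAt
  have h4 := (((sq_hasFDerivAt p).mul h2).sub (h3.pow 2)).add_const 4
  have h5 : fderiv ℝ gEqn p = _ := h4.fderiv
  rw [h5]
  simp
  ring

theorem baseEqn_fderiv (p v : C3) :
    fderiv ℝ baseEqn p v = (2 * p.1 * v.1 * p.2.1 + p.1 ^ 2 * v.2.1 - 2 * p.2.2 * v.2.2,
      2 * (lz p v).re) := by
  have h1 : HasFDerivAt gEqn (fderiv ℝ gEqn p) p :=
    (gEqn_contDiff.differentiable (by simp) p).hasFDerivAt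
  have h4 := h1.prodMk ((psiF_hasFDerivAt p).sub_const 17)
  have h5 : fderiv ℝ baseEqn p = _ := h4.fderiv
  rw [h5, ContinuousLinearMap.prod_apply, gEqn_fderiv, psiF_fderiv]

theorem FF_fderiv (p v : C3) :
    fderiv ℝ FF p v = 4 * v.2.1 + 2 * conj p.1 * conj v.1 := by
  have h1 : HasFDerivAt (fun q : C3 => q.1) c1 p := c1.hasFDerivAt
  have h2 : HasFDerivAt (fun q : C3 => q.2.1) c2 p := c2.hasFDerivAt
  have h4 := (h2.const_mul 4).add ((conj_hasFDerivAt h1).pow 2)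
  have h5 : fderiv ℝ FF p = _ := h4.fderiv
  rw [h5]
  simp

/-! ### the form -/

/-- the contact form -/
noncomputable def baseForm : C3 → C3 →L[ℝ] ℝ := fun q =>
  ((imf (fun q : C3 => q.1 ^ 2) q + imf c2 q) + (2 : ℝ) • imf c3 q) + imf c1 q

theorem baseForm_smooth : ContDiff ℝ ∞ baseForm :=
  (((imf_smooth _ sq_contDiff).add (imf_smooth _ c2.contDiff)).add
    ((imf_smooth _ c3.contDiff).const_smul (2 : ℝ))).add (imf_smooth _ c1.contDiff)

theorem baseForm_apply (p v : C3) :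
    baseForm p v = (lz p v + conj p.1 * v.1).im := by
  simp only [baseForm, _root_.add_apply, _root_.smul_apply, smul_eq_mul, imf_apply,
    ContinuousLinearMap.fderiv, c1_apply, c2_apply, c3_apply, (sq_hasFDerivAt p).fderiv, lz,
    add_im, map_pow]
  simp only [mul_im, mul_re, re_ofNat, im_ofNat]
  ring

theorem baseForm_dOne (p u v : C3) :
    dOne baseForm p u v = 2 * (hz p u v + conj u.1 * v.1).im := by
  have h0 := imf_smooth _ sq_contDiff
  have h1 := imf_smooth _ c1.contDiff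
  have h2 := imf_smooth _ c2.contDiff
  have h3 := imf_smooth _ c3.contDiff
  have h4 : ContDiff ℝ ∞ (fun q => imf (fun q : C3 => q.1 ^ 2) q + imf c2 q) := h0.add h2
  have h5 : ContDiff ℝ ∞ (fun q => (2 : ℝ) • imf c3 q) := h3.const_smul (2 : ℝ)
  have h6 : ContDiff ℝ ∞ (fun q => (imf (fun q : C3 => q.1 ^ 2) q + imf c2 q)
    + (2 : ℝ) • imf c3 q) := h4.add h5
  have e : baseForm = fun q => ((imf (fun q : C3 => q.1 ^ 2) q + imf c2 q)
    + (2 : ℝ) • imf c3 q) + imf c1 q := rfl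
  rw [e, dOne_add _ _ h6 h1, dOne_add _ _ h4 h5, dOne_add _ _ h0 h2, dOne_smul _ _ h3,
    imf_dOne _ sq_contDiff, imf_dOne _ c1.contDiff, imf_dOne _ c2.contDiff,
    imf_dOne _ c3.contDiff]
  simp only [ContinuousLinearMap.fderiv, c1_apply, c2_apply, c3_apply,
    (sq_hasFDerivAt p).fderiv, hz, _root_.smul_apply, smul_eq_mul]
  simp only [add_im, mul_im, mul_re, map_mul, re_ofNat, im_ofNat]
  ring

end Pool.Agent.H92.BC
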