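import Pool.Agent.H92.BC.BaseA

/-!
# The affine surface, the base and its Stein filling
-/

namespace Pool.Agent.H92.BC

open Complex ComplexConjugate
open scoped ContDiff Topology

theorem psiF_eq (p : C3) : psiF p = normSq p.1 ^ 2 + normSq p.2.1 + 2 * normSq p.2.2 := by
  rw [psiF, map_pow]

theorem psi_c (p : C3) : ((psiF p : ℝ) : ℂ)
    = conj p.1 ^ 2 * p.1 ^ 2 + conj p.2.1 * p.2.1 + 2 * (conj p.2.2 * p.2.2) := by
  rw [psiF]
  push_cast
  rw [← mul_conj, ← mul_conj, ← mul_conj, map_pow]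
  ring

/-- twice `x` times the first component of the radial field -/
noncomputable def nn (p : C3) : ℂ := (psiF p : ℂ) * p.1 ^ 2 + 8 * conj p.2.1

/-- the radial field -/
noncomputable def rad (p : C3) : C3 :=
  (nn p / (2 * p.1), (psiF p : ℂ) * p.2.1 + 8 * conj p.1 ^ 2,
    (psiF p : ℂ) * p.2.2 - 8 * conj p.2.2)

theorem rad_tan (p : C3) (hp : gEqn p = 0) (hx : p.1 ≠ 0) :
    2 * p.1 * (rad p).1 * p.2.1 + p.1 ^ 2 * (rad p).2.1 - 2 * p.2.2 * (rad p).2.2 = 0 := by
  have h1 : 2 * p.1 * (rad p).1 = nn p := by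
    simp only [rad]
    field_simp
  rw [h1]
  simp only [rad, nn]
  rw [gEqn] at hp
  have hc := psi_c p
  linear_combination 2 * (psiF p : ℂ) * hp - 8 * hc

theorem rad_hz (p t : C3) (hx : p.1 ≠ 0)
    (ht : 2 * p.1 * t.1 * p.2.1 + p.1 ^ 2 * t.2.1 - 2 * p.2.2 * t.2.2 = 0) :
    hz p (rad p) t = (psiF p : ℂ) * lz p t := by
  have h1 : 2 * p.1 * (rad p).1 = nn p := by
    simp only [rad]
    field_simp
  rw [hz, h1]
  simp only [rad, nn, lz, map_add, map_sub, map_mul, map_pow, conj_conj, conj_ofReal]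
  simp only [map_ofNat]
  linear_combination 8 * ht

theorem rad_lz (p : C3) (hp : gEqn p = 0) (hx : p.1 ≠ 0) :
    lz p (rad p) = (psiF p : ℂ) ^ 2 - 64 := by
  have h1 : 2 * p.1 * (rad p).1 = nn p := by
    simp only [rad]
    field_simp
  rw [lz, h1]
  simp only [rad, nn]
  rw [gEqn] at hp
  have hc := psi_c p
  have hp' : conj p.1 ^ 2 * conj p.2.1 - conj p.2.2 ^ 2 + 4 = 0 := by
    have := congrArg conj hp
    simpa only [map_add, map_sub, map_mul, map_pow, map_zero, map_ofNat] using this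
  linear_combination 16 * hp' - (psiF p : ℂ) * hc

/-- the affine surface `x^2 y = Z^2 - 4` -/
noncomputable def surf : LevelSet C3 ℂ 4 where
  eqn := gEqn
  smooth := gEqn_contDiff
  regular := by
    intro p hp c
    set k : ℂ := 2 * p.1 * p.2.1 with hk
    set N : ℝ := normSq k + normSq (p.1 ^ 2) + 4 * normSq p.2.2 with hN
    have hNpos : 0 < N := by
      have h1 := normSq_nonneg k
      have h2 := normSq_nonneg (p.1 ^ 2)
      have h3 := normSq_nonneg p.2.2
      by_contra hcon
      push Not at hcon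
      have h4 : normSq (p.1 ^ 2) = 0 := by linarith
      have h5 : normSq p.2.2 = 0 := by linarith
      rw [normSq_eq_zero] at h4 h5
      rw [gEqn, h4, h5] at hp
      norm_num at hp
    have hNc : (N : ℂ) = conj k * k + conj (p.1 ^ 2) * p.1 ^ 2 + 4 * (conj p.2.2 * p.2.2) := by
      rw [hN]
      push_cast
      rw [← mul_conj, ← mul_conj, ← mul_conj]
      ring
    have hN0 : (N : ℂ) ≠ 0 := by exact_mod_cast hNpos.ne'
    refine ⟨(c / N * conj k, c / N * conj (p.1 ^ 2), -(2 * (c / N * conj p.2.2))), ?_⟩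
    rw [gEqn_fderiv]
    have e : 2 * p.1 * (c / N * conj k) * p.2.1 + p.1 ^ 2 * (c / N * conj (p.1 ^ 2))
        - 2 * p.2.2 * -(2 * (c / N * conj p.2.2)) = c / N * N := by
      rw [hNc]
      simp only [hk]
      ring
    simp only
    rw [e, div_mul_cancel₀ _ hN0]
  dim := by
    rw [finrank_C3, Complex.finrank_real_complex]

theorem surf_tan {p v : C3} : v ∈ surf.Tan p ↔
    2 * p.1 * v.1 * p.2.1 + p.1 ^ 2 * v.2.1 - 2 * p.2.2 * v.2.2 = 0 := by
  change fderiv ℝ gEqn p v = 0 ↔ _
  rw [gEqn_fderiv]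

theorem surf_mem {p : C3} : p ∈ surf.carrier ↔ gEqn p = 0 := Iff.rfl

theorem rad_tan' (p : C3) (hp : p ∈ surf.carrier) (hx : p.1 ≠ 0) : rad p ∈ surf.Tan p := by
  rw [surf_tan]
  exact rad_tan p hp hx

/-- at `x = 0` -/
theorem psi_zero (p : C3) (hp : gEqn p = 0) (hx : p.1 = 0) :
    normSq p.2.1 = psiF p - 8 := by
  rw [gEqn, hx] at hp
  have h1 : p.2.2 ^ 2 = 4 := by linear_combination -hp
  have h2 : normSq p.2.2 ^ 2 = 16 := by
    rw [← map_pow, h1, ← ofReal_ofNat, normSq_ofReal]
    norm_num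
  have h3 : normSq p.2.2 = 4 := by
    have := normSq_nonneg p.2.2
    nlinarith
  rw [psiF_eq, hx, h3, map_zero]
  ring

/-- the base as a level set -/
noncomputable def base : LevelSet C3 (ℂ × ℝ) 3 where
  eqn := baseEqn
  smooth := baseEqn_contDiff
  regular := by
    intro p hp
    have hg : gEqn p = 0 := congrArg Prod.fst hp
    have hψ : psiF p = 17 := sub_eq_zero.mp (congrArg Prod.snd hp)
    -- a vector along which the potential increases
    have hn : ∃ n : C3, (2 * p.1 * n.1 * p.2.1 + p.1 ^ 2 * n.2.1 - 2 * p.2.2 * n.2.2 = 0) ∧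
        (lz p n).re ≠ 0 := by
      by_cases hx : p.1 = 0
      · refine ⟨(0, p.2.1, 0), ?_, ?_⟩
        · rw [hx]; ring
        · have h1 := psi_zero p hg hx
          rw [hψ] at h1
          rw [lz, hx]
          simp only [mul_zero, add_zero]
          rw [mul_comm, mul_conj, h1]
          norm_num
      · refine ⟨rad p, rad_tan p hg hx, ?_⟩
        rw [rad_lz p hg hx, hψ]
        norm_num
    obtain ⟨n, hn1, hn2⟩ := hn
    rintro ⟨c, t⟩
    obtain ⟨v, hv⟩ := surf.regular p hg c
    have hv' : 2 * p.1 * v.1 * p.2.1 + p.1 ^ 2 * v.2.1 - 2 * p.2.2 * v.2.2 = c := by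
      rw [← hv]
      exact (gEqn_fderiv p v).symm
    set s : ℝ := (t - 2 * (lz p v).re) / (2 * (lz p n).re) with hs
    refine ⟨v + s • n, ?_⟩
    rw [map_add, map_smul, baseEqn_fderiv, baseEqn_fderiv, hv', hn1]
    apply Prod.ext
    · simp
    · simp only [Prod.snd_add, Prod.smul_snd, smul_eq_mul]
      rw [hs]
      field_simp
      ring
  dim := by
    rw [finrank_C3, finrank_CR]

theorem base_mem {p : C3} : p ∈ base.carrier ↔ gEqn p = 0 ∧ psiF p = 17 := by
  constructor
  · intro hp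
    exact ⟨congrArg Prod.fst hp, sub_eq_zero.mp (congrArg Prod.snd hp)⟩
  · rintro ⟨h1, h2⟩
    exact Prod.ext h1 (sub_eq_zero.mpr h2)

theorem base_tan {p v : C3} : v ∈ base.Tan p ↔
    2 * p.1 * v.1 * p.2.1 + p.1 ^ 2 * v.2.1 - 2 * p.2.2 * v.2.2 = 0 ∧ (lz p v).re = 0 := by
  change fderiv ℝ baseEqn p v = 0 ↔ _
  rw [baseEqn_fderiv, Prod.ext_iff]
  simp only [Prod.fst_zero, Prod.snd_zero]
  constructor
  · rintro ⟨h1, h2⟩
    exact ⟨h1, by linarith⟩
  · rintro ⟨h1, h2⟩
    exact ⟨h1, by linarith⟩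

/-! ### the filling -/

/-- multiplication by `I` -/
noncomputable def JJ : C3 →L[ℝ] C3 := (I • c1).prod ((I • c2).prod (I • c3))

theorem JJ_apply (v : C3) : JJ v = (I * v.1, I * v.2.1, I * v.2.2) := rfl

theorem hz_J (p u v : C3) : hz p u (JJ v) = I * hz p u v := by
  rw [JJ_apply, hz, hz]
  ring

theorem lz_J (p v : C3) : lz p (JJ v) = I * lz p v := by
  rw [JJ_apply, lz, lz]
  ring

theorem hz_self (p v : C3) : hz p v v
    = ((4 * normSq p.1 * normSq v.1 + normSq v.2.1 + 2 * normSq v.2.2 : ℝ) : ℂ) := by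
  rw [hz]
  push_cast
  simp only [← mul_conj, map_mul, map_ofNat]
  ring

theorem hz_symm (p u v : C3) : hz p u v = conj (hz p v u) := by
  simp only [hz, map_add, map_mul, conj_conj, map_ofNat]
  ring

theorem compact_sub (s : ℝ) (hs : s ∈ Set.Icc (0 : ℝ) 1) :
    IsCompact {p ∈ surf.carrier | (1 - s) * psiF p + s * phiF p ≤ 17} := by
  apply Metric.isCompact_of_isClosed_isBounded
  · have h1 : IsClosed surf.carrier := isClosed_singleton.preimage gEqn_contDiff.continuous
    have h2 : Continuous (fun p => (1 - s) * psiF p + s * phiF p) :=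
      (continuous_const.mul psiF_contDiff.continuous).add
        (continuous_const.mul phiF_contDiff.continuous)
    exact h1.inter (isClosed_le h2 continuous_const)
  · apply (Metric.isBounded_closedBall (x := (0 : C3)) (r := 5)).subset
    rintro q ⟨_, hq⟩
    have hψ : psiF q ≤ 17 := by
      have : (1 - s) * psiF q + s * phiF q = psiF q + s * normSq q.1 := by
        rw [phiF]; ring
      rw [this] at hq
      nlinarith [normSq_nonneg q.1, hs.1]
    rw [psiF_eq] at hψ
    rw [mem_closedBall_zero_iff, Prod.norm_def, Prod.norm_def]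
    have k : ∀ z : ℂ, normSq z ≤ 25 → ‖z‖ ≤ 5 := by
      intro z hz
      rw [← Complex.sq_norm] at hz
      nlinarith [norm_nonneg z]
    have a1 := normSq_nonneg q.1
    have a2 := normSq_nonneg q.2.1
    have a3 := normSq_nonneg q.2.2
    refine max_le (k _ ?_) (max_le (k _ ?_) (k _ ?_))
    · nlinarith
    · nlinarith
    · nlinarith

/-- the Liouville field is outward transverse to the level sets of `psiF` -/
theorem outward_key (p : C3) (hp : gEqn p = 0) (hc : 12 ≤ psiF p) (hc' : psiF p ≤ 17)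
    (v : C3) (hv : v ∈ surf.Tan p)
    (hL : ∀ t ∈ surf.Tan p, 2 * (hz p v t + conj v.1 * t.1) = lz p t + conj p.1 * t.1) :
    0 < (lz p v).re := by
  rw [surf_tan] at hv
  have hself := hL v (surf_tan.mpr hv)
  rw [hz_self] at hself
  have h2 : 2 * (4 * normSq p.1 * normSq v.1 + normSq v.2.1 + 2 * normSq v.2.2 + normSq v.1)
      = (lz p v).re + (conj p.1 * v.1).re := by
    have := congrArg re hself
    rw [mul_comm (conj v.1), mul_conj] at this
    simp only [add_re, mul_re, ofReal_re, ofReal_im, re_ofNat, im_ofNat, add_im] at this ⊢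
    linarith
  have hψ := psiF_eq p
  have a1 := normSq_nonneg p.1
  have a2 := normSq_nonneg p.2.1
  have a3 := normSq_nonneg p.2.2
  by_cases hx : p.1 = 0
  · -- `x = 0`
    have h3 := psi_zero p hp hx
    have hZ : p.2.2 ≠ 0 := by
      intro h0
      rw [gEqn, hx, h0] at hp
      norm_num at hp
    have hv3 : v.2.2 = 0 := by
      rw [hx] at hv
      have : p.2.2 * v.2.2 = 0 := by linear_combination (-1 / 2) * hv
      rcases mul_eq_zero.mp this with h | h
      · exact absurd h hZ
      · exact h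
    have ht : ((0 : ℂ), p.2.1, (0 : ℂ)) ∈ surf.Tan p := by
      rw [surf_tan, hx]; ring
    have h4 := hL _ ht
    simp only [hz, lz, hx, hv3, mul_zero, zero_mul, add_zero, zero_add, map_zero] at h4
    have h5 := congrArg re h4
    simp only [lz, hx, hv3, mul_zero, zero_mul, add_zero, zero_add, map_zero]
    rw [normSq_apply] at h3
    simp only [mul_re, mul_im, conj_re, conj_im, re_ofNat, im_ofNat, map_zero] at h5 ⊢
    nlinarith
  · have hr := hL _ (rad_tan' p hp hx)
    rw [hz_symm, rad_hz p v hx hv, rad_lz p hp hx, map_mul, conj_ofReal] at hr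
    by_contra hcon
    push Not at hcon
    set D := (lz p v).re with hD
    have hr' := congrArg re hr
    have hN : p.1 * (rad p).1 = nn p / 2 := by
      simp only [rad]
      field_simp
    -- `|x - 2 v₁| ≤ |x|`
    have h6 : ‖p.1 - 2 * v.1‖ ≤ ‖p.1‖ := by
      have b1 := normSq_nonneg v.1
      have b2 := normSq_nonneg v.2.1
      have b3 := normSq_nonneg v.2.2
      have h7 : 2 * normSq v.1 ≤ (conj p.1 * v.1).re := by
        have : 0 ≤ 4 * normSq p.1 * normSq v.1 := by positivity
        linarith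
      have h8 : normSq (p.1 - 2 * v.1) ≤ normSq p.1 := by
        have e : normSq (p.1 - 2 * v.1)
            = normSq p.1 - 4 * (conj p.1 * v.1).re + 4 * normSq v.1 := by
          simp only [normSq_apply, sub_re, sub_im, mul_re, mul_im, conj_re, conj_im, re_ofNat,
            im_ofNat]
          ring
        rw [e]
        linarith
      rw [← Complex.sq_norm, ← Complex.sq_norm] at h8
      exact (pow_le_pow_iff_left₀ (norm_nonneg _) (norm_nonneg _) (by norm_num)).mp h8
    have h9 : ‖conj (p.1 - 2 * v.1) * (rad p).1‖ ≤ ‖nn p‖ / 2 := by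
      rw [norm_mul, RCLike.norm_conj]
      calc ‖p.1 - 2 * v.1‖ * ‖(rad p).1‖ ≤ ‖p.1‖ * ‖(rad p).1‖ :=
            mul_le_mul_of_nonneg_right h6 (norm_nonneg _)
        _ = ‖p.1 * (rad p).1‖ := (norm_mul _ _).symm
        _ = ‖nn p‖ / 2 := by rw [hN, norm_div]; norm_num
    have h10 : ‖nn p‖ ≤ psiF p * 5 + 8 * 5 := by
      have k : ∀ z : ℂ, normSq z ≤ 25 → ‖z‖ ≤ 5 := by
        intro z hz
        rw [← Complex.sq_norm] at hz
        nlinarith [norm_nonneg z]
      have k1 : ‖p.1 ^ 2‖ ≤ 5 := by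
        apply k
        rw [map_pow]
        nlinarith
      have k2 : ‖p.2.1‖ ≤ 5 := by
        apply k
        nlinarith
      calc ‖nn p‖ ≤ ‖(psiF p : ℂ) * p.1 ^ 2‖ + ‖8 * conj p.2.1‖ := norm_add_le _ _
        _ = psiF p * ‖p.1 ^ 2‖ + 8 * ‖p.2.1‖ := by
            rw [norm_mul, norm_mul, RCLike.norm_conj, norm_real, Real.norm_of_nonneg (by linarith)]
            norm_num
        _ ≤ psiF p * 5 + 8 * 5 := by
            apply add_le_add
            · exact mul_le_mul_of_nonneg_left k1 (by linarith)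
            · linarith
    have h11 : -(‖nn p‖ / 2) ≤ (conj (p.1 - 2 * v.1) * (rad p).1).re := by
      have := abs_re_le_norm (conj (p.1 - 2 * v.1) * (rad p).1)
      have := neg_abs_le (conj (p.1 - 2 * v.1) * (rad p).1).re
      linarith
    have h12 : 2 * (psiF p * D) = psiF p ^ 2 - 64 + (conj (p.1 - 2 * v.1) * (rad p).1).re := by
      simp only [hD]
      simp only [add_re, mul_re, mul_im, sub_re, sub_im, conj_re, conj_im, ofReal_re, ofReal_im,
        re_ofNat, im_ofNat, add_im, map_sub, map_mul, map_ofNat, pow_two] at hr' ⊢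
      linarith
    nlinarith

end Pool.Agent.H92.BC
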