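import Pool.Agent.H92.BC.BaseB

/-!
# The base: parametrisation by `z`, `w` and the supported contact form
-/

namespace Pool.Agent.H92.BC

open Complex ComplexConjugate
open scoped ContDiff Topology

theorem exists_zw (p : C3) (hp : p ∈ base.carrier) : ∃ z w : ℂ,
    normSq z + normSq w = 1 ∧ z ^ 2 = (4 * p.1 ^ 2 + conj p.2.1) / 15 ∧
    w ^ 2 = (4 * p.2.1 + conj p.1 ^ 2) / 15 ∧ z * w = (4 * p.2.2 - conj p.2.2) / 15 := by
  obtain ⟨hg, hψ⟩ := base_mem.mp hp
  have hg' : conj p.1 ^ 2 * conj p.2.1 - conj p.2.2 ^ 2 + 4 = 0 := by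
    have := congrArg conj hg
    rw [gEqn] at this
    simpa only [map_add, map_sub, map_mul, map_pow, map_zero, map_ofNat] using this
  rw [gEqn] at hg
  have hc := psi_c p
  rw [hψ] at hc
  set A : ℂ := (4 * p.1 ^ 2 + conj p.2.1) / 15 with hA
  set B : ℂ := (4 * p.2.1 + conj p.1 ^ 2) / 15 with hB
  set C : ℂ := (4 * p.2.2 - conj p.2.2) / 15 with hC
  have hAB : A * B = C ^ 2 := by
    rw [hA, hB, hC]
    push_cast at hc
    linear_combination (16 * hg + hg' - 4 * hc) / 225
  obtain ⟨z, w, hz, hw, hzw⟩ : ∃ z w : ℂ, z ^ 2 = A ∧ w ^ 2 = B ∧ z * w = C := by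
    obtain ⟨w, hw⟩ := IsAlgClosed.exists_pow_nat_eq B (n := 2) (by norm_num)
    by_cases hB0 : B = 0
    · obtain ⟨z, hz⟩ := IsAlgClosed.exists_pow_nat_eq A (n := 2) (by norm_num)
      refine ⟨z, w, hz, hw, ?_⟩
      have hw0 : w = 0 := by
        rw [hB0] at hw
        exact pow_eq_zero_iff (by norm_num) |>.mp hw
      have hC0 : C = 0 := by
        rw [hB0, mul_zero] at hAB
        exact pow_eq_zero_iff (by norm_num) |>.mp hAB.symm
      rw [hw0, hC0, mul_zero]
    · have hw0 : w ≠ 0 := by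
        rintro rfl
        apply hB0
        rw [← hw]
        norm_num
      refine ⟨C / w, w, ?_, hw, ?_⟩
      · rw [div_pow, ← hAB, hw]
        field_simp
      · field_simp
  refine ⟨z, w, ?_, hz, hw, hzw⟩
  have h1 : (normSq z + normSq w) ^ 2 = normSq A + normSq B + 2 * normSq C := by
    rw [← hz, ← hw, ← hzw, map_pow, map_pow, map_mul]
    ring
  have h2 : normSq A + normSq B + 2 * normSq C = 1 := by
    have h3 : ((normSq A + normSq B + 2 * normSq C : ℝ) : ℂ) = 1 := by
      push_cast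
      rw [← mul_conj, ← mul_conj, ← mul_conj, hA, hB, hC]
      simp only [map_add, map_sub, map_div₀, map_mul, map_pow, conj_conj, map_ofNat]
      push_cast at hc
      linear_combination (8 * hg + 8 * hg' - 17 * hc) / 225
    exact_mod_cast h3
  rw [h2] at h1
  have a1 := normSq_nonneg z
  have a2 := normSq_nonneg w
  nlinarith

/-- the coordinates in terms of `z`, `w` -/
theorem coords_zw (p : C3) {z w : ℂ} (hz : z ^ 2 = (4 * p.1 ^ 2 + conj p.2.1) / 15)
    (hw : w ^ 2 = (4 * p.2.1 + conj p.1 ^ 2) / 15)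
    (hzw : z * w = (4 * p.2.2 - conj p.2.2) / 15) :
    p.1 ^ 2 = 4 * z ^ 2 - conj w ^ 2 ∧ p.2.1 = 4 * w ^ 2 - conj z ^ 2 ∧
      p.2.2 = 4 * (z * w) + conj z * conj w := by
  have hz' : conj z ^ 2 = (4 * conj p.1 ^ 2 + p.2.1) / 15 := by
    have := congrArg conj hz
    simpa only [map_add, map_sub, map_div₀, map_mul, map_pow, conj_conj, map_ofNat] using this
  have hw' : conj w ^ 2 = (4 * conj p.2.1 + p.1 ^ 2) / 15 := by
    have := congrArg conj hw
    simpa only [map_add, map_sub, map_div₀, map_mul, map_pow, conj_conj, map_ofNat] using this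
  have hzw' : conj z * conj w = (4 * conj p.2.2 - p.2.2) / 15 := by
    have := congrArg conj hzw
    simpa only [map_add, map_sub, map_div₀, map_mul, map_pow, conj_conj, map_ofNat] using this
  refine ⟨?_, ?_, ?_⟩
  · rw [hz, hw']; ring
  · rw [hw, hz']; ring
  · rw [hzw, hzw']; ring

/-- `conj x * (k / x)` -/
theorem cx_div (x k : ℂ) (hx : x ≠ 0) : conj x * (k / x) = conj x ^ 2 * k / (normSq x : ℂ) := by
  have h1 : (normSq x : ℂ) = x * conj x := (mul_conj x).symm
  have h2 : conj x ≠ 0 := by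
    intro h
    apply hx
    simpa using h
  rw [h1]
  field_simp

theorem cdiv_div (x k l : ℂ) (hx : x ≠ 0) :
    conj (k / x) * (l / x) = conj k * l / (normSq x : ℂ) := by
  have h1 : (normSq x : ℂ) = x * conj x := (mul_conj x).symm
  have h2 : conj x ≠ 0 := by
    intro h
    apply hx
    simpa using h
  rw [h1, map_div₀]
  field_simp

/-- the frame at a point with `x ≠ 0` -/
theorem base_frame (p : C3) (hp : p ∈ base.carrier) (hx : p.1 ≠ 0) (hF : FF p ≠ 0) :
    ∃ e1 ∈ base.Tan p, ∃ e2 ∈ base.Tan p, ∃ e3 ∈ base.Tan p,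
      0 < vol baseForm p e1 e2 e3 ∧ 0 < w3 (nu FF p) baseForm p e1 e2 e3 := by
  obtain ⟨z, w, hn, hzA, hwB, hzwC⟩ := exists_zw p hp
  obtain ⟨k1, k2, k3⟩ := coords_zw p hzA hwB hzwC
  obtain ⟨x, y, Z⟩ := p
  simp only at hx k1 k2 k3 hzA hwB hzwC
  have hFw : FF (x, y, Z) = 15 * w ^ 2 := by
    rw [FF, hwB]; ring
  have hw0 : w ≠ 0 := by
    rintro rfl
    apply hF
    rw [hFw]
    ring
  set P := normSq z with hP
  set Q := normSq w with hQ
  set s := normSq x with hs
  set J := (z * w).re with hJ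
  set K := (z * w).im with hK
  have hspos : 0 < s := normSq_pos.mpr hx
  have hQpos : 0 < Q := normSq_pos.mpr hw0
  have hP0 : 0 ≤ P := normSq_nonneg z
  have hJK : J ^ 2 + K ^ 2 = P * Q := by
    rw [hJ, hK, hP, hQ, ← normSq_mul, normSq_apply]; ring
  have hnc : (P : ℂ) + Q = 1 := by exact_mod_cast hn
  have hPc : (P : ℂ) = z * conj z := (mul_conj z).symm
  have hQc : (Q : ℂ) = w * conj w := (mul_conj w).symm
  have hn1 : z * conj z + w * conj w = 1 := by rw [← hPc, ← hQc]; exact hnc
  have k1' : conj x ^ 2 = 4 * conj z ^ 2 - w ^ 2 := by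
    have := congrArg conj k1
    simpa only [map_add, map_sub, map_mul, map_pow, conj_conj, map_ofNat] using this
  have k2' : conj y = 4 * conj w ^ 2 - z ^ 2 := by
    have := congrArg conj k2
    simpa only [map_add, map_sub, map_mul, map_pow, conj_conj, map_ofNat] using this
  have k3' : conj Z = 4 * (conj z * conj w) + z * w := by
    have := congrArg conj k3
    simpa only [map_add, map_sub, map_mul, map_pow, conj_conj, map_ofNat] using this
  have hsx : conj x ≠ 0 := by
    intro h
    apply hx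
    simpa using h
  -- `s` dominates `Q - 4 P`
  have hs2 : s ^ 2 = 16 * P ^ 2 + Q ^ 2 - 8 * (J ^ 2 - K ^ 2) := by
    rw [hs, ← map_pow, k1, hP, hQ, hJ, hK]
    simp only [normSq_apply, pow_two, sub_re, sub_im, mul_re, mul_im, conj_re, conj_im, re_ofNat,
      im_ofNat]
    ring
  have hs3 : (4 * P - Q) ^ 2 ≤ s ^ 2 := by
    rw [hs2]
    nlinarith [sq_nonneg K]
  have hs4 : Q - 4 * P ≤ s := by
    nlinarith
  -- the frame
  set r1 : ℂ := I * (4 * z ^ 2 + conj w ^ 2) with hr1
  set r2 : ℂ := -5 * (z * conj w) with hr2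
  set r3 : ℂ := -3 * I * (z * conj w) with hr3
  set e1 : C3 := (r1 / x, 8 * I * w ^ 2 + 2 * I * conj z ^ 2,
    8 * I * (z * w) - 2 * I * (conj z * conj w)) with he1
  set e2 : C3 := (r2 / x, 10 * (conj z * w), 5 * ((P : ℂ) - Q)) with he2
  set e3 : C3 := (r3 / x, 6 * I * (conj z * w), 3 * I * ((P : ℂ) - Q)) with he3
  have hmul : ∀ k : ℂ, 2 * x * (k / x) = 2 * k := by
    intro k
    field_simp
  have l1 : lz (x, y, Z) e1 = 30 * I := by
    simp only [lz, he1]
    rw [hmul, k1', k2', k3', hr1]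
    linear_combination (30 * I * (z * conj z + w * conj w) + 30 * I) * hn1
  have l2 : lz (x, y, Z) e2 = 0 := by
    simp only [lz, he2]
    rw [hmul, k1', k2', k3', hr2, hPc, hQc]
    ring
  have l3 : lz (x, y, Z) e3 = 0 := by
    simp only [lz, he3]
    rw [hmul, k1', k2', k3', hr3, hPc, hQc]
    ring
  have t1 : e1 ∈ base.Tan (x, y, Z) := by
    rw [base_tan, l1]
    constructor
    · simp only [he1]
      rw [hmul, k1, k2, k3, hr1]
      ring
    · simp
  have t2 : e2 ∈ base.Tan (x, y, Z) := by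
    rw [base_tan, l2]
    constructor
    · simp only [he2]
      rw [hmul, k1, k2, k3, hr2, hPc, hQc]
      ring
    · simp
  have t3 : e3 ∈ base.Tan (x, y, Z) := by
    rw [base_tan, l3]
    constructor
    · simp only [he3]
      rw [hmul, k1, k2, k3, hr3, hPc, hQc]
      ring
    · simp
  have hdiv : ∀ c : ℂ, (c / (s : ℂ)).im = c.im / s := by
    intro c
    rw [div_ofReal_im]
  have α1 : baseForm (x, y, Z) e1 = 30 + (16 * P ^ 2 - Q ^ 2) / s := by
    rw [baseForm_apply, l1, add_im]
    simp only [he1]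
    rw [cx_div x r1 hx, hdiv, k1', hr1]
    have : ((4 * conj z ^ 2 - w ^ 2) * (I * (4 * z ^ 2 + conj w ^ 2))).im
        = 16 * P ^ 2 - Q ^ 2 := by
      rw [hP, hQ]
      simp only [normSq_apply, pow_two, sub_re, sub_im, add_re, add_im, mul_re, mul_im, conj_re,
        conj_im, re_ofNat, im_ofNat, I_re, I_im]
      ring
    rw [this]
    simp
  have α2 : baseForm (x, y, Z) e2 = 5 * (4 * P + Q) * K / s := by
    rw [baseForm_apply, l2, zero_add]
    simp only [he2]
    rw [cx_div x r2 hx, hdiv, k1', hr2]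
    congr 1
    rw [hP, hQ, hK]
    simp only [normSq_apply, pow_two, sub_re, sub_im, add_re, add_im, mul_re, mul_im, conj_re,
        conj_im, re_ofNat, im_ofNat, neg_re, neg_im]
    ring
  have α3 : baseForm (x, y, Z) e3 = -3 * (4 * P - Q) * J / s := by
    rw [baseForm_apply, l3, zero_add]
    simp only [he3]
    rw [cx_div x r3 hx, hdiv, k1', hr3]
    congr 1
    rw [hP, hQ, hJ]
    simp only [normSq_apply, pow_two, sub_re, sub_im, add_re, add_im, mul_re, mul_im, conj_re,
        conj_im, re_ofNat, im_ofNat, I_re, I_im, neg_re, neg_im]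
    ring
  have d23 : dOne baseForm (x, y, Z) e2 e3 = 60 + 30 * (P * Q) / s := by
    rw [baseForm_dOne, add_im]
    simp only [hz, he2, he3]
    rw [cdiv_div x r2 r3 hx, hdiv, hmul, hmul, hr2, hr3]
    have e : (conj (2 * (-5 * (z * conj w))) * (2 * (-3 * I * (z * conj w)))
        + conj (10 * (conj z * w)) * (6 * I * (conj z * w))
        + 2 * (conj (5 * ((P : ℂ) - Q)) * (3 * I * ((P : ℂ) - Q)))) = 30 * I := by
      simp only [map_mul, map_sub, map_neg, conj_conj, conj_ofReal, map_ofNat]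
      rw [hPc, hQc]
      linear_combination (30 * I * (z * conj z + w * conj w) + 30 * I) * hn1
    rw [e]
    have e' : (conj (-5 * (z * conj w)) * (-3 * I * (z * conj w))).im = 15 * (P * Q) := by
      rw [hP, hQ]
      simp only [normSq_apply, mul_re, mul_im, conj_re,
        conj_im, re_ofNat, im_ofNat, I_re, I_im, neg_re, neg_im]
      ring
    rw [e']
    simp only [mul_im, re_ofNat, im_ofNat, I_re, I_im]
    ring
  have d31 : dOne baseForm (x, y, Z) e3 e1 = -6 * (4 * P - Q) * K / s := by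
    rw [baseForm_dOne, add_im]
    simp only [hz, he1, he3]
    rw [cdiv_div x r3 r1 hx, hdiv, hmul, hmul, hr1, hr3]
    have e : (conj (2 * (-3 * I * (z * conj w))) * (2 * (I * (4 * z ^ 2 + conj w ^ 2)))
        + conj (6 * I * (conj z * w)) * (8 * I * w ^ 2 + 2 * I * conj z ^ 2)
        + 2 * (conj (3 * I * ((P : ℂ) - Q)) * (8 * I * (z * w) - 2 * I * (conj z * conj w))))
        = 0 := by
      simp only [map_mul, map_sub, map_neg, conj_conj, conj_ofReal, map_ofNat, conj_I]
      rw [hPc, hQc]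
      ring
    rw [e]
    have e' : (conj (-3 * I * (z * conj w)) * (I * (4 * z ^ 2 + conj w ^ 2))).im
        = -3 * (4 * P - Q) * K := by
      rw [hP, hQ, hK]
      simp only [normSq_apply, pow_two, add_re, add_im, mul_re, mul_im, conj_re,
        conj_im, re_ofNat, im_ofNat, I_re, I_im, neg_re, neg_im]
      ring
    rw [e']
    simp only [zero_im]
    ring
  have d12 : dOne baseForm (x, y, Z) e1 e2 = 10 * (4 * P + Q) * J / s := by
    rw [baseForm_dOne, add_im]
    simp only [hz, he1, he2]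
    rw [cdiv_div x r1 r2 hx, hdiv, hmul, hmul, hr1, hr2]
    have e : (conj (2 * (I * (4 * z ^ 2 + conj w ^ 2))) * (2 * (-5 * (z * conj w)))
        + conj (8 * I * w ^ 2 + 2 * I * conj z ^ 2) * (10 * (conj z * w))
        + 2 * (conj (8 * I * (z * w) - 2 * I * (conj z * conj w)) * (5 * ((P : ℂ) - Q))))
        = 0 := by
      simp only [map_mul, map_add, map_sub, map_neg, map_pow, conj_conj, map_ofNat,
        conj_I]
      rw [hPc, hQc]
      ring
    rw [e]
    have e' : (conj (I * (4 * z ^ 2 + conj w ^ 2)) * (-5 * (z * conj w))).im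
        = 5 * (4 * P + Q) * J := by
      rw [hP, hQ, hJ]
      simp only [normSq_apply, pow_two, add_re, add_im, mul_re, mul_im, conj_re,
        conj_im, re_ofNat, im_ofNat, I_re, I_im, neg_re, neg_im]
      ring
    rw [e']
    simp only [zero_im]
    ring
  refine ⟨e1, t1, e2, t2, e3, t3, ?_, ?_⟩
  · rw [vol, α1, α2, α3, d23, d31, d12]
    have e : (30 + (16 * P ^ 2 - Q ^ 2) / s) * (60 + 30 * (P * Q) / s)
        + 5 * (4 * P + Q) * K / s * (-6 * (4 * P - Q) * K / s)
        + -3 * (4 * P - Q) * J / s * (10 * (4 * P + Q) * J / s)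
        = (1800 * s + 900 * (P * Q) + 60 * (16 * P ^ 2 - Q ^ 2)) / s := by
      field_simp
      linear_combination (-30 * (4 * P - Q) * (4 * P + Q)) * hJK
    rw [e]
    apply div_pos _ hspos
    have hQ1 : Q = 1 - P := by linarith
    have hPQ : 0 ≤ P * Q := by positivity
    by_cases h4 : Q ≤ 4 * P
    · have : 0 ≤ 16 * P ^ 2 - Q ^ 2 := by nlinarith
      nlinarith
    · push Not at h4
      have h5 : 16 * P ^ 2 - Q ^ 2 ≥ -(s * 4) := by
        have h6 : (Q - 4 * P) * (Q + 4 * P) ≤ s * (Q + 4 * P) :=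
          mul_le_mul_of_nonneg_right hs4 (by positivity)
        nlinarith
      nlinarith
  · rw [w3, d23, d31, d12, nu_apply, nu_apply, nu_apply, FF_fderiv, FF_fderiv, FF_fderiv, hFw]
    have hcd : ∀ k : ℂ, 2 * conj x * conj (k / x) = 2 * conj k := by
      intro k
      rw [map_div₀]
      field_simp
    simp only [he1, he2, he3]
    rw [hcd, hcd, hcd]
    have n1 : (conj (15 * w ^ 2) * (4 * (8 * I * w ^ 2 + 2 * I * conj z ^ 2) + 2 * conj r1)).im
        = 450 * Q * Q := by
      rw [hr1, hQ]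
      simp only [normSq_apply, pow_two, add_re, add_im, mul_re, mul_im, conj_re,
        conj_im, re_ofNat, im_ofNat, I_re, I_im]
      ring
    have n2 : (conj (15 * w ^ 2) * (4 * (10 * (conj z * w)) + 2 * conj r2)).im
        = -(450 * Q * K) := by
      rw [hr2, hQ, hK]
      simp only [normSq_apply, pow_two, add_re, add_im, mul_re, mul_im, conj_re,
        conj_im, re_ofNat, im_ofNat, neg_re, neg_im]
      ring
    have n3 : (conj (15 * w ^ 2) * (4 * (6 * I * (conj z * w)) + 2 * conj r3)).im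
        = 450 * Q * J := by
      rw [hr3, hQ, hJ]
      simp only [normSq_apply, pow_two, add_re, add_im, mul_re, mul_im, conj_re,
        conj_im, re_ofNat, im_ofNat, neg_re, neg_im, I_re, I_im]
      ring
    rw [n1, n2, n3]
    have e : 450 * Q * Q * (60 + 30 * (P * Q) / s) + -(450 * Q * K) * (-6 * (4 * P - Q) * K / s)
        + 450 * Q * J * (10 * (4 * P + Q) * J / s)
        = 450 * Q * (60 * Q * s + 30 * P * Q ^ 2 + 6 * (4 * P - Q) * K ^ 2
          + 10 * (4 * P + Q) * J ^ 2) / s := by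
      field_simp
    rw [e]
    apply div_pos _ hspos
    apply mul_pos (by positivity)
    have h7 : K ^ 2 ≤ P * Q := by nlinarith [sq_nonneg J]
    have h8 : 0 ≤ 10 * (4 * P + Q) * J ^ 2 := by positivity
    have h9 : 0 ≤ 24 * P * K ^ 2 := by positivity
    have h10 : 6 * Q * K ^ 2 ≤ 6 * Q * (P * Q) := mul_le_mul_of_nonneg_left h7 (by positivity)
    have h11 : 0 ≤ P * Q ^ 2 := by positivity
    have h12 : 0 < 60 * Q * s := by positivity
    nlinarith

end Pool.Agent.H92.BC
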