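import Pool.Agent.H92.BC.BaseC

/-!
# The base: the contact form is supported by the rational open book
-/

namespace Pool.Agent.H92.BC

open Complex ComplexConjugate
open scoped ContDiff Topology

/-- transverse coordinate at the binding -/
noncomputable def zeta (q : C3) : ℂ := (4 * q.2.2 - conj q.2.2) / 15

/-- the unit at the binding -/
noncomputable def unitH (q : C3) : ℂ := 225 / (4 * q.1 ^ 2 + conj q.2.1)

theorem zeta_contDiff : ContDiff ℝ ∞ zeta :=
  ((contDiff_const.mul c3.contDiff).sub (conjCLE.contDiff.comp c3.contDiff)).div_const 15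

theorem zeta_fderiv (p v : C3) : fderiv ℝ zeta p v = (4 * v.2.2 - conj v.2.2) / 15 := by
  have h3 : HasFDerivAt (fun q : C3 => q.2.2) c3 p := c3.hasFDerivAt
  have h4 := ((h3.const_mul 4).sub (conj_hasFDerivAt h3)).mul_const (15 : ℂ)⁻¹
  have e : zeta = fun q : C3 => (4 * q.2.2 - conj q.2.2) * (15 : ℂ)⁻¹ := by
    funext q
    rw [zeta, div_eq_mul_inv]
  rw [e]
  have h5 : fderiv ℝ (fun q : C3 => (4 * q.2.2 - conj q.2.2) * (15 : ℂ)⁻¹) p = _ := h4.fderiv
  rw [h5]
  simp
  ring

/-- on the base, `F * (4 x^2 + conj y) / 15 = 15 ζ^2` -/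
theorem FF_zeta (p : C3) (hp : p ∈ base.carrier) :
    FF p * (4 * p.1 ^ 2 + conj p.2.1) = 225 * zeta p ^ 2 := by
  obtain ⟨z, w, _, h1, h2, h3⟩ := exists_zw p hp
  have e1 : FF p = 15 * w ^ 2 := by rw [FF, h2]; ring
  have e2 : (4 * p.1 ^ 2 + conj p.2.1) = 15 * z ^ 2 := by rw [h1]; ring
  have e3 : zeta p = z * w := by rw [zeta, h3]
  rw [e1, e2, e3]
  ring

/-- data at a binding point -/
theorem at_binding (p : C3) (hp : p ∈ base.carrier) (hF : FF p = 0) :
    p.2.2 = 0 ∧ 4 * p.1 ^ 2 + conj p.2.1 ≠ 0 ∧ normSq p.1 = 4 ∧ normSq p.2.1 = 1 ∧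
      p.2.1 = -(conj p.1 ^ 2 / 4) := by
  obtain ⟨z, w, hn, h1, h2, h3⟩ := exists_zw p hp
  have hw : w = 0 := by
    have : w ^ 2 = 0 := by
      rw [h2]
      rw [FF] at hF
      rw [hF, zero_div]
    exact pow_eq_zero_iff (by norm_num) |>.mp this
  have hy : p.2.1 = -(conj p.1 ^ 2 / 4) := by
    rw [FF] at hF
    linear_combination hF / 4
  have hZ : p.2.2 = 0 := by
    rw [hw, mul_zero] at h3
    have h4 : 4 * p.2.2 - conj p.2.2 = 0 := by linear_combination (-15) * h3
    apply Complex.ext
    · have := congrArg re h4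
      simp only [sub_re, mul_re, re_ofNat, im_ofNat, conj_re, zero_re] at this ⊢
      linarith
    · have := congrArg im h4
      simp only [sub_im, mul_im, re_ofNat, im_ofNat, conj_im, zero_im] at this ⊢
      linarith
  have hψ := (base_mem.mp hp).2
  rw [psiF_eq, hZ] at hψ
  have hny : normSq p.2.1 = normSq p.1 ^ 2 / 16 := by
    rw [hy, normSq_neg, map_div₀, map_pow, normSq_conj]
    congr 1
    rw [← ofReal_ofNat, normSq_ofReal]
    norm_num
  rw [hny, map_zero] at hψ
  have hnx : normSq p.1 = 4 := by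
    have := normSq_nonneg p.1
    nlinarith
  refine ⟨hZ, ?_, hnx, ?_, hy⟩
  · intro h0
    rw [h0, zero_div] at h1
    have hz : z = 0 := pow_eq_zero_iff (by norm_num) |>.mp h1
    rw [hz, hw] at hn
    simp at hn
  · rw [hny, hnx]
    norm_num

theorem base_chart (p : C3) (hp : p ∈ base.carrier) (hF : FF p = 0) :
    BindingChart base FF p zeta unitH 2 := by
  obtain ⟨hZ, hA, _, _, _⟩ := at_binding p hp hF
  have hden : ContDiff ℝ ∞ (fun q : C3 => 4 * q.1 ^ 2 + conj q.2.1) :=
    (contDiff_const.mul sq_contDiff).add (conjCLE.contDiff.comp c2.contDiff)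
  refine ⟨by norm_num, zeta_contDiff.contDiffAt, ?_, ?_, ?_, ?_, ?_⟩
  · have h1 : unitH = fun q : C3 => 225 * (4 * q.1 ^ 2 + conj q.2.1)⁻¹ := by
      funext q
      rw [unitH, div_eq_mul_inv]
    rw [h1]
    exact contDiffAt_const.mul (hden.contDiffAt.inv hA)
  · rw [zeta, hZ]; simp
  · rw [unitH]
    exact div_ne_zero (by norm_num) hA
  · intro c
    refine ⟨(0, 0, 4 * c + conj c), ?_, ?_⟩
    · rw [base_tan]
      constructor
      · rw [hZ]; ring
      · rw [lz, hZ]; simp
    · rw [zeta_fderiv]
      simp only [map_add, map_mul, map_ofNat, conj_conj]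
      ring
  · have hev : ∀ᶠ q in 𝓝 p, 4 * q.1 ^ 2 + conj q.2.1 ≠ 0 :=
      hden.continuous.continuousAt.eventually_ne hA
    filter_upwards [hev] with q hq hqM
    have := FF_zeta q hqM
    rw [unitH]
    field_simp
    linear_combination this

/-- good frames off the binding -/
theorem base_off (p : C3) (hp : p ∈ base.carrier) (hF : FF p ≠ 0) :
    ∃ e1 ∈ base.Tan p, ∃ e2 ∈ base.Tan p, ∃ e3 ∈ base.Tan p,
      0 < vol baseForm p e1 e2 e3 ∧ 0 < w3 (nu FF p) baseForm p e1 e2 e3 := by
  by_cases hx : p.1 = 0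
  · have hy := psi_zero p (base_mem.mp hp).1 hx
    rw [(base_mem.mp hp).2] at hy
    have hy' : p.2.1.re * p.2.1.re + p.2.1.im * p.2.1.im = 9 := by
      rw [← normSq_apply, hy]; norm_num
    have a1 : baseForm p (0, 2 * I * p.2.1, 0) = 18 := by
      rw [baseForm_apply, lz, hx]
      simp only [mul_zero, add_zero, zero_add, map_zero, mul_im, mul_re, conj_re, conj_im,
        re_ofNat, im_ofNat, I_re, I_im]
      linarith
    have a2 : baseForm p (1, 0, 0) = 0 := by
      rw [baseForm_apply, lz, hx]
      simp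
    have a3 : baseForm p (I, 0, 0) = 0 := by
      rw [baseForm_apply, lz, hx]
      simp
    have d : dOne baseForm p (1, 0, 0) (I, 0, 0) = 2 := by
      rw [baseForm_dOne, hz, hx]
      simp
    refine ⟨(0, 2 * I * p.2.1, 0), ?_, (1, 0, 0), ?_, (I, 0, 0), ?_, ?_, ?_⟩
    · rw [base_tan]
      constructor
      · rw [hx]; ring
      · rw [lz, hx]
        simp only [mul_zero, add_zero, zero_add, map_zero, mul_im, mul_re, conj_re, conj_im,
          re_ofNat, im_ofNat, I_re, I_im]
        ring
    · rw [base_tan]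
      constructor
      · rw [hx]; ring
      · rw [lz, hx]; simp
    · rw [base_tan]
      constructor
      · rw [hx]; ring
      · rw [lz, hx]; simp
    · rw [vol, a1, a2, a3, d]
      norm_num
    · have n1 : nu FF p (0, 2 * I * p.2.1, 0) = 288 := by
        rw [nu_apply, FF_fderiv, FF, hx]
        simp only [map_zero, mul_zero, add_zero, mul_im, mul_re, conj_re, conj_im,
          re_ofNat, im_ofNat, I_re, I_im, add_im, add_re, pow_two]
        nlinarith
      have n2 : nu FF p (1, 0, 0) = 0 := by
        rw [nu_apply, FF_fderiv, hx]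
        simp
      have n3 : nu FF p (I, 0, 0) = 0 := by
        rw [nu_apply, FF_fderiv, hx]
        simp
      rw [w3, n1, n2, n3, d]
      norm_num
  · exact base_frame p hp hx hF

theorem base_supports : Supports base FF baseForm := by
  apply supports_of_frames _ _ _ FF_contDiff baseForm_smooth
  · intro p hp hF
    exact base_off p hp hF
  · intro p hp hF
    refine ⟨zeta, unitH, 2, base_chart p hp hF, ?_⟩
    obtain ⟨hZ, hA, hnx, hny, hy⟩ := at_binding p hp hF
    have hx' : p.1.re * p.1.re + p.1.im * p.1.im = 4 := by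
      rw [← normSq_apply, hnx]
    have hy' : p.2.1.re * p.2.1.re + p.2.1.im * p.2.1.im = 1 := by
      rw [← normSq_apply, hny]
    have l1 : lz p (I * p.1, -(2 * I * p.2.1), 0) = 30 * I := by
      rw [lz]
      have e1 : p.1 * conj p.1 = 4 := by
        rw [mul_conj, hnx]; norm_num
      have e2 : p.2.1 * conj p.2.1 = 1 := by
        rw [mul_conj, hny]; norm_num
      linear_combination (2 * I * (p.1 * conj p.1) + 8 * I) * e1 - 2 * I * e2
    have a1 : baseForm p (I * p.1, -(2 * I * p.2.1), 0) = 34 := by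
      rw [baseForm_apply, l1]
      simp only [add_im, mul_im, mul_re, conj_re, conj_im, re_ofNat, im_ofNat, I_re, I_im]
      linarith
    have a2 : baseForm p (0, 0, 1) = 0 := by
      rw [baseForm_apply, lz, hZ]
      simp
    have a3 : baseForm p (0, 0, I) = 0 := by
      rw [baseForm_apply, lz, hZ]
      simp
    have d : dOne baseForm p (0, 0, 1) (0, 0, I) = 4 := by
      rw [baseForm_dOne, hz]
      simp
      norm_num
    refine ⟨(I * p.1, -(2 * I * p.2.1), 0), ?_, (0, 0, 1), ?_, (0, 0, I), ?_, ?_, ?_, ?_, ?_⟩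
    · rw [base_tan, l1]
      constructor
      · rw [hZ]; ring
      · simp
    · rw [base_tan]
      constructor
      · rw [hZ]; ring
      · rw [lz, hZ]; simp
    · rw [base_tan]
      constructor
      · rw [hZ]; ring
      · rw [lz, hZ]; simp
    · rw [vol, a1, a2, a3, d]
      norm_num
    · rw [zeta_fderiv]
      simp
    · rw [zeta_fderiv, zeta_fderiv]
      have e : conj ((4 * (1 : ℂ) - conj 1) / 15) * ((4 * I - conj I) / 15) = 1 / 15 * I := by
        simp only [map_div₀, map_sub, map_mul, map_one, map_ofNat, conj_I]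
        ring
      rw [e]
      simp
    · rw [a1]
      norm_num

/-- the binding is connected -/
theorem base_binding_connected : IsConnected {p ∈ base.carrier | FF p = 0} := by
  have h1 : {p ∈ base.carrier | FF p = 0} = (fun t : ℝ => ((2 * cexp (t * I) : ℂ), -(cexp (-(2 * t * I))),
      (0 : ℂ))) '' Set.univ := by
    ext p
    constructor
    · rintro ⟨hp, hF⟩
      obtain ⟨hZ, _, hnx, _, hy⟩ := at_binding p hp hF
      have hx2 : ‖p.1‖ = 2 := by
        have : ‖p.1‖ ^ 2 = 4 := by rw [Complex.sq_norm, hnx]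
        nlinarith [norm_nonneg p.1]
      have hx3 : p.1 = 2 * cexp (arg p.1 * I) := by
        have h := norm_mul_exp_arg_mul_I p.1
        rw [hx2] at h
        push_cast at h
        exact h.symm
      refine ⟨arg p.1, trivial, ?_⟩
      refine Prod.ext hx3.symm (Prod.ext ?_ hZ.symm)
      simp only
      rw [hy]
      have h4 : conj p.1 = 2 * cexp (-(arg p.1 * I)) := by
        rw [hx3]
        rw [map_mul, ← exp_conj, map_mul, conj_I, conj_ofReal, map_ofNat, mul_neg, ← hx3]
      rw [h4, mul_pow, ← exp_nat_mul]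
      have : ((2 : ℕ) : ℂ) * -(arg p.1 * I) = -(2 * arg p.1 * I) := by
        push_cast; ring
      rw [this]
      ring
    · rintro ⟨t, _, rfl⟩
      have hsplit : cexp (-(2 * t * I)) = cexp (-(t * I)) * cexp (-(t * I)) := by
        rw [← exp_add]; congr 1; ring
      have hinv : cexp (t * I) * cexp (-(t * I)) = 1 := by
        rw [← exp_add]; simp
      have hconj : conj (cexp (t * I)) = cexp (-(t * I)) := by
        rw [← exp_conj, map_mul, conj_I, conj_ofReal, mul_neg]
      refine ⟨base_mem.mpr ⟨?_, ?_⟩, ?_⟩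
      · simp only [gEqn]
        rw [hsplit]
        linear_combination (-4 * (cexp (t * I) * cexp (-(t * I))) - 4) * hinv
      · rw [psiF_eq]
        simp only [normSq_mul, normSq_neg, map_zero]
        have e1 : normSq (cexp (t * I)) = 1 := by
          rw [← Complex.sq_norm, norm_exp_ofReal_mul_I]; norm_num
        have e2 : normSq (cexp (-(t * I))) = 1 := by
          rw [← hconj, normSq_conj, e1]
        rw [hsplit, normSq_mul, e1, e2, ← ofReal_ofNat, normSq_ofReal]
        norm_num
      · simp only [FF]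
        rw [map_mul, hconj, hsplit, map_ofNat]
        ring
  rw [h1]
  apply isConnected_univ.image
  apply Continuous.continuousOn
  fun_prop

end Pool.Agent.H92.BC
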