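import Pool.Agent.H92.BC.Gen

/-!
# The cyclic covers: the links `a b = conj u ^ (2 m)`, `|a|^2 + |b|^2 = 1`
-/

namespace Pool.Agent.H92.BC

open Complex ComplexConjugate
open scoped ContDiff Topology

abbrev C3 := ℂ × ℂ × ℂ

/-- first coordinate -/
noncomputable def c1 : C3 →L[ℝ] ℂ := ContinuousLinearMap.fst ℝ ℂ (ℂ × ℂ)

/-- second coordinate -/
noncomputable def c2 : C3 →L[ℝ] ℂ :=
  (ContinuousLinearMap.fst ℝ ℂ ℂ).comp (ContinuousLinearMap.snd ℝ ℂ (ℂ × ℂ))

/-- third coordinate -/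
noncomputable def c3 : C3 →L[ℝ] ℂ :=
  (ContinuousLinearMap.snd ℝ ℂ ℂ).comp (ContinuousLinearMap.snd ℝ ℂ (ℂ × ℂ))

@[simp] theorem c1_apply (v : C3) : c1 v = v.1 := rfl
@[simp] theorem c2_apply (v : C3) : c2 v = v.2.1 := rfl
@[simp] theorem c3_apply (v : C3) : c3 v = v.2.2 := rfl

section

variable {E : Type} [NormedAddCommGroup E] [NormedSpace ℝ E]

theorem conj_hasFDerivAt {g : E → ℂ} {g' : E →L[ℝ] ℂ} {p : E} (h : HasFDerivAt g g' p) :
    HasFDerivAt (fun q => conj (g q)) (conjCLE.toContinuousLinearMap.comp g') p :=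
  conjCLE.toContinuousLinearMap.hasFDerivAt.comp p h

theorem normSq_hasFDerivAt {g : E → ℂ} {g' : E →L[ℝ] ℂ} {p : E} (h : HasFDerivAt g g' p) :
    HasFDerivAt (fun q => normSq (g q)) ((2 : ℝ) • reCLM.comp ((conj (g p)) • g')) p := by
  have h1 := (conj_hasFDerivAt h).mul h
  have h2 := reCLM.hasFDerivAt.comp p h1
  have h4 : (fun q => normSq (g q)) = reCLM ∘ (fun q => conj (g q) * g q) := by
    funext q
    simp only [Function.comp_apply, reCLM_apply, normSq_apply, mul_re, conj_re, conj_im]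
    ring
  rw [h4]
  refine h2.congr_fderiv ?_
  ext v
  simp
  ring

theorem normSq_contDiff {g : E → ℂ} (h : ContDiff ℝ ∞ g) :
    ContDiff ℝ ∞ (fun q => normSq (g q)) := by
  have h1 : ContDiff ℝ ∞ (fun q => reCLM (conj (g q) * g q)) :=
    reCLM.contDiff.comp ((conjCLE.contDiff.comp h).mul h)
  have h4 : (fun q => normSq (g q)) = (fun q => reCLM (conj (g q) * g q)) := by
    funext q
    simp only [reCLM_apply, normSq_apply, mul_re, conj_re, conj_im]
    ring
  rw [h4]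
  exact h1

theorem dOne_add (α β : E → E →L[ℝ] ℝ) (hα : ContDiff ℝ ∞ α) (hβ : ContDiff ℝ ∞ β) (p u v : E) :
    dOne (fun q => α q + β q) p u v = dOne α p u v + dOne β p u v := by
  have h : fderiv ℝ (fun q => α q + β q) p = fderiv ℝ α p + fderiv ℝ β p :=
    fderiv_fun_add (hα.differentiable (by simp) p) (hβ.differentiable (by simp) p)
  simp only [dOne, h, _root_.add_apply]
  ring

theorem dOne_smul (c : ℝ) (α : E → E →L[ℝ] ℝ) (hα : ContDiff ℝ ∞ α) (p u v : E) :
    dOne (fun q => c • α q) p u v = c * dOne α p u v := by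
  have h : fderiv ℝ (fun q => c • α q) p = c • fderiv ℝ α p :=
    fderiv_fun_const_smul (hα.differentiable (by simp) p) c
  simp only [dOne, h, _root_.smul_apply, smul_eq_mul]
  ring

end

theorem c_fderiv (c : C3 →L[ℝ] ℂ) (p : C3) : fderiv ℝ (fun q => c q) p = c :=
  c.fderiv

/-! ### the level set -/

/-- the equations of the cover -/
noncomputable def covEqn (m : ℕ) (q : C3) : ℂ × ℝ :=
  (q.1 * q.2.1 - conj q.2.2 ^ (2 * m), normSq q.1 + normSq q.2.1 - 1)

theorem covEqn_smooth (m : ℕ) : ContDiff ℝ ∞ (covEqn m) := by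
  have h1 : ContDiff ℝ ∞ (fun q : C3 => q.1) := c1.contDiff
  have h2 : ContDiff ℝ ∞ (fun q : C3 => q.2.1) := c2.contDiff
  have h3 : ContDiff ℝ ∞ (fun q : C3 => q.2.2) := c3.contDiff
  have h4 : ContDiff ℝ ∞ (fun q : C3 => conj q.2.2) := conjCLE.contDiff.comp h3
  exact ((h1.mul h2).sub (h4.pow _)).prodMk
    (((normSq_contDiff h1).add (normSq_contDiff h2)).sub contDiff_const)

theorem covEqn_fderiv (m : ℕ) (q v : C3) :
    fderiv ℝ (covEqn m) q v
      = (q.1 * v.2.1 + q.2.1 * v.1 - (2 * m : ℕ) * conj q.2.2 ^ (2 * m - 1) * conj v.2.2,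
        2 * (conj q.1 * v.1).re + 2 * (conj q.2.1 * v.2.1).re) := by
  have h1 : HasFDerivAt (fun q : C3 => q.1) c1 q := c1.hasFDerivAt
  have h2 : HasFDerivAt (fun q : C3 => q.2.1) c2 q := c2.hasFDerivAt
  have h3 : HasFDerivAt (fun q : C3 => q.2.2) c3 q := c3.hasFDerivAt
  have h4 := (((h1.mul h2).sub ((conj_hasFDerivAt h3).pow (2 * m))).prodMk
    (((normSq_hasFDerivAt h1).add (normSq_hasFDerivAt h2)).sub_const 1))
  have h5 : fderiv ℝ (covEqn m) q = _ := h4.fderiv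
  rw [h5]
  simp only [ContinuousLinearMap.prod_apply]
  apply Prod.ext
  · simp
  · simp

theorem cov_ab {m : ℕ} {q : C3} (h : covEqn m q = 0) : q.1 * q.2.1 = conj q.2.2 ^ (2 * m) := by
  have := congrArg Prod.fst h
  exact sub_eq_zero.mp this

theorem cov_n {m : ℕ} {q : C3} (h : covEqn m q = 0) : normSq q.1 + normSq q.2.1 = 1 := by
  have := congrArg Prod.snd h
  exact sub_eq_zero.mp this

theorem finrank_C3 : Module.finrank ℝ C3 = 6 := by
  rw [Module.finrank_prod, Module.finrank_prod, Complex.finrank_real_complex]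

theorem finrank_CR : Module.finrank ℝ (ℂ × ℝ) = 3 := by
  rw [Module.finrank_prod, Complex.finrank_real_complex, Module.finrank_self]

/-- the cover as a level set -/
noncomputable def cov (m : ℕ) (hm : 1 ≤ m) : LevelSet C3 (ℂ × ℝ) 3 where
  eqn := covEqn m
  smooth := covEqn_smooth m
  regular := by
    intro q hq
    have hab := cov_ab hq
    have hn := cov_n hq
    rintro ⟨c, t⟩
    set s : ℝ := (t - 4 * (c * conj q.1 * conj q.2.1).re) / 2 with hs
    refine ⟨((c * conj q.2.1 + s * q.1, c * conj q.1 + s * q.2.1, (s / m : ℂ) * q.2.2)), ?_⟩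
    rw [covEqn_fderiv]
    have hm0 : (m : ℂ) ≠ 0 := by
      exact_mod_cast (by omega : m ≠ 0)
    have hn' : q.1 * conj q.1 + q.2.1 * conj q.2.1 = 1 := by
      rw [Complex.mul_conj, Complex.mul_conj]
      exact_mod_cast hn
    have hpow : conj q.2.2 ^ (2 * m) = conj q.2.2 ^ (2 * m - 1) * conj q.2.2 := by
      rw [← pow_succ]
      congr 1
      omega
    apply Prod.ext
    · simp only [map_mul, map_div₀, conj_ofReal, map_natCast, Nat.cast_mul, Nat.cast_ofNat]
      have e1 : (2 * (m : ℂ)) * conj q.2.2 ^ (2 * m - 1) * ((s : ℂ) / m * conj q.2.2)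
          = 2 * s * conj q.2.2 ^ (2 * m) := by
        rw [hpow]
        field_simp
      rw [e1, ← hab]
      linear_combination c * hn'
    · simp only
      have hre : ∀ z w : ℂ, (z * w).re = z.re * w.re - z.im * w.im := fun z w => mul_re z w
      simp only [normSq_apply] at hn
      simp only [mul_re, mul_im, add_re, add_im, conj_re, conj_im, ofReal_re, ofReal_im] at hs ⊢
      have : 2 * s = t - 4 * ((c.re * q.1.re - c.im * -q.1.im) * q.2.1.re
        - (c.re * -q.1.im + c.im * q.1.re) * -q.2.1.im) := by rw [hs]; ring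
      linear_combination 2 * s * hn + this
  dim := by
    rw [finrank_C3, finrank_CR]

theorem cov_mem {m : ℕ} {hm : 1 ≤ m} {q : C3} :
    q ∈ (cov m hm).carrier ↔ q.1 * q.2.1 = conj q.2.2 ^ (2 * m) ∧ normSq q.1 + normSq q.2.1 = 1 := by
  constructor
  · intro h
    exact ⟨cov_ab h, cov_n h⟩
  · rintro ⟨h1, h2⟩
    change covEqn m q = 0
    apply Prod.ext
    · exact sub_eq_zero.mpr h1
    · exact sub_eq_zero.mpr h2

theorem cov_tan {m : ℕ} {hm : 1 ≤ m} {q v : C3} :
    v ∈ (cov m hm).Tan q ↔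
      q.1 * v.2.1 + q.2.1 * v.1 = (2 * m : ℕ) * conj q.2.2 ^ (2 * m - 1) * conj v.2.2 ∧
      (conj q.1 * v.1).re + (conj q.2.1 * v.2.1).re = 0 := by
  change fderiv ℝ (covEqn m) q v = 0 ↔ _
  rw [covEqn_fderiv, Prod.ext_iff]
  simp only [Prod.fst_zero, Prod.snd_zero]
  constructor
  · rintro ⟨h1, h2⟩
    exact ⟨sub_eq_zero.mp h1, by linarith⟩
  · rintro ⟨h1, h2⟩
    exact ⟨sub_eq_zero.mpr h1, by linarith⟩

/-- with `r = |u|^2`: `|a|^2 |b|^2 = r^(2m) ≤ r ≤ 1` -/
theorem cov_bound {m : ℕ} (hm : 1 ≤ m) {q : C3} (h1 : q.1 * q.2.1 = conj q.2.2 ^ (2 * m))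
    (h2 : normSq q.1 + normSq q.2.1 = 1) :
    normSq q.1 * normSq q.2.1 = normSq q.2.2 ^ (2 * m) ∧ normSq q.2.2 ≤ 1 ∧
      normSq q.2.2 ^ (2 * m) ≤ normSq q.2.2 := by
  have k1 : normSq q.1 * normSq q.2.1 = normSq q.2.2 ^ (2 * m) := by
    rw [← normSq_mul, h1, map_pow, normSq_conj]
  have k2 : normSq q.2.2 ≤ 1 := by
    by_contra hcon
    push Not at hcon
    have h3 : 1 < normSq q.2.2 ^ (2 * m) := one_lt_pow₀ hcon (by omega)
    rw [← k1] at h3
    nlinarith [normSq_nonneg q.1, normSq_nonneg q.2.1, sq_nonneg (normSq q.1 - normSq q.2.1)]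
  refine ⟨k1, k2, ?_⟩
  calc normSq q.2.2 ^ (2 * m) ≤ normSq q.2.2 ^ 1 :=
        pow_le_pow_of_le_one (normSq_nonneg _) k2 (by omega)
    _ = normSq q.2.2 := pow_one _

end Pool.Agent.H92.BC
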