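import Pool.Agent.H92.BC.CovA

/-!
# The cyclic covers: the torus invariant contact form is supported
-/

namespace Pool.Agent.H92.BC

open Complex ComplexConjugate
open scoped ContDiff Topology

/-- the contact form `Im (conj a da) + Im (conj b db) + 8 m^2 Im (conj u du)` -/
noncomputable def covForm (m : ℕ) : C3 → C3 →L[ℝ] ℝ := fun q =>
  (imf c1 q + imf c2 q) + (8 * (m : ℝ) ^ 2) • imf c3 q

theorem covForm_smooth (m : ℕ) : ContDiff ℝ ∞ (covForm m) :=
  ((imf_smooth _ c1.contDiff).add (imf_smooth _ c2.contDiff)).add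
    ((imf_smooth _ c3.contDiff).const_smul (8 * (m : ℝ) ^ 2))

theorem covForm_apply (m : ℕ) (q v : C3) :
    covForm m q v = (conj q.1 * v.1).im + (conj q.2.1 * v.2.1).im
      + 8 * (m : ℝ) ^ 2 * (conj q.2.2 * v.2.2).im := by
  simp only [covForm, _root_.add_apply, _root_.smul_apply, smul_eq_mul, imf_apply,
    ContinuousLinearMap.fderiv, c1_apply, c2_apply, c3_apply]

theorem covForm_dOne (m : ℕ) (q u v : C3) :
    dOne (covForm m) q u v = 2 * ((conj u.1 * v.1).im + (conj u.2.1 * v.2.1).im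
      + 8 * (m : ℝ) ^ 2 * (conj u.2.2 * v.2.2).im) := by
  have h1 := imf_smooth _ c1.contDiff
  have h2 := imf_smooth _ c2.contDiff
  have h3 := imf_smooth _ c3.contDiff
  have h4 : ContDiff ℝ ∞ (fun q => imf c1 q + imf c2 q) := h1.add h2
  have h5 : ContDiff ℝ ∞ (fun q => (8 * (m : ℝ) ^ 2) • imf c3 q) :=
    h3.const_smul (8 * (m : ℝ) ^ 2)
  have e : covForm m = fun q => (imf c1 q + imf c2 q) + (8 * (m : ℝ) ^ 2) • imf c3 q := rfl
  rw [e, dOne_add _ _ h4 h5, dOne_add _ _ h1 h2, dOne_smul _ _ h3, imf_dOne _ c1.contDiff,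
    imf_dOne _ c2.contDiff, imf_dOne _ c3.contDiff]
  simp only [ContinuousLinearMap.fderiv, c1_apply, c2_apply, c3_apply]
  ring

theorem cov_compact (m : ℕ) (hm : 1 ≤ m) : IsCompact (cov m hm).carrier := by
  apply Metric.isCompact_of_isClosed_isBounded
  · exact isClosed_singleton.preimage (covEqn_smooth m).continuous
  · apply (Metric.isBounded_closedBall (x := (0 : C3)) (r := 1)).subset
    intro q hq
    obtain ⟨h1, h2⟩ := cov_mem.mp hq
    obtain ⟨_, h3, _⟩ := cov_bound hm h1 h2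
    rw [mem_closedBall_zero_iff, Prod.norm_def, Prod.norm_def]
    have k : ∀ z : ℂ, normSq z ≤ 1 → ‖z‖ ≤ 1 := by
      intro z hz
      rw [← Complex.sq_norm] at hz
      nlinarith [norm_nonneg z]
    refine max_le (k _ ?_) (max_le (k _ ?_) (k _ h3))
    · nlinarith [normSq_nonneg q.2.1]
    · nlinarith [normSq_nonneg q.1]

/-- the off-binding frame -/
theorem cov_frame (m : ℕ) (hm : 1 ≤ m) (q : C3) (hq : q ∈ (cov m hm).carrier)
    (hu : q.2.2 ≠ 0) :
    ∃ e1 ∈ (cov m hm).Tan q, ∃ e2 ∈ (cov m hm).Tan q, ∃ e3 ∈ (cov m hm).Tan q,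
      0 < vol (covForm m) q e1 e2 e3 ∧ 0 < w3 (nu c3 q) (covForm m) q e1 e2 e3 ∧
      e2 = (I * q.1, -(I * q.2.1), 0) ∧
      e3 = (-((normSq q.2.1 : ℝ) : ℂ) * q.1, ((normSq q.1 : ℝ) : ℂ) * q.2.1,
        ((1 / (2 * (m : ℝ)) * (normSq q.1 - normSq q.2.1) : ℝ) : ℂ) * q.2.2) ∧
      0 < (conj q.2.2 * e1.2.2).im := by
  obtain ⟨h1, h2⟩ := cov_mem.mp hq
  obtain ⟨k1, k2, k3⟩ := cov_bound hm h1 h2
  obtain ⟨a, b, u⟩ := q
  simp only at h1 h2 k1 k2 k3 hu ⊢
  have hm0 : (m : ℝ) ≠ 0 := by exact_mod_cast (by omega : m ≠ 0)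
  have hmpos : (1 : ℝ) ≤ m := by exact_mod_cast hm
  set c : ℝ := 1 / (2 * (m : ℝ)) with hc
  have hcm : (2 * (m : ℝ)) * c = 1 := by rw [hc]; field_simp
  have hcm' : (2 * (m : ℂ)) * (c : ℂ) = 1 := by exact_mod_cast hcm
  have hcpos : 0 < c := by rw [hc]; positivity
  have hr : 0 < normSq u := normSq_pos.mpr hu
  have hpow : conj u ^ (2 * m) = conj u ^ (2 * m - 1) * conj u := by
    rw [← pow_succ]
    congr 1
    omega
  set A := normSq a with hA
  set B := normSq b with hB
  set r := normSq u with hr'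
  have hAB : A * B ≤ r := by rw [k1]; exact k3
  have hApos : 0 ≤ A := normSq_nonneg _
  have hBpos : 0 ≤ B := normSq_nonneg _
  have hABpos : 0 < A * B := by rw [k1]; positivity
  have eA : a.re * a.re + a.im * a.im = A := (normSq_apply a).symm
  have eB : b.re * b.re + b.im * b.im = B := (normSq_apply b).symm
  have er : u.re * u.re + u.im * u.im = r := (normSq_apply u).symm
  have hα1 : covForm m (a, b, u) (-(I * a), 0, (c : ℂ) * I * u) = -A + 4 * m * r := by
    rw [covForm_apply]
    simp only [mul_re, mul_im, conj_re, conj_im, neg_re, neg_im, I_re, I_im, ofReal_re,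
      ofReal_im, zero_re, zero_im]
    linear_combination (-1 : ℝ) * eA + 8 * (m : ℝ) ^ 2 * c * er + 4 * m * r * hcm
  have hα2 : covForm m (a, b, u) (I * a, -(I * b), 0) = A - B := by
    rw [covForm_apply]
    simp only [mul_re, mul_im, conj_re, conj_im, neg_re, neg_im, I_re, I_im, ofReal_re,
      ofReal_im, zero_re, zero_im]
    linear_combination eA - eB
  have hα3 : covForm m (a, b, u) (-(B : ℂ) * a, (A : ℂ) * b, ((c * (A - B) : ℝ) : ℂ) * u) = 0 := by
    rw [covForm_apply]
    simp only [mul_re, mul_im, conj_re, conj_im, neg_re, neg_im, I_re, I_im, ofReal_re,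
      ofReal_im, zero_re, zero_im]
    ring
  have hd23 : dOne (covForm m) (a, b, u) (I * a, -(I * b), 0)
      (-(B : ℂ) * a, (A : ℂ) * b, ((c * (A - B) : ℝ) : ℂ) * u) = 4 * (A * B) := by
    rw [covForm_dOne]
    simp only [mul_re, mul_im, conj_re, conj_im, neg_re, neg_im, I_re, I_im, ofReal_re,
      ofReal_im, zero_re, zero_im]
    linear_combination 2 * B * eA + 2 * A * eB
  have hd31 : dOne (covForm m) (a, b, u)
      (-(B : ℂ) * a, (A : ℂ) * b, ((c * (A - B) : ℝ) : ℂ) * u) (-(I * a), 0, (c : ℂ) * I * u)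
      = 2 * (A * B) + 4 * r * (A - B) := by
    rw [covForm_dOne]
    simp only [mul_re, mul_im, conj_re, conj_im, neg_re, neg_im, I_re, I_im, ofReal_re,
      ofReal_im, zero_re, zero_im]
    linear_combination 2 * B * eA + 16 * (m : ℝ) ^ 2 * c ^ 2 * (A - B) * er
      + 4 * r * (A - B) * (2 * m * c + 1) * hcm
  have hd12 : dOne (covForm m) (a, b, u) (-(I * a), 0, (c : ℂ) * I * u)
      (I * a, -(I * b), 0) = 0 := by
    rw [covForm_dOne]
    simp only [mul_re, mul_im, conj_re, conj_im, neg_re, neg_im, I_re, I_im, ofReal_re,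
      ofReal_im, zero_re, zero_im]
    ring
  refine ⟨(-(I * a), 0, (c : ℂ) * I * u), ?_, (I * a, -(I * b), 0), ?_,
    (-(B : ℂ) * a, (A : ℂ) * b, ((c * (A - B) : ℝ) : ℂ) * u), ?_, ?_, ?_, rfl, rfl, ?_⟩
  · rw [cov_tan]
    constructor
    · simp only [map_mul, conj_ofReal, conj_I, Nat.cast_mul, Nat.cast_ofNat]
      rw [hpow] at h1
      linear_combination (-I) * h1 + I * conj u ^ (2 * m - 1) * conj u * hcm'
    · simp only [mul_re, mul_im, conj_re, conj_im, neg_re, neg_im, I_re, I_im, zero_re, zero_im]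
      ring
  · rw [cov_tan]
    constructor
    · simp only [map_zero, mul_zero]
      ring
    · simp only [mul_re, mul_im, conj_re, conj_im, neg_re, neg_im, I_re, I_im, zero_re, zero_im]
      ring
  · rw [cov_tan]
    constructor
    · simp only [map_mul, map_sub, conj_ofReal, Nat.cast_mul, Nat.cast_ofNat, ofReal_mul, ofReal_sub]
      rw [hpow] at h1
      linear_combination ((A : ℂ) - B) * h1
        - ((A : ℂ) - B) * conj u ^ (2 * m - 1) * conj u * hcm'
    · simp only [mul_re, mul_im, conj_re, conj_im, neg_re, neg_im, ofReal_re, ofReal_im]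
      linear_combination (-B) * eA + A * eB
  · rw [vol, hα1, hα2, hα3, hd23, hd31, hd12]
    have e : (-A + 4 * m * r) * (4 * (A * B)) + (A - B) * (2 * (A * B) + 4 * r * (A - B)) + 0 * 0
        = -2 * (A * B) * (A + B) + 16 * m * r * (A * B) + 4 * r * ((A + B) ^ 2 - 4 * (A * B)) := by
      ring
    rw [e, h2]
    have e2 : 0 ≤ 16 * ((m : ℝ) - 1) * r * (A * B) := by
      have : 0 ≤ (m : ℝ) - 1 := by linarith
      positivity
    nlinarith
  · rw [w3, nu_apply, nu_apply, nu_apply, hd23, hd31, hd12]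
    simp only [ContinuousLinearMap.fderiv, c3_apply, mul_re, mul_im, conj_re, conj_im,
      I_re, I_im, ofReal_re, ofReal_im, zero_re, zero_im]
    have e : (u.re * ((c * 0 - 0 * 1) * u.im + (c * 1 + 0 * 0) * u.re)
        + -u.im * ((c * 0 - 0 * 1) * u.re - (c * 1 + 0 * 0) * u.im)) = c * r := by
      rw [← er]; ring
    rw [e]
    have e2 : 0 < c * r * (4 * (A * B)) := by positivity
    nlinarith
  · simp only [mul_re, mul_im, conj_re, conj_im, I_re, I_im, ofReal_re, ofReal_im]
    have e : (u.re * ((c * 0 - 0 * 1) * u.im + (c * 1 + 0 * 0) * u.re)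
        + -u.im * ((c * 0 - 0 * 1) * u.re - (c * 1 + 0 * 0) * u.im)) = c * r := by
      rw [← er]; ring
    rw [e]
    positivity

/-- the chart at the binding -/
theorem cov_chart (m : ℕ) (hm : 1 ≤ m) (q : C3) (hq : q ∈ (cov m hm).carrier)
    (hu : q.2.2 = 0) : BindingChart (cov m hm) c3 q c3 (fun _ => 1) 1 := by
  refine ⟨le_refl _, c3.contDiff.contDiffAt, contDiffAt_const, hu, one_ne_zero, ?_, ?_⟩
  · intro c
    refine ⟨(0, 0, c), ?_, ?_⟩
    · rw [cov_tan]
      constructor
      · have : conj q.2.2 ^ (2 * m - 1) = 0 := by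
          rw [hu, map_zero, zero_pow (by omega)]
        rw [this]
        ring
      · simp
    · rw [ContinuousLinearMap.fderiv]
      rfl
  · filter_upwards with s _
    simp

theorem cov_supports (m : ℕ) (hm : 1 ≤ m) : Supports (cov m hm) c3 (covForm m) := by
  apply supports_of_frames _ _ _ c3.contDiff (covForm_smooth m)
  · intro q hq hu
    obtain ⟨e1, h1, e2, h2, e3, h3, hv, hw, _⟩ := cov_frame m hm q hq hu
    exact ⟨e1, h1, e2, h2, e3, h3, hv, hw⟩
  · intro q hq hu
    have hu' : q.2.2 = 0 := hu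
    refine ⟨c3, fun _ => 1, 1, cov_chart m hm q hq hu', ?_⟩
    obtain ⟨h1, h2⟩ := cov_mem.mp hq
    have h0 : conj q.2.2 ^ (2 * m - 1) = 0 := by
      rw [hu', map_zero, zero_pow (by omega)]
    have hab : q.1 * q.2.1 = 0 := by
      rw [h1, hu', map_zero, zero_pow (by omega)]
    have hmpos : (0 : ℝ) < m := by exact_mod_cast hm
    rw [normSq_apply, normSq_apply] at h2
    refine ⟨(I * q.1, I * q.2.1, 0), ?_, (0, 0, 1), ?_, (0, 0, I), ?_, ?_, ?_, ?_, ?_⟩
    · rw [cov_tan]
      constructor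
      · rw [h0]
        linear_combination 2 * I * hab
      · simp only [mul_re, mul_im, conj_re, conj_im, I_re, I_im]
        ring
    · rw [cov_tan]
      constructor
      · rw [h0]; ring
      · simp
    · rw [cov_tan]
      constructor
      · rw [h0]; ring
      · simp
    · rw [vol, covForm_apply, covForm_apply, covForm_apply, covForm_dOne, covForm_dOne,
        covForm_dOne]
      simp only [hu', map_zero, map_one, mul_re, mul_im, conj_re, conj_im, I_re, I_im,
        zero_re, zero_im, one_re, one_im]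
      have e : 0 < (m : ℝ) ^ 2 := by positivity
      nlinarith
    · rw [ContinuousLinearMap.fderiv]
      rfl
    · rw [ContinuousLinearMap.fderiv]
      simp
    · rw [covForm_apply]
      simp only [mul_re, mul_im, conj_re, conj_im, I_re, I_im, zero_re, zero_im]
      nlinarith

end Pool.Agent.H92.BC
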