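import Pool.Agent.H92.BC.CovB

/-!
# The cyclic covers: connectedness and the overtwisted disc
-/

namespace Pool.Agent.H92.BC

open Complex ComplexConjugate
open scoped ContDiff Topology

theorem rp1 {T : ℝ} (hT : 0 < T) : (T ^ (-(1 / 2) : ℝ)) ^ 2 = T⁻¹ := by
  rw [← Real.rpow_natCast, ← Real.rpow_mul hT.le, ← Real.rpow_neg_one]
  norm_num

theorem rp2 {T : ℝ} (hT : 0 < T) (m : ℕ) (hm : 1 ≤ m) :
    (T ^ (-(1 / (2 * (m : ℝ)))) : ℝ) ^ (2 * m) = T⁻¹ := by
  rw [← Real.rpow_natCast, ← Real.rpow_mul hT.le, ← Real.rpow_neg_one]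
  congr 1
  have : (m : ℝ) ≠ 0 := by exact_mod_cast (by omega : m ≠ 0)
  push_cast
  field_simp

theorem cov_point (m : ℕ) (hm : 1 ≤ m) (s t : ℂ) (T : ℝ)
    (hT : T = normSq s ^ (2 * m) + normSq t ^ (2 * m)) (h0 : 0 < T) :
    (((T ^ (-(1 / 2) : ℝ) : ℝ) : ℂ) * s ^ (2 * m), ((T ^ (-(1 / 2) : ℝ) : ℝ) : ℂ) * t ^ (2 * m),
      ((T ^ (-(1 / (2 * (m : ℝ)))) : ℝ) : ℂ) * conj (s * t)) ∈ (cov m hm).carrier := by
  rw [cov_mem]
  have e1 : (((T ^ (-(1 / 2) : ℝ) : ℝ) : ℂ)) ^ 2 = ((T⁻¹ : ℝ) : ℂ) := by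
    rw [← ofReal_pow, rp1 h0]
  have e2 : ((T ^ (-(1 / (2 * (m : ℝ)))) : ℝ) : ℂ) ^ (2 * m) = ((T⁻¹ : ℝ) : ℂ) := by
    rw [← ofReal_pow, rp2 h0 m hm]
  constructor
  · simp only [map_mul, conj_ofReal, conj_conj, mul_pow, e2]
    linear_combination s ^ (2 * m) * t ^ (2 * m) * e1
  · simp only [normSq_mul, normSq_ofReal, map_pow]
    have e3 : (T ^ (-(1 / 2) : ℝ)) * (T ^ (-(1 / 2) : ℝ)) = T⁻¹ := by
      rw [← pow_two]; exact rp1 h0
    rw [e3, ← mul_add, ← hT]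
    exact inv_mul_cancel₀ h0.ne'

theorem cov_connected (m : ℕ) (hm : 1 ≤ m) : IsConnected (cov m hm).carrier := by
  have hrank : 1 < Module.rank ℝ (ℂ × ℂ) := by
    rw [← Module.finrank_eq_rank, Module.finrank_prod, Complex.finrank_real_complex]
    norm_num
  have hc : IsConnected ({(0 : ℂ × ℂ)}ᶜ) := isConnected_compl_singleton_of_one_lt_rank hrank 0
  set N : ℂ × ℂ → ℝ := fun p => normSq p.1 ^ (2 * m) + normSq p.2 ^ (2 * m) with hN
  have hNpos : ∀ p, p ≠ 0 → 0 < N p := by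
    rintro ⟨s, t⟩ hp
    simp only [hN]
    by_cases hs : s = 0
    · have ht : t ≠ 0 := by
        rintro rfl
        exact hp (by rw [hs]; rfl)
      have := normSq_pos.mpr ht
      have h2 := normSq_nonneg s
      positivity
    · have := normSq_pos.mpr hs
      have h2 := normSq_nonneg t
      positivity
  set Θ : ℂ × ℂ → C3 := fun p =>
    (((N p ^ (-(1 / 2) : ℝ) : ℝ) : ℂ) * p.1 ^ (2 * m),
      ((N p ^ (-(1 / 2) : ℝ) : ℝ) : ℂ) * p.2 ^ (2 * m),
      ((N p ^ (-(1 / (2 * (m : ℝ)))) : ℝ) : ℂ) * conj (p.1 * p.2)) with hΘ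
  have himg : Θ '' {(0 : ℂ × ℂ)}ᶜ = (cov m hm).carrier := by
    apply Set.Subset.antisymm
    · rintro _ ⟨p, hp, rfl⟩
      exact cov_point m hm p.1 p.2 (N p) rfl (hNpos p hp)
    · intro q hq
      obtain ⟨h1, h2⟩ := cov_mem.mp hq
      have key : ∀ s t : ℂ, s ^ (2 * m) = q.1 → t ^ (2 * m) = q.2.1 → conj (s * t) = q.2.2 →
          q ∈ Θ '' {(0 : ℂ × ℂ)}ᶜ := by
        intro s t hs ht hst
        have hN1 : N (s, t) = 1 := by
          simp only [hN]
          rw [← map_pow, ← map_pow, hs, ht, h2]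
        refine ⟨(s, t), ?_, ?_⟩
        · intro h0
          have h0' : (s, t) = (0 : ℂ × ℂ) := h0
          rw [h0'] at hN1
          simp only [hN, Prod.fst_zero, Prod.snd_zero, map_zero] at hN1
          rw [zero_pow (by omega)] at hN1
          norm_num at hN1
        · simp only [hΘ, hN1, Real.one_rpow, ofReal_one, one_mul, hs, ht, hst]
      by_cases ha : q.1 = 0
      · obtain ⟨t, ht⟩ := IsAlgClosed.exists_pow_nat_eq q.2.1 (n := 2 * m) (by omega)
        have hu : q.2.2 = 0 := by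
          have : conj q.2.2 ^ (2 * m) = 0 := by rw [← h1, ha, zero_mul]
          have := pow_eq_zero_iff (by omega : 2 * m ≠ 0) |>.mp this
          simpa using this
        apply key 0 t _ ht
        · rw [zero_mul, map_zero, hu]
        · rw [ha, zero_pow (by omega)]
      · obtain ⟨s, hs⟩ := IsAlgClosed.exists_pow_nat_eq q.1 (n := 2 * m) (by omega)
        have hs0 : s ≠ 0 := by
          rintro rfl
          rw [zero_pow (by omega)] at hs
          exact ha hs.symm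
        apply key s (conj q.2.2 / s) hs
        · rw [div_pow, ← h1, hs]
          field_simp
        · rw [mul_div_cancel₀ _ hs0, conj_conj]
  rw [← himg]
  apply hc.image
  have hNc : Continuous N := by
    have k1 : Continuous (fun p : ℂ × ℂ => normSq p.1) := continuous_normSq.comp continuous_fst
    have k2 : Continuous (fun p : ℂ × ℂ => normSq p.2) := continuous_normSq.comp continuous_snd
    exact (k1.pow _).add (k2.pow _)
  have hr : ∀ e : ℝ, ContinuousOn (fun p => ((N p ^ e : ℝ) : ℂ)) {(0 : ℂ × ℂ)}ᶜ := by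
    intro e
    apply continuous_ofReal.comp_continuousOn
    intro p hp
    exact (hNc.continuousAt.rpow_const (Or.inl (hNpos p hp).ne')).continuousWithinAt
  refine ContinuousOn.prodMk ((hr _).mul (by fun_prop)) (ContinuousOn.prodMk
    ((hr _).mul (by fun_prop)) ((hr _).mul ?_))
  exact (continuous_conj.comp (continuous_fst.mul continuous_snd)).continuousOn

/-! ### the disc -/

/-- `1 + |v|^(4m)` -/
noncomputable def tt (m : ℕ) (v : ℂ) : ℝ := 1 + normSq v ^ (2 * m)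

theorem tt_pos (m : ℕ) (v : ℂ) : 0 < tt m v := by
  have := normSq_nonneg v
  unfold tt
  positivity

/-- the half of the link with `a > 0`, parametrised by `ℂ` -/
noncomputable def dsk (m : ℕ) (v : ℂ) : C3 :=
  (((tt m v ^ (-(1 / 2) : ℝ) : ℝ) : ℂ), ((tt m v ^ (-(1 / 2) : ℝ) : ℝ) : ℂ) * conj v ^ (2 * m),
    ((tt m v ^ (-(1 / (2 * (m : ℝ)))) : ℝ) : ℂ) * v)

theorem dsk_mem (m : ℕ) (hm : 1 ≤ m) (v : ℂ) : dsk m v ∈ (cov m hm).carrier := by
  have h := cov_point m hm 1 (conj v) (tt m v) (by simp [tt, normSq_conj]) (tt_pos m v)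
  simpa [dsk] using h

theorem tt_contDiff (m : ℕ) : ContDiff ℝ ∞ (tt m) :=
  contDiff_const.add ((normSq_contDiff contDiff_id).pow _)

theorem rpow_contDiff (m : ℕ) (e : ℝ) : ContDiff ℝ ∞ (fun v => tt m v ^ e) :=
  (tt_contDiff m).rpow_const_of_ne (fun v => (tt_pos m v).ne')

theorem dsk_contDiff (m : ℕ) : ContDiff ℝ ∞ (dsk m) := by
  have h1 : ∀ e : ℝ, ContDiff ℝ ∞ (fun v => ((tt m v ^ e : ℝ) : ℂ)) := fun e =>
    ofRealCLM.contDiff.comp (rpow_contDiff m e)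
  exact (h1 _).prodMk (((h1 _).mul (conjCLE.contDiff.pow _)).prodMk ((h1 _).mul contDiff_id))

theorem dsk_fderiv (m : ℕ) (v s : ℂ) :
    ∃ t : ℝ, fderiv ℝ (dsk m) v s =
      (((-(1 / 2) * tt m v ^ (-(1 / 2) - 1 : ℝ) * t : ℝ) : ℂ),
        ((-(1 / 2) * tt m v ^ (-(1 / 2) - 1 : ℝ) * t : ℝ) : ℂ) * conj v ^ (2 * m)
          + ((tt m v ^ (-(1 / 2) : ℝ) : ℝ) : ℂ) * ((2 * m : ℕ) * conj v ^ (2 * m - 1) * conj s),
        ((-(1 / (2 * (m : ℝ))) * tt m v ^ (-(1 / (2 * (m : ℝ))) - 1 : ℝ) * t : ℝ) : ℂ) * v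
          + ((tt m v ^ (-(1 / (2 * (m : ℝ)))) : ℝ) : ℂ) * s) := by
  have ht : HasFDerivAt (tt m) (fderiv ℝ (tt m) v) v :=
    ((tt_contDiff m).differentiable (by simp) v).hasFDerivAt
  have h1 : ∀ e : ℝ, HasFDerivAt (fun v => ((tt m v ^ e : ℝ) : ℂ))
      (ofRealCLM.comp ((e * tt m v ^ (e - 1)) • fderiv ℝ (tt m) v)) v := by
    intro e
    exact ofRealCLM.hasFDerivAt.comp v (ht.rpow_const (Or.inl (tt_pos m v).ne'))
  have h2 : HasFDerivAt (fun v : ℂ => v) (ContinuousLinearMap.id ℝ ℂ) v := hasFDerivAt_id v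
  have h3 := (conj_hasFDerivAt h2).pow (2 * m)
  have h4 := (h1 (-(1 / 2))).prodMk (((h1 (-(1 / 2))).mul h3).prodMk
    ((h1 (-(1 / (2 * (m : ℝ))))).mul h2))
  have h5 : fderiv ℝ (dsk m) v = _ := h4.fderiv
  refine ⟨fderiv ℝ (tt m) v s, ?_⟩
  rw [h5]
  simp only [ContinuousLinearMap.prod_apply]
  refine Prod.ext ?_ (Prod.ext ?_ ?_)
  · simp
  · simp
    ring
  · simp
    ring

end Pool.Agent.H92.BC
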