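import Pool.Agent.H92.BC.CovC

/-!
# The cyclic covers are overtwisted
-/

namespace Pool.Agent.H92.BC

open Complex ComplexConjugate
open scoped ContDiff Topology

theorem dsk_inj (m : ℕ) {v w : ℂ} (h : dsk m v = dsk m w) : v = w := by
  have h1 := congrArg (fun q : C3 => q.1) h
  have h2 := congrArg (fun q : C3 => q.2.2) h
  simp only [dsk, ofReal_inj] at h1 h2
  have h3 : tt m v = tt m w := by
    have := congrArg (fun x : ℝ => x ^ 2) h1
    simp only [rp1 (tt_pos m v), rp1 (tt_pos m w)] at this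
    exact inv_inj.mp this
  rw [h3] at h2
  have h4 : ((tt m w ^ (-(1 / (2 * (m : ℝ)))) : ℝ) : ℂ) ≠ 0 := by
    rw [Ne, ofReal_eq_zero]
    exact (Real.rpow_pos_of_pos (tt_pos m w) _).ne'
  exact mul_left_cancel₀ h4 h2

theorem dsk_imm (m : ℕ) (v s : ℂ) (h : fderiv ℝ (dsk m) v s = 0) : s = 0 := by
  obtain ⟨t, ht⟩ := dsk_fderiv m v s
  rw [ht] at h
  have h1 := congrArg (fun q : C3 => q.1) h
  have h2 := congrArg (fun q : C3 => q.2.2) h
  simp only [Prod.fst_zero, Prod.snd_zero] at h1 h2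
  have hpos := Real.rpow_pos_of_pos (tt_pos m v) (-(1 / 2) - 1 : ℝ)
  have ht0 : t = 0 := by
    have h3 : -(1 / 2) * tt m v ^ (-(1 / 2) - 1 : ℝ) * t = 0 := by exact_mod_cast h1
    rcases mul_eq_zero.mp h3 with h4 | h4
    · nlinarith
    · exact h4
  rw [ht0] at h2
  simp only [mul_zero, ofReal_zero, zero_mul, zero_add] at h2
  rcases mul_eq_zero.mp h2 with h4 | h4
  · rw [ofReal_eq_zero] at h4
    exact absurd h4 (Real.rpow_pos_of_pos (tt_pos m v) _).ne'
  · exact h4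

theorem dsk_form (m : ℕ) (hm : 1 ≤ m) (v s : ℂ) :
    covForm m (dsk m v) (fderiv ℝ (dsk m) v s)
      = (conj v * s).im * (8 * (m : ℝ) ^ 2 * (tt m v ^ (-(1 / (2 * (m : ℝ)))) : ℝ) ^ 2
        - 2 * m * (tt m v)⁻¹ * normSq v ^ (2 * m - 1)) := by
  obtain ⟨t, ht⟩ := dsk_fderiv m v s
  rw [ht, covForm_apply]
  simp only [dsk]
  set σ : ℝ := tt m v ^ (-(1 / 2) : ℝ) with hσ
  set τ : ℝ := tt m v ^ (-(1 / (2 * (m : ℝ)))) with hτ
  set κ : ℝ := -(1 / 2) * tt m v ^ (-(1 / 2) - 1 : ℝ) * t with hκ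
  set κ' : ℝ := -(1 / (2 * (m : ℝ))) * tt m v ^ (-(1 / (2 * (m : ℝ))) - 1 : ℝ) * t with hκ'
  have hσ2 : σ ^ 2 = (tt m v)⁻¹ := rp1 (tt_pos m v)
  have e1 : (conj (σ : ℂ) * (κ : ℂ)).im = 0 := by simp
  have e3 : (conj ((τ : ℂ) * v) * ((κ' : ℂ) * v + (τ : ℂ) * s)).im = τ ^ 2 * (conj v * s).im := by
    simp only [map_mul, conj_ofReal, mul_re, mul_im, add_re, add_im, ofReal_re, ofReal_im,
      conj_re, conj_im]
    ring
  have e2 : (conj ((σ : ℂ) * conj v ^ (2 * m)) * ((κ : ℂ) * conj v ^ (2 * m)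
      + (σ : ℂ) * ((2 * m : ℕ) * conj v ^ (2 * m - 1) * conj s))).im
      = -(2 * m * σ ^ 2 * normSq v ^ (2 * m - 1) * (conj v * s).im) := by
    have hp : v ^ (2 * m) = v ^ (2 * m - 1) * v := by
      rw [← pow_succ]; congr 1; omega
    have h1 : conj ((σ : ℂ) * conj v ^ (2 * m)) * ((κ : ℂ) * conj v ^ (2 * m)
      + (σ : ℂ) * ((2 * m : ℕ) * conj v ^ (2 * m - 1) * conj s))
      = ((σ * κ * normSq v ^ (2 * m) : ℝ) : ℂ)
        + ((2 * m * σ ^ 2 * normSq v ^ (2 * m - 1) : ℝ) : ℂ) * conj (conj v * s) := by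
      have n1 : ((normSq v : ℝ) : ℂ) = v * conj v := (mul_conj v).symm
      simp only [map_mul, conj_ofReal, map_pow, conj_conj, ofReal_mul, ofReal_pow, n1, mul_pow]
      push_cast
      rw [hp]
      ring
    rw [h1]
    simp only [add_im, mul_im, ofReal_re, ofReal_im, conj_im, zero_mul, add_zero, zero_add]
    ring
  rw [e1, e2, e3, hσ2]
  ring

/-- the radius of the overtwisted disc -/
theorem radius (m : ℕ) (hm : 1 ≤ m) : ∃ n : ℝ, 0 < n ∧ ∀ v : ℂ, normSq v = n →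
    8 * (m : ℝ) ^ 2 * (tt m v ^ (-(1 / (2 * (m : ℝ)))) : ℝ) ^ 2
        - 2 * m * (tt m v)⁻¹ * normSq v ^ (2 * m - 1) = 0 := by
  have hm0 : (1 : ℝ) ≤ m := by exact_mod_cast hm
  set T : ℝ → ℝ := fun n => 1 + n ^ (2 * m) with hT
  have hTpos : ∀ n, 0 < T n := by
    intro n
    simp only [hT]
    have : 0 ≤ n ^ (2 * m) := by
      rw [pow_mul]; positivity
    linarith
  set F : ℝ → ℝ := fun n => n ^ (2 * m - 1) - 4 * m * (T n * (T n ^ (-(1 / (2 * (m : ℝ)))) : ℝ) ^ 2)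
    with hF
  have hTc : Continuous T := by fun_prop
  have hFc : Continuous F := by
    have h1 : Continuous (fun n => (T n ^ (-(1 / (2 * (m : ℝ)))) : ℝ)) :=
      hTc.rpow_const (fun n => Or.inl (hTpos n).ne')
    exact (continuous_id.pow _).sub (continuous_const.mul (hTc.mul (h1.pow 2)))
  have hF0 : F 0 < 0 := by
    simp only [hF, hT]
    rw [zero_pow (by omega), zero_pow (by omega)]
    simp
    linarith
  have hF1' : ∀ n : ℝ, n = 8 * m → 0 ≤ F n := by
    intro n hn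
    have hn1 : 1 ≤ n := by linarith
    set X : ℝ := T n * (T n ^ (-(1 / (2 * (m : ℝ)))) : ℝ) ^ 2 with hX
    have hX0 : 0 ≤ X := by
      have := (hTpos n).le
      positivity
    have hXm : X ^ m = T n ^ (m - 1) := by
      rw [hX, mul_pow, ← pow_mul, rp2 (hTpos n) m hm]
      have : T n ^ m = T n ^ (m - 1) * T n := by
        rw [← pow_succ]; congr 1; omega
      rw [this, mul_assoc, mul_inv_cancel₀ (hTpos n).ne', mul_one]
    have hT2 : T n ≤ 2 * n ^ (2 * m) := by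
      have : 1 ≤ n ^ (2 * m) := one_le_pow₀ hn1
      simp only [hT]
      linarith
    have hX2 : X ≤ 2 * n ^ (2 * m - 2) := by
      have h1 : X ^ m ≤ (2 * n ^ (2 * m - 2)) ^ m := by
        rw [hXm]
        calc T n ^ (m - 1) ≤ (2 * n ^ (2 * m)) ^ (m - 1) :=
              pow_le_pow_left₀ (hTpos n).le hT2 _
          _ = 2 ^ (m - 1) * n ^ (2 * m * (m - 1)) := by rw [mul_pow, ← pow_mul]
          _ ≤ 2 ^ m * n ^ (2 * m * (m - 1)) := by
              apply mul_le_mul_of_nonneg_right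
              · exact pow_le_pow_right₀ (by norm_num) (by omega)
              · positivity
          _ = (2 * n ^ (2 * m - 2)) ^ m := by
              rw [mul_pow, ← pow_mul]
              congr 2
              obtain ⟨k, rfl⟩ : ∃ k, m = k + 1 := ⟨m - 1, by omega⟩
              simp only [Nat.add_sub_cancel]
              rw [show 2 * (k + 1) - 2 = 2 * k by omega]
              ring
      have h2 : (0 : ℝ) ≤ 2 * n ^ (2 * m - 2) := by positivity
      exact (pow_le_pow_iff_left₀ hX0 h2 (by omega)).mp h1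
    have h3 : n ^ (2 * m - 1) = n ^ (2 * m - 2) * n := by
      rw [← pow_succ]; congr 1; omega
    simp only [hF]
    rw [← hX, h3]
    have h4 : 4 * (m : ℝ) * X ≤ 4 * m * (2 * n ^ (2 * m - 2)) :=
      mul_le_mul_of_nonneg_left hX2 (by positivity)
    have h5 : 4 * (m : ℝ) * (2 * n ^ (2 * m - 2)) = n ^ (2 * m - 2) * n := by
      rw [hn]; ring
    linarith
  have hF1 : 0 ≤ F (8 * m) := hF1' _ rfl
  have hiv := intermediate_value_Icc (by positivity : (0 : ℝ) ≤ 8 * m) hFc.continuousOn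
  obtain ⟨n, hn, hFn⟩ := hiv ⟨hF0.le, hF1⟩
  have hn0 : 0 < n := by
    rcases eq_or_lt_of_le hn.1 with h | h
    · rw [← h] at hFn
      linarith
    · exact h
  refine ⟨n, hn0, ?_⟩
  intro v hv
  have hTv : tt m v = T n := by simp only [tt, hT, hv]
  rw [hTv, hv]
  simp only [hF] at hFn
  have hTn := (hTpos n).ne'
  generalize (T n ^ (-(1 / (2 * (m : ℝ)))) : ℝ) = τ at hFn ⊢
  have h6 : n ^ (2 * m - 1) = 4 * m * (T n * τ ^ 2) := by linarith
  rw [h6]
  generalize T n = t at hTn ⊢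
  field_simp
  ring

theorem cov_overtwisted (m : ℕ) (hm : 1 ≤ m) : Overtwisted (cov m hm) (covForm m) := by
  obtain ⟨n, hn, hrad⟩ := radius m hm
  set v0 : ℝ := Real.sqrt n with hv0
  have hv0pos : 0 < v0 := Real.sqrt_pos.mpr hn
  have hv0sq : v0 * v0 = n := Real.mul_self_sqrt hn.le
  have hv0c : (v0 : ℂ) ≠ 0 := by exact_mod_cast hv0pos.ne'
  have hL : ∀ v, HasFDerivAt (fun v : ℂ => (v0 : ℂ) * v)
      ((v0 : ℂ) • ContinuousLinearMap.id ℝ ℂ) v := fun v =>
    (hasFDerivAt_id v).const_mul (v0 : ℂ)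
  have hD : ∀ v s, fderiv ℝ (fun v => dsk m ((v0 : ℂ) * v)) v s
      = fderiv ℝ (dsk m) ((v0 : ℂ) * v) ((v0 : ℂ) * s) := by
    intro v s
    have h1 : HasFDerivAt (dsk m) (fderiv ℝ (dsk m) ((v0 : ℂ) * v)) ((v0 : ℂ) * v) :=
      ((dsk_contDiff m).differentiable (by simp) _).hasFDerivAt
    have h2 := h1.comp v (hL v)
    have h3 : fderiv ℝ (fun v => dsk m ((v0 : ℂ) * v)) v = _ := h2.fderiv
    rw [h3]
    simp
  refine ⟨fun v => dsk m ((v0 : ℂ) * v), ?_, ?_, ?_, ?_, ?_⟩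
  · exact (dsk_contDiff m).comp (contDiff_const.mul contDiff_id)
  · intro v _
    exact dsk_mem m hm _
  · intro v _ w _ h
    exact mul_left_cancel₀ hv0c (dsk_inj m h)
  · intro v _ s hs
    rw [hD] at hs
    have := dsk_imm m _ _ hs
    rcases mul_eq_zero.mp this with h | h
    · exact absurd h hv0c
    · exact h
  · intro v hv s
    rw [hD, dsk_form m hm, hrad, mul_zero]
    rw [normSq_mul, normSq_ofReal, hv0sq, ← Complex.sq_norm, hv]
    norm_num

end Pool.Agent.H92.BC
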