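import Mathlib

/-!
# Rational open books, contact forms, Stein fillings and cyclic branched covers in dimension three

Manifolds are regular zero sets `{p | eqn p = 0}` in finite-dimensional real vector spaces
(closed oriented 3-manifolds are parallelizable, so all of them arise in this way), with the
tangent space `ker (d eqn)` at `p`. Forms, functions and maps are given on the ambient spaces.
-/

namespace Pool.Agent.H92.BC

open Complex ComplexConjugate
open scoped ContDiff Topology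

/-- A smooth submanifold of dimension `d` of `E`, given as the zero set of a smooth map `eqn`
to `F` whose derivative is surjective at every zero. -/
structure LevelSet (E F : Type) [NormedAddCommGroup E] [NormedSpace ℝ E]
    [NormedAddCommGroup F] [NormedSpace ℝ F] (d : ℕ) where
  eqn : E → F
  smooth : ContDiff ℝ ∞ eqn
  regular : ∀ p, eqn p = 0 → Function.Surjective (fderiv ℝ eqn p)
  dim : Module.finrank ℝ E = Module.finrank ℝ F + d

section

variable {E F : Type} [NormedAddCommGroup E] [NormedSpace ℝ E]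
  [NormedAddCommGroup F] [NormedSpace ℝ F] {d : ℕ}

/-- the points of the manifold -/
def LevelSet.carrier (M : LevelSet E F d) : Set E := {p | M.eqn p = 0}

/-- the tangent space at `p` -/
def LevelSet.Tan (M : LevelSet E F d) (p : E) : Set E := {v | fderiv ℝ M.eqn p v = 0}

/-- The exterior derivative `dα` of a one-form `α` on `E`. -/
noncomputable def dOne (α : E → E →L[ℝ] ℝ) (p u v : E) : ℝ :=
  fderiv ℝ α p u v - fderiv ℝ α p v u

/-- The three-form `α ∧ dα`. A contact manifold `(M, α)` is oriented by it. -/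
noncomputable def vol (α : E → E →L[ℝ] ℝ) (p u v w : E) : ℝ :=
  α p u * dOne α p v w + α p v * dOne α p w u + α p w * dOne α p u v

/-- Local form of `f` at a point `p` of the binding: `f = ζ ^ d * h` on `M` near `p`, where `h`
does not vanish and `ζ` restricts to a complex coordinate transverse to the binding `{ζ = 0}`. -/
structure BindingChart (M : LevelSet E F 3) (f : E → ℂ) (p : E) (ζ h : E → ℂ) (d : ℕ) :
    Prop where
  pos : 1 ≤ d
  smooth : ContDiffAt ℝ ∞ ζ p
  smooth' : ContDiffAt ℝ ∞ h p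
  zero : ζ p = 0
  ne_zero : h p ≠ 0
  coordinate : ∀ c : ℂ, ∃ v ∈ M.Tan p, fderiv ℝ ζ p v = c
  eq : ∀ᶠ q in 𝓝 p, q ∈ M.carrier → f q = ζ q ^ d * h q

/-- `f / |f|` is a rational open book on `M` with binding `{f = 0}`: off the binding the argument
of `f` has no critical point, and at the binding `f` has the local form of `BindingChart`. -/
structure RationalOpenBook (M : LevelSet E F 3) (f : E → ℂ) : Prop where
  smooth : ContDiff ℝ ∞ f
  fibration : ∀ p ∈ M.carrier, f p ≠ 0 →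
    ∃ v ∈ M.Tan p, (conj (f p) * fderiv ℝ f p v).im ≠ 0
  binding : ∀ p ∈ M.carrier, f p = 0 → ∃ ζ h d, BindingChart M f p ζ h d

/-- The rational open book `f / |f|` on `M` supports `α`: `α` restricts to a contact form on `M`
(which orients `M` by `α ∧ dα`), `dα > 0` on the pages (cooriented by the argument of `f`), and
`α > 0` on the binding, oriented as the boundary of the pages. -/
structure Supports (M : LevelSet E F 3) (f : E → ℂ) (α : E → E →L[ℝ] ℝ) : Prop where
  openBook : RationalOpenBook M f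
  smooth : ContDiff ℝ ∞ α
  contact : ∀ p ∈ M.carrier, ∃ u ∈ M.Tan p, ∃ v ∈ M.Tan p, ∃ w ∈ M.Tan p, vol α p u v w ≠ 0
  page : ∀ p ∈ M.carrier, f p ≠ 0 → ∀ n ∈ M.Tan p, ∀ u ∈ M.Tan p, ∀ v ∈ M.Tan p,
    0 < (conj (f p) * fderiv ℝ f p n).im → (conj (f p) * fderiv ℝ f p u).im = 0 →
    (conj (f p) * fderiv ℝ f p v).im = 0 → 0 < vol α p n u v → 0 < dOne α p u v
  binding : ∀ p ∈ M.carrier, f p = 0 → ∃ ζ h d, BindingChart M f p ζ h d ∧
    ∀ k ∈ M.Tan p, ∀ u ∈ M.Tan p, ∀ v ∈ M.Tan p, fderiv ℝ ζ p k = 0 →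
      0 < (conj (fderiv ℝ ζ p u) * fderiv ℝ ζ p v).im → 0 < vol α p k u v → 0 < α p k

/-- `α` is overtwisted: there is an embedded closed disc in `M` which is tangent to the contact
planes along its boundary. -/
def Overtwisted (M : LevelSet E F 3) (α : E → E →L[ℝ] ℝ) : Prop :=
  ∃ D : ℂ → E, ContDiff ℝ ∞ D ∧ (∀ v, ‖v‖ ≤ 1 → D v ∈ M.carrier) ∧
    Set.InjOn D {v | ‖v‖ ≤ 1} ∧ (∀ v, ‖v‖ ≤ 1 → ∀ s, fderiv ℝ D v s = 0 → s = 0) ∧
    ∀ v, ‖v‖ = 1 → ∀ s, α (D v) (fderiv ℝ D v s) = 0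

/-- A Stein filling of the contact manifold `(M, α)`, up to moving the boundary along the
Liouville field.  `V` is a complex submanifold of the complex vector space `(E, J)`, of complex
dimension two, `φ` is strictly plurisubharmonic on `V` and `α = -(dφ ∘ J) / 2`.
For `0 ≤ s ≤ 1` put `φ_s = (1 - s) ψ + s φ` and `W_s = {p ∈ V : φ_s p ≤ c}`.  Then `W_s` is
compact, the Liouville field `v` of `α` on `V` (`dα(v, t) = α(t)` for `t ∈ TV`) points outwards
along `∂W_s = {φ_s = c}`, and `M = ∂W_0`.  So `(W_0, dα)` is an exact symplectic filling of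
`(M, α)` (hence a strong and a weak one), `W_1` is a Stein domain, and the flow of the Liouville
field identifies `(M, ker α)` with the contact boundary of `W_1`. -/
structure SteinFilling {G : Type} [NormedAddCommGroup G] [NormedSpace ℝ G]
    (M : LevelSet E F 3) (α : E → E →L[ℝ] ℝ) (V : LevelSet E G 4) (J : E →L[ℝ] E)
    (φ ψ : E → ℝ) (c : ℝ) : Prop where
  complex : (∀ v, J (J v) = -v) ∧ ∀ p ∈ V.carrier, ∀ v ∈ V.Tan p, J v ∈ V.Tan p
  smooth : ContDiff ℝ ∞ φ ∧ ContDiff ℝ ∞ ψ ∧ ContDiff ℝ ∞ α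
  form : ∀ p ∈ V.carrier, ∀ v ∈ V.Tan p, α p v = -(fderiv ℝ φ p (J v)) / 2
  psh : ∀ p ∈ V.carrier, ∀ v ∈ V.Tan p, v ≠ 0 → 0 < dOne α p v (J v)
  compact : ∀ s ∈ Set.Icc (0 : ℝ) 1, IsCompact {p ∈ V.carrier | (1 - s) * ψ p + s * φ p ≤ c}
  boundary : M.carrier = {p ∈ V.carrier | ψ p = c}
  outward : ∀ s ∈ Set.Icc (0 : ℝ) 1, ∀ p ∈ V.carrier, (1 - s) * ψ p + s * φ p = c →
    ∀ v ∈ V.Tan p, (∀ t ∈ V.Tan p, dOne α p v t = α p t) →
      0 < (1 - s) * fderiv ℝ ψ p v + s * fderiv ℝ φ p v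

/-- `g : M' → M` is the `n`-fold cyclic branched cover of `M` along the binding of `f / |f|`,
with the pulled back open book `f' / |f'|`: off the bindings `g` is a local diffeomorphism and
`(g, f' / |f'|)` is a bijection to `{(y, c) : f y / |f y| = c ^ n}`; at the binding `g` has the
form `ζ' ↦ ζ' ^ r` in transverse coordinates and is an immersion along `{f' = 0}`. -/
structure CyclicBranchedCover {E' F' : Type} [NormedAddCommGroup E'] [NormedSpace ℝ E']
    [NormedAddCommGroup F'] [NormedSpace ℝ F'] (n r : ℕ)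
    (M' : LevelSet E' F' 3) (f' : E' → ℂ) (M : LevelSet E F 3) (f : E → ℂ) (g : E' → E) :
    Prop where
  smooth : ∀ q ∈ M'.carrier, ContDiffAt ℝ ∞ g q
  image : g '' M'.carrier = M.carrier
  binding : ∀ q ∈ M'.carrier, (f (g q) = 0 ↔ f' q = 0)
  local_diffeo : ∀ q ∈ M'.carrier, f' q ≠ 0 → ∀ v ∈ M'.Tan q, fderiv ℝ g q v = 0 → v = 0
  cover : ∀ q ∈ M'.carrier, f' q ≠ 0 → f (g q) / ‖f (g q)‖ = (f' q / ‖f' q‖) ^ n
  fibre : ∀ y ∈ M.carrier, f y ≠ 0 → ∀ c : ℂ, f y / ‖f y‖ = c ^ n →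
    ∃! q, q ∈ M'.carrier ∧ f' q ≠ 0 ∧ g q = y ∧ f' q / ‖f' q‖ = c
  branch : ∀ q ∈ M'.carrier, f' q = 0 → ∃ ζ' h' d' ζ h d k,
    BindingChart M' f' q ζ' h' d' ∧ BindingChart M f (g q) ζ h d ∧
    ContDiffAt ℝ ∞ k q ∧ k q ≠ 0 ∧
    (∀ᶠ s in 𝓝 q, s ∈ M'.carrier → ζ (g s) = ζ' s ^ r * k s) ∧
    ∀ v ∈ M'.Tan q, fderiv ℝ ζ' q v = 0 → fderiv ℝ g q v = 0 → v = 0

/-- `g` preserves the orientations given by the contact forms, off the binding. -/
def OrientationPreserving {E' F' : Type} [NormedAddCommGroup E'] [NormedSpace ℝ E']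
    [NormedAddCommGroup F'] [NormedSpace ℝ F']
    (M' : LevelSet E' F' 3) (f' : E' → ℂ) (α' : E' → E' →L[ℝ] ℝ) (α : E → E →L[ℝ] ℝ)
    (g : E' → E) : Prop :=
  ∀ q ∈ M'.carrier, f' q ≠ 0 → ∀ u ∈ M'.Tan q, ∀ v ∈ M'.Tan q, ∀ w ∈ M'.Tan q,
    0 < vol α' q u v w →
    0 < vol α (g q) (fderiv ℝ g q u) (fderiv ℝ g q v) (fderiv ℝ g q w)

end

end Pool.Agent.H92.BC
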