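import Pool.Agent.H92.BC.BaseB

/-!
# The Stein filling
-/

namespace Pool.Agent.H92.BC

open Complex ComplexConjugate
open scoped ContDiff Topology

theorem im_to_eq (a b : ℂ) (h1 : a.im = b.im) (h2 : (I * a).im = (I * b).im) : a = b := by
  apply Complex.ext
  · simpa using h2
  · exact h1

theorem surf_J {p v : C3} (h : v ∈ surf.Tan p) : JJ v ∈ surf.Tan p := by
  rw [surf_tan] at *
  rw [JJ_apply]
  linear_combination I * h

theorem base_stein : SteinFilling base baseForm surf JJ phiF psiF 17 := by
  refine ⟨⟨?_, ?_⟩, ⟨phiF_contDiff, psiF_contDiff, baseForm_smooth⟩, ?_, ?_, compact_sub, ?_, ?_⟩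
  · intro v
    rw [JJ_apply, JJ_apply]
    refine Prod.ext ?_ (Prod.ext ?_ ?_)
    · simp only [Prod.fst_neg]
      linear_combination v.1 * I_mul_I
    · simp only [Prod.fst_neg, Prod.snd_neg]
      linear_combination v.2.1 * I_mul_I
    · simp only [Prod.snd_neg]
      linear_combination v.2.2 * I_mul_I
  · intro p _ v hv
    exact surf_J hv
  · intro p _ v _
    rw [phiF_fderiv, baseForm_apply, lz_J, JJ_apply]
    simp only [add_re, add_im, mul_re, mul_im, I_re, I_im, conj_re, conj_im]
    ring
  · intro p _ v _ hv
    rw [baseForm_dOne, hz_J, hz_self, JJ_apply]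
    have e : (I * ((4 * normSq p.1 * normSq v.1 + normSq v.2.1 + 2 * normSq v.2.2 : ℝ) : ℂ)
        + conj v.1 * (I * v.1)).im
        = 4 * normSq p.1 * normSq v.1 + normSq v.2.1 + 2 * normSq v.2.2 + normSq v.1 := by
      simp only [add_im, mul_im, mul_re, I_re, I_im, ofReal_re, ofReal_im, conj_re, conj_im,
        normSq_apply]
      ring
    rw [e]
    have a0 := normSq_nonneg p.1
    have a1 := normSq_nonneg v.1
    have a2 := normSq_nonneg v.2.1
    have a3 := normSq_nonneg v.2.2
    by_contra hcon
    push Not at hcon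
    have a4 : 0 ≤ 4 * normSq p.1 * normSq v.1 := by positivity
    have b1 : normSq v.1 = 0 := by linarith
    have b2 : normSq v.2.1 = 0 := by linarith
    have b3 : normSq v.2.2 = 0 := by linarith
    rw [normSq_eq_zero] at b1 b2 b3
    exact hv (Prod.ext b1 (Prod.ext b2 b3))
  · ext p
    rw [base_mem]
    exact Iff.rfl
  · intro s hs p hp hψ v hv hL
    have hg : gEqn p = 0 := hp
    have h1 : psiF p + s * normSq p.1 = 17 := by
      rw [← hψ, phiF]; ring
    have a0 := normSq_nonneg p.1
    have h2 : psiF p ≤ 17 := by nlinarith [hs.1]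
    have h3 : 12 ≤ psiF p := by
      have h4 := psiF_eq p
      have a2 := normSq_nonneg p.2.1
      have a3 := normSq_nonneg p.2.2
      have h5 : normSq p.1 ≤ 5 := by nlinarith
      nlinarith [hs.1, hs.2]
    have hL' : ∀ t ∈ surf.Tan p,
        2 * (hz p v t + conj v.1 * t.1) = lz p t + conj p.1 * t.1 := by
      intro t ht
      apply im_to_eq
      · have h4 := hL t ht
        rw [baseForm_dOne, baseForm_apply] at h4
        rw [← h4]
        simp only [mul_im, re_ofNat, im_ofNat]
        ring
      · have h4 := hL (JJ t) (surf_J ht)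
        rw [baseForm_dOne, baseForm_apply, hz_J, lz_J, JJ_apply] at h4
        have e1 : I * (2 * (hz p v t + conj v.1 * t.1))
            = 2 * (I * hz p v t + conj v.1 * (I * t.1)) := by ring
        have e2 : I * (lz p t + conj p.1 * t.1) = I * lz p t + conj p.1 * (I * t.1) := by ring
        rw [e1, e2, ← h4]
        simp only [mul_im, re_ofNat, im_ofNat]
        ring
    have h4 := outward_key p hg h3 h2 v hv hL'
    rw [psiF_fderiv, phiF_fderiv]
    have h5 := congrArg re (hL' v hv)
    rw [hz_self] at h5
    have h6 : 2 * (4 * normSq p.1 * normSq v.1 + normSq v.2.1 + 2 * normSq v.2.2 + normSq v.1)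
        = (lz p v + conj p.1 * v.1).re := by
      rw [mul_comm (conj v.1), mul_conj] at h5
      simp only [add_re, mul_re, ofReal_re, ofReal_im, re_ofNat, im_ofNat, add_im] at h5 ⊢
      linarith
    have a1 := normSq_nonneg v.1
    have a2 := normSq_nonneg v.2.1
    have a3 := normSq_nonneg v.2.2
    have a4 : 0 ≤ 4 * normSq p.1 * normSq v.1 := by positivity
    have h7 : 0 < (lz p v + conj p.1 * v.1).re := by
      rw [← h6]
      by_contra hcon
      push Not at hcon
      have b1 : normSq v.1 = 0 := by linarith
      have b2 : normSq v.2.1 = 0 := by linarith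
      have b3 : normSq v.2.2 = 0 := by linarith
      rw [normSq_eq_zero] at b1 b2 b3
      rw [lz, b1, b2, b3] at h4
      simp at h4
    rcases eq_or_lt_of_le hs.1 with h8 | h8
    · rw [← h8]
      linarith
    · have h9 : 0 ≤ (1 - s) * (2 * (lz p v).re) := by
        have := hs.2
        have : 0 ≤ 1 - s := by linarith
        positivity
      have h10 : 0 < s * (2 * (lz p v + conj p.1 * v.1).re) := by positivity
      linarith

end Pool.Agent.H92.BC
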