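import Pool.Agent.H92.BC.Defs

/-!
# General lemmas on level sets, forms and supported contact forms
-/

namespace Pool.Agent.H92.BC

open Complex ComplexConjugate
open scoped ContDiff Topology

section

variable {E F : Type} [NormedAddCommGroup E] [NormedSpace ℝ E]
  [NormedAddCommGroup F] [NormedSpace ℝ F]

theorem pos_left {a b : ℝ} (h : 0 < a * b) (hb : 0 ≤ b) : 0 < a := by
  by_contra hc
  push Not at hc
  nlinarith [mul_nonneg (neg_nonneg.mpr hc) hb]

theorem pos_right {a b : ℝ} (h : 0 < a * b) (ha : 0 ≤ a) : 0 < b := by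
  rw [mul_comm] at h
  exact pos_left h ha

theorem tan_iff {d : ℕ} (M : LevelSet E F d) (p v : E) :
    v ∈ M.Tan p ↔ fderiv ℝ M.eqn p v = 0 := Iff.rfl

theorem carrier_iff {d : ℕ} (M : LevelSet E F d) (p : E) :
    p ∈ M.carrier ↔ M.eqn p = 0 := Iff.rfl

theorem tan_add {d : ℕ} (M : LevelSet E F d) {p u v : E} (hu : u ∈ M.Tan p) (hv : v ∈ M.Tan p) :
    u + v ∈ M.Tan p := by
  rw [tan_iff] at *
  rw [map_add, hu, hv, add_zero]

theorem tan_smul {d : ℕ} (M : LevelSet E F d) {p v : E} (c : ℝ) (hv : v ∈ M.Tan p) :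
    c • v ∈ M.Tan p := by
  rw [tan_iff] at *
  rw [map_smul, hv, smul_zero]

/-- the value of `α ∧ dα` on combinations -/
theorem vol_comb (α : E → E →L[ℝ] ℝ) (p e1 e2 e3 : E) (a1 a2 a3 b1 b2 b3 c1 c2 c3 : ℝ) :
    vol α p (a1 • e1 + a2 • e2 + a3 • e3) (b1 • e1 + b2 • e2 + b3 • e3)
      (c1 • e1 + c2 • e2 + c3 • e3)
      = (a1 * (b2 * c3 - b3 * c2) - a2 * (b1 * c3 - b3 * c1) + a3 * (b1 * c2 - b2 * c1))
        * vol α p e1 e2 e3 := by
  simp only [vol, dOne, map_add, map_smul, _root_.add_apply,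
    _root_.smul_apply, smul_eq_mul]
  ring

/-- the three-form `ν ∧ dα` -/
noncomputable def w3 (ν : E →L[ℝ] ℝ) (α : E → E →L[ℝ] ℝ) (p u v w : E) : ℝ :=
  ν u * dOne α p v w + ν v * dOne α p w u + ν w * dOne α p u v

theorem w3_comb (ν : E →L[ℝ] ℝ) (α : E → E →L[ℝ] ℝ) (p e1 e2 e3 : E)
    (a1 a2 a3 b1 b2 b3 c1 c2 c3 : ℝ) :
    w3 ν α p (a1 • e1 + a2 • e2 + a3 • e3) (b1 • e1 + b2 • e2 + b3 • e3)
      (c1 • e1 + c2 • e2 + c3 • e3)
      = (a1 * (b2 * c3 - b3 * c2) - a2 * (b1 * c3 - b3 * c1) + a3 * (b1 * c2 - b2 * c1))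
        * w3 ν α p e1 e2 e3 := by
  simp only [w3, dOne, map_add, map_smul, _root_.add_apply,
    _root_.smul_apply, smul_eq_mul]
  ring

theorem finrank_ker (M : LevelSet E F 3) (p : E) (hp : p ∈ M.carrier) :
    Module.finrank ℝ (LinearMap.ker (fderiv ℝ M.eqn p : E →ₗ[ℝ] F)) = 3 := by
  have hE : 0 < Module.finrank ℝ E := by rw [M.dim]; omega
  have : FiniteDimensional ℝ E := FiniteDimensional.of_finrank_pos hE
  have h1 := LinearMap.finrank_range_add_finrank_ker (fderiv ℝ M.eqn p : E →ₗ[ℝ] F)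
  have h2 : LinearMap.range (fderiv ℝ M.eqn p : E →ₗ[ℝ] F) = ⊤ := by
    rw [LinearMap.range_eq_top]
    exact M.regular p hp
  rw [h2, finrank_top, M.dim] at h1
  omega

/-- three tangent vectors with nonzero volume span the tangent space -/
theorem span3 (M : LevelSet E F 3) (p : E) (hp : p ∈ M.carrier) (e1 e2 e3 : E)
    (h1 : e1 ∈ M.Tan p) (h2 : e2 ∈ M.Tan p) (h3 : e3 ∈ M.Tan p)
    (hl : ∀ c1 c2 c3 : ℝ, c1 • e1 + c2 • e2 + c3 • e3 = 0 → c1 = 0 ∧ c2 = 0 ∧ c3 = 0)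
    (v : E) (hv : v ∈ M.Tan p) : ∃ c1 c2 c3 : ℝ, v = c1 • e1 + c2 • e2 + c3 • e3 := by
  have hE : 0 < Module.finrank ℝ E := by rw [M.dim]; omega
  have : FiniteDimensional ℝ E := FiniteDimensional.of_finrank_pos hE
  set K := LinearMap.ker (fderiv ℝ M.eqn p : E →ₗ[ℝ] F) with hK
  have hmem : ∀ w, w ∈ M.Tan p → w ∈ K := fun w hw => by
    rw [hK, LinearMap.mem_ker]
    exact hw
  let b : Fin 3 → K := ![⟨e1, hmem _ h1⟩, ⟨e2, hmem _ h2⟩, ⟨e3, hmem _ h3⟩]
  have hb : LinearIndependent ℝ b := by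
    rw [Fintype.linearIndependent_iff]
    intro g hg
    have h4 := congrArg Subtype.val hg
    simp only [b, Fin.sum_univ_three, Matrix.cons_val_zero, Matrix.cons_val_one,
      Matrix.cons_val, Submodule.coe_add, Submodule.coe_smul, Submodule.coe_zero] at h4
    obtain ⟨k1, k2, k3⟩ := hl _ _ _ h4
    intro i
    fin_cases i
    · exact k1
    · exact k2
    · exact k3
  have hspan : Submodule.span ℝ (Set.range b) = ⊤ := by
    apply hb.span_eq_top_of_card_eq_finrank'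
    rw [finrank_ker M p hp, Fintype.card_fin]
  have hv' : (⟨v, hmem _ hv⟩ : K) ∈ Submodule.span ℝ (Set.range b) := by
    rw [hspan]; trivial
  rw [Submodule.mem_span_range_iff_exists_fun] at hv'
  obtain ⟨c, hc⟩ := hv'
  refine ⟨c 0, c 1, c 2, ?_⟩
  have h4 := congrArg Subtype.val hc
  simp only [b, Fin.sum_univ_three, Matrix.cons_val_zero, Matrix.cons_val_one,
      Matrix.cons_val, Submodule.coe_add, Submodule.coe_smul] at h4
  exact h4.symm

theorem indep_of_vol (α : E → E →L[ℝ] ℝ) (p e1 e2 e3 : E) (h : vol α p e1 e2 e3 ≠ 0)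
    (c1 c2 c3 : ℝ) (hc : c1 • e1 + c2 • e2 + c3 • e3 = 0) : c1 = 0 ∧ c2 = 0 ∧ c3 = 0 := by
  have k1 := vol_comb α p e1 e2 e3 c1 c2 c3 0 1 0 0 0 1
  have k2 := vol_comb α p e1 e2 e3 1 0 0 c1 c2 c3 0 0 1
  have k3 := vol_comb α p e1 e2 e3 1 0 0 0 1 0 c1 c2 c3
  rw [hc] at k1 k2 k3
  have z1 : ∀ v w, vol α p 0 v w = 0 := by
    intro v w; simp [vol, dOne]
  have z2 : ∀ v w, vol α p v 0 w = 0 := by
    intro v w; simp [vol, dOne]
  have z3 : ∀ v w, vol α p v w 0 = 0 := by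
    intro v w; simp [vol, dOne]
  rw [z1] at k1
  rw [z2] at k2
  rw [z3] at k3
  refine ⟨?_, ?_, ?_⟩
  · rcases mul_eq_zero.mp k1.symm with h4 | h4
    · linarith
    · exact absurd h4 h
  · rcases mul_eq_zero.mp k2.symm with h4 | h4
    · linarith
    · exact absurd h4 h
  · rcases mul_eq_zero.mp k3.symm with h4 | h4
    · linarith
    · exact absurd h4 h

/-- span from the volume -/
theorem span_vol (M : LevelSet E F 3) (α : E → E →L[ℝ] ℝ) (p : E) (hp : p ∈ M.carrier)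
    (e1 e2 e3 : E) (h1 : e1 ∈ M.Tan p) (h2 : e2 ∈ M.Tan p) (h3 : e3 ∈ M.Tan p)
    (h : vol α p e1 e2 e3 ≠ 0) (v : E) (hv : v ∈ M.Tan p) :
    ∃ c1 c2 c3 : ℝ, v = c1 • e1 + c2 • e2 + c3 • e3 :=
  span3 M p hp e1 e2 e3 h1 h2 h3 (indep_of_vol α p e1 e2 e3 h) v hv

/-- the covector `Im (conj (f p) * df)` -/
noncomputable def nu (f : E → ℂ) (p : E) : E →L[ℝ] ℝ :=
  imCLM.comp ((conj (f p)) • (fderiv ℝ f p))

theorem nu_apply (f : E → ℂ) (p v : E) : nu f p v = (conj (f p) * fderiv ℝ f p v).im := by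
  simp [nu]

/-- Criterion for supported contact forms: good frames at every point. -/
theorem supports_of_frames (M : LevelSet E F 3) (f : E → ℂ) (α : E → E →L[ℝ] ℝ)
    (hf : ContDiff ℝ ∞ f) (hα : ContDiff ℝ ∞ α)
    (off : ∀ p ∈ M.carrier, f p ≠ 0 → ∃ e1 ∈ M.Tan p, ∃ e2 ∈ M.Tan p, ∃ e3 ∈ M.Tan p,
      0 < vol α p e1 e2 e3 ∧ 0 < w3 (nu f p) α p e1 e2 e3)
    (on : ∀ p ∈ M.carrier, f p = 0 → ∃ ζ h d, BindingChart M f p ζ h d ∧
      ∃ e1 ∈ M.Tan p, ∃ e2 ∈ M.Tan p, ∃ e3 ∈ M.Tan p,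
      0 < vol α p e1 e2 e3 ∧ fderiv ℝ ζ p e1 = 0 ∧
      0 < (conj (fderiv ℝ ζ p e2) * fderiv ℝ ζ p e3).im ∧ 0 < α p e1) :
    Supports M f α := by
  refine ⟨⟨hf, ?_, ?_⟩, hα, ?_, ?_, ?_⟩
  · intro p hp hfp
    obtain ⟨e1, h1, e2, h2, e3, h3, _, hw⟩ := off p hp hfp
    by_contra hcon
    push Not at hcon
    have k1 := hcon e1 h1
    have k2 := hcon e2 h2
    have k3 := hcon e3 h3
    rw [← nu_apply] at k1 k2 k3
    rw [w3, k1, k2, k3] at hw
    simp at hw
  · intro p hp hfp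
    obtain ⟨ζ, h, d, hc, _⟩ := on p hp hfp
    exact ⟨ζ, h, d, hc⟩
  · intro p hp
    by_cases hfp : f p = 0
    · obtain ⟨ζ, h, d, hc, e1, h1, e2, h2, e3, h3, hv, _⟩ := on p hp hfp
      exact ⟨e1, h1, e2, h2, e3, h3, hv.ne'⟩
    · obtain ⟨e1, h1, e2, h2, e3, h3, hv, _⟩ := off p hp hfp
      exact ⟨e1, h1, e2, h2, e3, h3, hv.ne'⟩
  · intro p hp hfp n hn u hu v hv hn' hu' hv' hvol
    obtain ⟨e1, h1, e2, h2, e3, h3, hV, hW⟩ := off p hp hfp
    obtain ⟨a1, a2, a3, ha⟩ := span_vol M α p hp e1 e2 e3 h1 h2 h3 hV.ne' n hn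
    obtain ⟨b1, b2, b3, hb⟩ := span_vol M α p hp e1 e2 e3 h1 h2 h3 hV.ne' u hu
    obtain ⟨c1, c2, c3, hc⟩ := span_vol M α p hp e1 e2 e3 h1 h2 h3 hV.ne' v hv
    have k1 := vol_comb α p e1 e2 e3 a1 a2 a3 b1 b2 b3 c1 c2 c3
    have k2 := w3_comb (nu f p) α p e1 e2 e3 a1 a2 a3 b1 b2 b3 c1 c2 c3
    rw [← ha, ← hb, ← hc] at k1 k2
    rw [k1] at hvol
    have hdet := pos_left hvol hV.le
    have h4 : 0 < w3 (nu f p) α p n u v := by
      rw [k2]; exact mul_pos hdet hW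
    rw [w3, nu_apply, nu_apply, nu_apply, hu', hv', zero_mul, zero_mul, add_zero, add_zero] at h4
    exact pos_right h4 hn'.le
  · intro p hp hfp
    obtain ⟨ζ, h, d, hc, e1, h1, e2, h2, e3, h3, hV, hz1, hz2, hα1⟩ := on p hp hfp
    refine ⟨ζ, h, d, hc, ?_⟩
    intro k hk u hu v hv hk' huv hvol
    obtain ⟨a1, a2, a3, ha⟩ := span_vol M α p hp e1 e2 e3 h1 h2 h3 hV.ne' k hk
    obtain ⟨b1, b2, b3, hb⟩ := span_vol M α p hp e1 e2 e3 h1 h2 h3 hV.ne' u hu
    obtain ⟨c1, c2, c3, hc'⟩ := span_vol M α p hp e1 e2 e3 h1 h2 h3 hV.ne' v hv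
    have k1 := vol_comb α p e1 e2 e3 a1 a2 a3 b1 b2 b3 c1 c2 c3
    rw [← ha, ← hb, ← hc'] at k1
    rw [k1] at hvol
    have hdet := pos_left hvol hV.le
    set L := fderiv ℝ ζ p with hL
    have e2' : L u = (b2 : ℂ) * L e2 + (b3 : ℂ) * L e3 := by
      rw [hb, map_add, map_add, map_smul, map_smul, map_smul, hz1, smul_zero, zero_add,
        real_smul, real_smul]
    have e3' : L v = (c2 : ℂ) * L e2 + (c3 : ℂ) * L e3 := by
      rw [hc', map_add, map_add, map_smul, map_smul, map_smul, hz1, smul_zero, zero_add,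
        real_smul, real_smul]
    have e1' : (a2 : ℂ) * L e2 + (a3 : ℂ) * L e3 = 0 := by
      rw [← hk', ha, map_add, map_add, map_smul, map_smul, map_smul, hz1, smul_zero, zero_add,
        real_smul, real_smul]
    have ha23 : a2 = 0 ∧ a3 = 0 := by
      have r1 := congrArg (fun z => (conj (L e2) * z).im) e1'
      have r2 := congrArg (fun z => (conj (L e3) * z).im) e1'
      simp only [mul_add, mul_zero, zero_im, add_im, mul_im, mul_re, conj_re, conj_im, ofReal_re,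
        ofReal_im] at r1 r2
      simp only [mul_im, conj_re, conj_im] at hz2
      constructor
      · have : a2 * ((L e2).re * (L e3).im + -(L e2).im * (L e3).re) = 0 := by linarith
        rcases mul_eq_zero.mp this with h5 | h5
        · exact h5
        · linarith
      · have : a3 * ((L e2).re * (L e3).im + -(L e2).im * (L e3).re) = 0 := by linarith
        rcases mul_eq_zero.mp this with h5 | h5
        · exact h5
        · linarith
    rw [ha23.1, ha23.2] at hdet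
    have hbc : 0 < b2 * c3 - b3 * c2 := by
      rw [e2', e3'] at huv
      have : (conj ((b2 : ℂ) * L e2 + (b3 : ℂ) * L e3) * ((c2 : ℂ) * L e2 + (c3 : ℂ) * L e3)).im
          = (b2 * c3 - b3 * c2) * (conj (L e2) * L e3).im := by
        simp only [map_add, map_mul, conj_ofReal, add_im, add_re, mul_im, mul_re, conj_re,
          conj_im, ofReal_re, ofReal_im]
        ring
      rw [this] at huv
      exact pos_left huv hz2.le
    have ha1 : 0 < a1 := by
      have : 0 < a1 * (b2 * c3 - b3 * c2) := by linarith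
      exact pos_left this hbc.le
    rw [ha, ha23.1, ha23.2, zero_smul, zero_smul, add_zero, add_zero, map_smul, smul_eq_mul]
    exact mul_pos ha1 hα1

/-! ### forms `Im (conj g dg)` -/

/-- the one-form `Im (conj g dg)` -/
noncomputable def imf (g : E → ℂ) : E → E →L[ℝ] ℝ := nu g

theorem imf_apply (g : E → ℂ) (p v : E) : imf g p v = (conj (g p) * fderiv ℝ g p v).im :=
  nu_apply g p v

theorem imf_smooth (g : E → ℂ) (hg : ContDiff ℝ ∞ g) : ContDiff ℝ ∞ (imf g) := by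
  have h1 : ContDiff ℝ ∞ (fderiv ℝ g) := hg.fderiv_right (by simp)
  have h2 : ContDiff ℝ ∞ (fun p => conj (g p)) := conjCLE.contDiff.comp hg
  have h3 : ContDiff ℝ ∞ (fun p => (conj (g p)) • (fderiv ℝ g p)) := h2.smul h1
  have h4 : ContDiff ℝ ∞ (fun p => imCLM.comp ((conj (g p)) • (fderiv ℝ g p))) :=
    contDiff_const.clm_comp h3
  exact h4

theorem imf_fderiv (g : E → ℂ) (hg : ContDiff ℝ ∞ g) (p u v : E) :
    fderiv ℝ (imf g) p u v = (conj (fderiv ℝ g p u) * fderiv ℝ g p v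
      + conj (g p) * fderiv ℝ (fderiv ℝ g) p u v).im := by
  have h1 : HasFDerivAt g (fderiv ℝ g p) p := (hg.differentiable (by simp) p).hasFDerivAt
  have h2 : HasFDerivAt (fderiv ℝ g) (fderiv ℝ (fderiv ℝ g) p) p := by
    have : ContDiff ℝ ∞ (fderiv ℝ g) := hg.fderiv_right (by simp)
    exact (this.differentiable (by simp) p).hasFDerivAt
  have h3 : HasFDerivAt (fun q => fderiv ℝ (imf g) p u v) (0 : E →L[ℝ] ℝ) p :=
    hasFDerivAt_const _ _
  have h4 : HasFDerivAt (fun q => imf g q v)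
      (imCLM.comp ((conj (g p)) • ((ContinuousLinearMap.apply ℝ ℂ v).comp
        (fderiv ℝ (fderiv ℝ g) p)) + (conjCLE.toContinuousLinearMap.comp (fderiv ℝ g p)).smulRight
          (fderiv ℝ g p v))) p := by
    have k1 : HasFDerivAt (fun q => conj (g q))
        (conjCLE.toContinuousLinearMap.comp (fderiv ℝ g p)) p :=
      conjCLE.toContinuousLinearMap.hasFDerivAt.comp p h1
    have k2 : HasFDerivAt (fun q => fderiv ℝ g q v)
        ((ContinuousLinearMap.apply ℝ ℂ v).comp (fderiv ℝ (fderiv ℝ g) p)) p :=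
      (ContinuousLinearMap.apply ℝ ℂ v).hasFDerivAt.comp p h2
    have k3 := k1.smul k2
    have k4 := imCLM.hasFDerivAt.comp p k3
    refine k4.congr_of_eventuallyEq ?_
    filter_upwards with q
    rw [imf_apply]
    rfl
  have h5 : HasFDerivAt (fun q => imf g q v)
      ((ContinuousLinearMap.apply ℝ ℝ v).comp (fderiv ℝ (imf g) p)) p := by
    have k1 : HasFDerivAt (imf g) (fderiv ℝ (imf g) p) p :=
      ((imf_smooth g hg).differentiable (by simp) p).hasFDerivAt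
    exact (ContinuousLinearMap.apply ℝ ℝ v).hasFDerivAt.comp p k1
  have h6 := congrArg (fun L => L u) (h5.unique h4)
  simp only [ContinuousLinearMap.comp_apply, ContinuousLinearMap.apply_apply] at h6
  rw [h6]
  simp [ContinuousLinearMap.smulRight_apply]
  ring

theorem imf_dOne (g : E → ℂ) (hg : ContDiff ℝ ∞ g) (p u v : E) :
    dOne (imf g) p u v = 2 * (conj (fderiv ℝ g p u) * fderiv ℝ g p v).im := by
  rw [dOne, imf_fderiv g hg, imf_fderiv g hg]
  have hs : fderiv ℝ (fderiv ℝ g) p u v = fderiv ℝ (fderiv ℝ g) p v u := by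
    have h1 : IsSymmSndFDerivAt ℝ g p := by
      apply (hg.contDiffAt (x := p)).isSymmSndFDerivAt
      simp only [minSmoothness_of_isRCLikeNormedField]
      exact WithTop.coe_le_coe.2 le_top
    exact h1 u v
  rw [hs]
  simp only [add_im, mul_im, conj_re, conj_im]
  ring

end

end Pool.Agent.H92.BC
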