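import Pool.Agent.H92.BC.MapF
import Pool.Agent.H92.BC.Fill

/-!
# The main theorem
-/

namespace Pool.Agent.H92.BC

open Complex ComplexConjugate
open scoped ContDiff Topology

theorem cov_orientation (m : ℕ) (hm : 1 ≤ m) :
    OrientationPreserving (cov m hm) c3 (covForm m) baseForm (gmap m) := by
  intro q hq hu u hu' v hv' w hw' hvol
  obtain ⟨e1, t1, e2, t2, e3, t3, hV, _, h2, h3, h1⟩ := cov_frame m hm q hq hu
  have hpos := frame_image m hm q hq hu e1 e2 e3 t1 t2 t3 h2 h3 h1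
  obtain ⟨a1, a2, a3, ha⟩ := span_vol (cov m hm) (covForm m) q hq e1 e2 e3 t1 t2 t3 hV.ne' u hu'
  obtain ⟨b1, b2, b3, hb⟩ := span_vol (cov m hm) (covForm m) q hq e1 e2 e3 t1 t2 t3 hV.ne' v hv'
  obtain ⟨d1, d2, d3, hd⟩ := span_vol (cov m hm) (covForm m) q hq e1 e2 e3 t1 t2 t3 hV.ne' w hw'
  have k1 := vol_comb (covForm m) q e1 e2 e3 a1 a2 a3 b1 b2 b3 d1 d2 d3
  rw [← ha, ← hb, ← hd] at k1
  rw [k1] at hvol
  have hdet := pos_left hvol hV.le
  have k2 := vol_comb baseForm (gmap m q) (fderiv ℝ (gmap m) q e1) (fderiv ℝ (gmap m) q e2)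
    (fderiv ℝ (gmap m) q e3) a1 a2 a3 b1 b2 b3 d1 d2 d3
  simp only [← map_smul, ← map_add] at k2
  rw [← ha, ← hb, ← hd] at k2
  rw [k2]
  exact mul_pos hdet hpos

/-- immersion along the binding -/
theorem gmap_imm_binding (m : ℕ) (hm : 1 ≤ m) (q : C3) (hq : q ∈ (cov m hm).carrier)
    (hu : q.2.2 = 0) (v : C3) (hv : v ∈ (cov m hm).Tan q) (hv3 : v.2.2 = 0)
    (h0 : fderiv ℝ (gmap m) q v = 0) : v = 0 := by
  have hS := SS_pos m hm q hq
  obtain ⟨r, dz, dw, dx, hdz, hdw, hdx, hre, hD⟩ := gmap_fderiv m hm q hS v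
  have hw : wq m q = 0 := by rw [wq, hu, zero_pow (by omega), mul_zero]
  have hN := zw_norm m q hS
  rw [hw, map_zero, add_zero] at hN
  have hz : zq m q ≠ 0 := by
    intro h
    rw [h, map_zero] at hN
    norm_num at hN
  have hdw0 : dw = 0 := by rw [hdw, hw, hv3]; ring
  rw [hD] at h0
  have g1 : dx = 0 := congrArg Prod.fst h0
  have g2 : 8 * wq m q * dw - 2 * conj (zq m q) * conj dz = 0 :=
    congrArg (fun s : C3 => s.2.1) h0
  have hdz0 : dz = 0 := by
    rw [hw] at g2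
    have : conj (zq m q) * conj dz = 0 := by linear_combination (-1 / 2) * g2
    rcases mul_eq_zero.mp this with h | h
    · exact absurd (by simpa using h) hz
    · simpa using h
  have hρ : ((rho m q : ℝ) : ℂ) ≠ 0 := by exact_mod_cast (rho_pos m q hS).ne'
  rw [hdz0, zq] at hdz
  rw [g1, xq] at hdx
  have s1 : (r : ℂ) * (q.1 + q.2.1) + (v.1 + v.2.1) = 0 := by
    have : (rho m q : ℂ) * ((r : ℂ) * (q.1 + q.2.1) + (v.1 + v.2.1)) = 0 := by
      linear_combination (-4) * hdz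
    exact (mul_eq_zero.mp this).resolve_left hρ
  have s2 : (r : ℂ) * (q.2.1 - q.1) + (v.2.1 - v.1) = 0 := by
    have : (rho m q : ℂ) * ((r : ℂ) * (q.2.1 - q.1) + (v.2.1 - v.1)) = 0 := by
      linear_combination (-2) * hdx
    exact (mul_eq_zero.mp this).resolve_left hρ
  have s3 : v.1 = -(r : ℂ) * q.1 := by linear_combination (1 / 2) * s1 - (1 / 2) * s2
  have s4 : v.2.1 = -(r : ℂ) * q.2.1 := by linear_combination (1 / 2) * s1 + (1 / 2) * s2
  have hr : r = 0 := by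
    obtain ⟨_, h2⟩ := cov_tan.mp hv
    obtain ⟨_, h1⟩ := cov_mem.mp hq
    rw [s3, s4] at h2
    simp only [normSq_apply] at h1
    simp only [mul_re, mul_im, conj_re, conj_im, neg_re, neg_im, ofReal_re, ofReal_im] at h2
    linear_combination -h2 - r * h1
  rw [hr] at s3 s4
  refine Prod.ext ?_ (Prod.ext ?_ hv3)
  · rw [s3]; simp
  · rw [s4]; simp

theorem cov_cyclic (m : ℕ) (hm : 1 ≤ m) :
    CyclicBranchedCover (2 * m) m (cov m hm) c3 base FF (gmap m) := by
  refine ⟨?_, gmap_image m hm, ?_, ?_, ?_, ?_, ?_⟩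
  · intro q hq
    exact gmap_contDiffAt m q (SS_pos m hm q hq)
  · intro q hq
    exact gmap_binding m hm q hq
  · intro q hq hu v hv h0
    exact gmap_locdiff m hm q hq hu v hv h0
  · intro q hq hu
    exact gmap_pages m hm q hq hu
  · intro p hp hF c hc
    exact gmap_fibre m hm p hp hF c hc
  · intro q hq hu
    have hu' : q.2.2 = 0 := hu
    have hS := SS_pos m hm q hq
    refine ⟨c3, fun _ => 1, 1, zeta, unitH, 2,
      fun s => (rho m s : ℂ) ^ 2 * ((s.1 + s.2.1) / 4), cov_chart m hm q hq hu',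
      base_chart _ (gmap_mem m hm q hq).1 ((gmap_binding m hm q hq).mpr hu'), ?_, ?_, ?_, ?_⟩
    · exact ((rhoC_contDiffAt m q hS).pow 2).mul
        (((c1.contDiff.add c2.contDiff).div_const 4).contDiffAt)
    · have h1 : ((rho m q : ℝ) : ℂ) ≠ 0 := by exact_mod_cast (rho_pos m q hS).ne'
      have h2 : q.1 + q.2.1 ≠ 0 := by
        intro h
        rw [SS, h, hu', map_zero, zero_pow (by omega)] at hS
        norm_num at hS
      exact mul_ne_zero (pow_ne_zero _ h1) (div_ne_zero h2 (by norm_num))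
    · filter_upwards with s hs
      obtain ⟨_, _, d3⟩ := data_of_image m s (cov_mem.mp hs).1 _ rfl
      rw [← d3, zq, wq]
      simp only [c3_apply]
      ring
    · intro v hv hv3 h0
      rw [ContinuousLinearMap.fderiv] at hv3
      exact gmap_imm_binding m hm q hq hu' v hv hv3 h0

theorem base_closed : IsCompact base.carrier ∧ IsConnected base.carrier := by
  constructor
  · have h := compact_sub 0 ⟨le_refl _, zero_le_one⟩
    have h2 : base.carrier = {p ∈ surf.carrier | (1 - 0) * psiF p + 0 * phiF p ≤ 17}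
        ∩ {p | psiF p = 17} := by
      ext p
      rw [base_mem]
      constructor
      · rintro ⟨h1, h2⟩
        refine ⟨⟨h1, ?_⟩, h2⟩
        rw [h2]; norm_num
      · rintro ⟨⟨h1, _⟩, h2⟩
        exact ⟨h1, h2⟩
    rw [h2]
    exact h.inter_right (isClosed_eq psiF_contDiff.continuous continuous_const)
  · rw [← gmap_image 1 le_rfl]
    apply (cov_connected 1 le_rfl).image
    intro q hq
    exact (gmap_contDiffAt 1 q (SS_pos 1 le_rfl q hq)).continuousAt.continuousWithinAt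

theorem main :
    ∃ (Y : LevelSet (ℂ × ℂ × ℂ) (ℂ × ℝ) 3) (F : ℂ × ℂ × ℂ → ℂ)
      (α : ℂ × ℂ × ℂ → (ℂ × ℂ × ℂ →L[ℝ] ℝ)),
      IsCompact Y.carrier ∧ IsConnected Y.carrier ∧ IsConnected {p ∈ Y.carrier | F p = 0} ∧
      Supports Y F α ∧
      (∃ (V : LevelSet (ℂ × ℂ × ℂ) ℂ 4) (J : ℂ × ℂ × ℂ →L[ℝ] ℂ × ℂ × ℂ)
        (φ ψ : ℂ × ℂ × ℂ → ℝ) (c : ℝ), SteinFilling Y α V J φ ψ c) ∧
      ∀ m : ℕ, 1 ≤ m →
        ∃ (Y' : LevelSet (ℂ × ℂ × ℂ) (ℂ × ℝ) 3) (F' : ℂ × ℂ × ℂ → ℂ)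
          (α' : ℂ × ℂ × ℂ → (ℂ × ℂ × ℂ →L[ℝ] ℝ)) (g : ℂ × ℂ × ℂ → ℂ × ℂ × ℂ),
          IsCompact Y'.carrier ∧ IsConnected Y'.carrier ∧
          CyclicBranchedCover (2 * m) m Y' F' Y F g ∧ Supports Y' F' α' ∧
          OrientationPreserving Y' F' α' α g ∧ Overtwisted Y' α' :=
  ⟨base, FF, baseForm, base_closed.1, base_closed.2, base_binding_connected, base_supports,
    ⟨surf, JJ, phiF, psiF, 17, base_stein⟩, fun m hm =>
    ⟨cov m hm, c3, covForm m, gmap m, cov_compact m hm, cov_connected m hm, cov_cyclic m hm,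
      cov_supports m hm, cov_orientation m hm, cov_overtwisted m hm⟩⟩

end Pool.Agent.H92.BC
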