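import Pool.Agent.H92.BC.CovD
import Pool.Agent.H92.BC.BaseD

/-!
# The covering map
-/

namespace Pool.Agent.H92.BC

open Complex ComplexConjugate
open scoped ContDiff Topology

/-- points of the base from `z`, `w`, `x` -/
noncomputable def pt (z w x : ℂ) : C3 :=
  (x, 4 * w ^ 2 - conj z ^ 2, 4 * (z * w) + conj z * conj w)

theorem pt_mem (z w x : ℂ) (hN : normSq z + normSq w = 1) (hx : x ^ 2 = 4 * z ^ 2 - conj w ^ 2) :
    pt z w x ∈ base.carrier ∧ FF (pt z w x) = 15 * w ^ 2 := by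
  have hNc : z * conj z + w * conj w = 1 := by
    rw [mul_conj, mul_conj]; exact_mod_cast hN
  have hx' : conj x ^ 2 = 4 * conj z ^ 2 - w ^ 2 := by
    have := congrArg conj hx
    simpa only [map_add, map_sub, map_mul, map_pow, conj_conj, map_ofNat] using this
  constructor
  · rw [base_mem]
    constructor
    · simp only [gEqn, pt]
      rw [hx]
      linear_combination (-4 * (z * conj z + w * conj w) - 4) * hNc
    · have h1 : ((psiF (pt z w x) : ℝ) : ℂ) = ((17 : ℝ) : ℂ) := by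
        rw [psi_c]
        simp only [pt, map_add, map_sub, map_mul, map_pow, conj_conj, map_ofNat]
        rw [hx, hx']
        push_cast
        linear_combination (17 * (z * conj z + w * conj w) + 17) * hNc
      exact_mod_cast h1
  · simp only [FF, pt]
    rw [hx']
    ring

/-- `16 (|z|^2 + |w|^2)` before normalisation -/
noncomputable def SS (m : ℕ) (q : C3) : ℝ := normSq (q.1 + q.2.1) + 16 * normSq q.2.2 ^ m

/-- the normalising factor -/
noncomputable def rho (m : ℕ) (q : C3) : ℝ := 4 / Real.sqrt (SS m q)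

/-- `z` -/
noncomputable def zq (m : ℕ) (q : C3) : ℂ := (rho m q : ℂ) * ((q.1 + q.2.1) / 4)

/-- `w` -/
noncomputable def wq (m : ℕ) (q : C3) : ℂ := (rho m q : ℂ) * q.2.2 ^ m

/-- `x` -/
noncomputable def xq (m : ℕ) (q : C3) : ℂ := (rho m q : ℂ) * ((q.2.1 - q.1) / 2)

/-- the covering map -/
noncomputable def gmap (m : ℕ) (q : C3) : C3 := pt (zq m q) (wq m q) (xq m q)

theorem SS_pos (m : ℕ) (hm : 1 ≤ m) (q : C3) (hq : q ∈ (cov m hm).carrier) : 0 < SS m q := by
  obtain ⟨h1, h2⟩ := cov_mem.mp hq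
  have a1 := normSq_nonneg (q.1 + q.2.1)
  have a2 : 0 ≤ normSq q.2.2 ^ m := pow_nonneg (normSq_nonneg _) _
  by_contra hcon
  push Not at hcon
  rw [SS] at hcon
  have h3 : normSq (q.1 + q.2.1) = 0 := by linarith
  have h4 : normSq q.2.2 ^ m = 0 := by linarith
  rw [normSq_eq_zero] at h3
  have h5 : q.2.2 = 0 := by
    have := pow_eq_zero_iff (by omega : m ≠ 0) |>.mp h4
    rwa [normSq_eq_zero] at this
  rw [h5, map_zero, zero_pow (by omega)] at h1
  have h6 : q.2.1 = -q.1 := by linear_combination h3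
  rw [h6] at h1 h2
  have h7 : q.1 = 0 := by
    have : q.1 ^ 2 = 0 := by linear_combination -h1
    exact pow_eq_zero_iff (by norm_num) |>.mp this
  rw [h7] at h2
  simp at h2

theorem rho_pos (m : ℕ) (q : C3) (h : 0 < SS m q) : 0 < rho m q := by
  rw [rho]
  have := Real.sqrt_pos.mpr h
  positivity

theorem rho_sq (m : ℕ) (q : C3) (h : 0 < SS m q) : rho m q ^ 2 * SS m q = 16 := by
  rw [rho, div_pow, Real.sq_sqrt h.le]
  field_simp
  norm_num

theorem zw_norm (m : ℕ) (q : C3) (h : 0 < SS m q) :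
    normSq (zq m q) + normSq (wq m q) = 1 := by
  have h1 := rho_sq m q h
  rw [zq, wq, normSq_mul, normSq_mul, normSq_ofReal, map_div₀, map_pow]
  have h4 : normSq (4 : ℂ) = 16 := by
    rw [← ofReal_ofNat, normSq_ofReal]; norm_num
  rw [h4]
  rw [SS] at h1
  linear_combination h1 / 16

theorem xq_sq (m : ℕ) (q : C3) (hab : q.1 * q.2.1 = conj q.2.2 ^ (2 * m)) :
    xq m q ^ 2 = 4 * zq m q ^ 2 - conj (wq m q) ^ 2 := by
  rw [xq, zq, wq, map_mul, conj_ofReal, map_pow]
  have e : conj q.2.2 ^ (2 * m) = (conj q.2.2 ^ m) ^ 2 := by rw [← pow_mul, mul_comm]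
  rw [e] at hab
  linear_combination (-(rho m q : ℂ) ^ 2) * hab

theorem gmap_mem (m : ℕ) (hm : 1 ≤ m) (q : C3) (hq : q ∈ (cov m hm).carrier) :
    gmap m q ∈ base.carrier ∧ FF (gmap m q) = 15 * wq m q ^ 2 :=
  pt_mem _ _ _ (zw_norm m q (SS_pos m hm q hq)) (xq_sq m q (cov_mem.mp hq).1)

theorem SS_contDiff (m : ℕ) : ContDiff ℝ ∞ (SS m) :=
  (normSq_contDiff (c1.contDiff.add c2.contDiff)).add
    (contDiff_const.mul ((normSq_contDiff c3.contDiff).pow m))

theorem rho_contDiffAt (m : ℕ) (q : C3) (h : 0 < SS m q) : ContDiffAt ℝ ∞ (rho m) q := by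
  have h1 : ContDiffAt ℝ ∞ (fun q => Real.sqrt (SS m q)) q :=
    (SS_contDiff m).contDiffAt.sqrt h.ne'
  exact contDiffAt_const.div h1 (Real.sqrt_pos.mpr h).ne'

theorem rhoC_contDiffAt (m : ℕ) (q : C3) (h : 0 < SS m q) :
    ContDiffAt ℝ ∞ (fun q => ((rho m q : ℝ) : ℂ)) q :=
  ofRealCLM.contDiff.contDiffAt.comp q (rho_contDiffAt m q h)

theorem zq_contDiffAt (m : ℕ) (q : C3) (h : 0 < SS m q) : ContDiffAt ℝ ∞ (zq m) q :=
  (rhoC_contDiffAt m q h).mul
    (((c1.contDiff.add c2.contDiff).div_const 4).contDiffAt)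

theorem wq_contDiffAt (m : ℕ) (q : C3) (h : 0 < SS m q) : ContDiffAt ℝ ∞ (wq m) q :=
  (rhoC_contDiffAt m q h).mul ((c3.contDiff.pow m).contDiffAt)

theorem xq_contDiffAt (m : ℕ) (q : C3) (h : 0 < SS m q) : ContDiffAt ℝ ∞ (xq m) q :=
  (rhoC_contDiffAt m q h).mul
    (((c2.contDiff.sub c1.contDiff).div_const 2).contDiffAt)

theorem gmap_contDiffAt (m : ℕ) (q : C3) (h : 0 < SS m q) : ContDiffAt ℝ ∞ (gmap m) q := by
  have h1 := zq_contDiffAt m q h
  have h2 := wq_contDiffAt m q h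
  have h3 := xq_contDiffAt m q h
  have h4 : ContDiffAt ℝ ∞ (fun q => conj (zq m q)) q := conjCLE.contDiff.contDiffAt.comp q h1
  have h5 : ContDiffAt ℝ ∞ (fun q => conj (wq m q)) q := conjCLE.contDiff.contDiffAt.comp q h2
  exact h3.prodMk (((contDiffAt_const.mul (h2.pow 2)).sub (h4.pow 2)).prodMk
    ((contDiffAt_const.mul (h1.mul h2)).add (h4.mul h5)))

/-- the derivative of the covering map -/
theorem gmap_fderiv (m : ℕ) (hm : 1 ≤ m) (q : C3) (h : 0 < SS m q) (v : C3) :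
    ∃ (r : ℝ) (dz dw dx : ℂ),
      dz = (r : ℂ) * zq m q + (rho m q : ℂ) * ((v.1 + v.2.1) / 4) ∧
      dw = (r : ℂ) * wq m q + (rho m q : ℂ) * (m * q.2.2 ^ (m - 1) * v.2.2) ∧
      dx = (r : ℂ) * xq m q + (rho m q : ℂ) * ((v.2.1 - v.1) / 2) ∧
      (conj (zq m q) * dz).re + (conj (wq m q) * dw).re = 0 ∧
      fderiv ℝ (gmap m) q v = (dx, 8 * wq m q * dw - 2 * conj (zq m q) * conj dz,
        4 * (zq m q * dw + wq m q * dz) + conj (zq m q) * conj dw + conj (wq m q) * conj dz) := by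
  have hr : HasFDerivAt (rho m) (fderiv ℝ (rho m) q) q :=
    ((rho_contDiffAt m q h).differentiableAt (by simp)).hasFDerivAt
  have hρ := (rho_pos m q h).ne'
  have hρc : ((rho m q : ℝ) : ℂ) ≠ 0 := by exact_mod_cast hρ
  have hrc : HasFDerivAt (fun q => ((rho m q : ℝ) : ℂ)) (ofRealCLM.comp (fderiv ℝ (rho m) q)) q :=
    ofRealCLM.hasFDerivAt.comp q hr
  have h1 : HasFDerivAt (fun q : C3 => q.1) c1 q := c1.hasFDerivAt
  have h2 : HasFDerivAt (fun q : C3 => q.2.1) c2 q := c2.hasFDerivAt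
  have h3 : HasFDerivAt (fun q : C3 => q.2.2) c3 q := c3.hasFDerivAt
  have hz := hrc.mul ((h1.add h2).mul_const (4 : ℂ)⁻¹)
  have hw := hrc.mul (h3.pow m)
  have hx := hrc.mul ((h2.sub h1).mul_const (2 : ℂ)⁻¹)
  have ez : zq m = fun q => ((rho m q : ℝ) : ℂ) * ((q.1 + q.2.1) * (4 : ℂ)⁻¹) := by
    funext q; rw [zq, div_eq_mul_inv]
  have ex : xq m = fun q => ((rho m q : ℝ) : ℂ) * ((q.2.1 - q.1) * (2 : ℂ)⁻¹) := by
    funext q; rw [xq, div_eq_mul_inv]
  set Lz := fderiv ℝ (zq m) q with hLz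
  set Lw := fderiv ℝ (wq m) q with hLw
  set Lx := fderiv ℝ (xq m) q with hLx
  have Hz : HasFDerivAt (zq m) Lz q :=
    ((zq_contDiffAt m q h).differentiableAt (by simp)).hasFDerivAt
  have Hw : HasFDerivAt (wq m) Lw q :=
    ((wq_contDiffAt m q h).differentiableAt (by simp)).hasFDerivAt
  have Hx : HasFDerivAt (xq m) Lx q :=
    ((xq_contDiffAt m q h).differentiableAt (by simp)).hasFDerivAt
  set r : ℝ := fderiv ℝ (rho m) q v / rho m q with hr'
  have hrv : ((fderiv ℝ (rho m) q v : ℝ) : ℂ) = (r : ℂ) * (rho m q : ℂ) := by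
    rw [hr']
    push_cast
    field_simp
  refine ⟨r, Lz v, Lw v, Lx v, ?_, ?_, ?_, ?_, ?_⟩
  · have key := Hz
    rw [ez] at key
    have this := key.unique hz
    rw [this]
    simp only [_root_.add_apply, _root_.smul_apply, smul_eq_mul,
      ContinuousLinearMap.comp_apply, ofRealCLM_apply, c1_apply, c2_apply, op_smul_eq_smul,
      Pi.add_apply]
    rw [hrv, zq]
    ring
  · have : Lw = _ := hw.fderiv
    rw [this]
    simp only [_root_.add_apply, _root_.smul_apply, smul_eq_mul,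
      ContinuousLinearMap.comp_apply, ofRealCLM_apply, c3_apply, nsmul_eq_mul, op_smul_eq_smul]
    rw [hrv, wq]
    ring
  · have key := Hx
    rw [ex] at key
    have this := key.unique hx
    rw [this]
    simp only [_root_.add_apply, _root_.sub_apply, _root_.smul_apply, smul_eq_mul,
      ContinuousLinearMap.comp_apply, ofRealCLM_apply, c1_apply, c2_apply, op_smul_eq_smul,
      Pi.sub_apply]
    rw [hrv, xq]
    ring
  · have k1 := (normSq_hasFDerivAt Hz).add (normSq_hasFDerivAt Hw)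
    have k2 : HasFDerivAt (fun q => normSq (zq m q) + normSq (wq m q)) (0 : C3 →L[ℝ] ℝ) q := by
      refine (hasFDerivAt_const (1 : ℝ) q).congr_of_eventuallyEq ?_
      have : ∀ᶠ s in 𝓝 q, SS m s ∈ Set.Ioi (0 : ℝ) :=
        (SS_contDiff m).continuous.continuousAt (Ioi_mem_nhds h)
      filter_upwards [this] with s hs
      exact zw_norm m s hs
    have k3 := congrArg (fun L => L v) (k1.unique k2)
    simp only [_root_.add_apply, _root_.smul_apply, smul_eq_mul,
      ContinuousLinearMap.comp_apply, reCLM_apply, _root_.zero_apply] at k3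
    linarith
  · have k4 := Hx.prodMk ((((Hw.pow 2).const_mul 4).sub ((conj_hasFDerivAt Hz).pow 2)).prodMk
      (((Hz.mul Hw).const_mul 4).add ((conj_hasFDerivAt Hz).mul (conj_hasFDerivAt Hw))))
    have k5 : fderiv ℝ (gmap m) q = _ := k4.fderiv
    rw [k5]
    refine Prod.ext ?_ (Prod.ext ?_ ?_)
    · simp
    · simp
      ring
    · simp
      ring

end Pool.Agent.H92.BC
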