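import Pool.Agent.H92.BC.MapA

/-!
# The covering map is the cyclic branched cover
-/

namespace Pool.Agent.H92.BC

open Complex ComplexConjugate
open scoped ContDiff Topology

/-- tangent vectors satisfy the differentiated equation `x^2 = 4 z^2 - conj w^2` -/
theorem tan_rel (m : ℕ) (hm : 1 ≤ m) (q v : C3) (hq : q ∈ (cov m hm).carrier)
    (hv : v ∈ (cov m hm).Tan q) (r : ℝ) (dz dw dx : ℂ)
    (hdz : dz = (r : ℂ) * zq m q + (rho m q : ℂ) * ((v.1 + v.2.1) / 4))
    (hdw : dw = (r : ℂ) * wq m q + (rho m q : ℂ) * (m * q.2.2 ^ (m - 1) * v.2.2))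
    (hdx : dx = (r : ℂ) * xq m q + (rho m q : ℂ) * ((v.2.1 - v.1) / 2)) :
    2 * xq m q * dx = 8 * zq m q * dz - 2 * conj (wq m q) * conj dw := by
  obtain ⟨h1, _⟩ := cov_mem.mp hq
  obtain ⟨h2, _⟩ := cov_tan.mp hv
  rw [hdz, hdw, hdx, zq, wq, xq]
  simp only [map_add, map_mul, conj_ofReal, map_pow, map_natCast]
  have e1 : conj q.2.2 ^ (2 * m) = (conj q.2.2 ^ m) ^ 2 := by rw [← pow_mul, mul_comm]
  have e2 : conj q.2.2 ^ (2 * m - 1) = conj q.2.2 ^ m * conj q.2.2 ^ (m - 1) := by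
    rw [← pow_add]; congr 1; omega
  rw [e1] at h1
  rw [e2] at h2
  push_cast at h2
  linear_combination (-2 * (r : ℂ) * (rho m q : ℂ) ^ 2) * h1 - (rho m q : ℂ) ^ 2 * h2

theorem wq_ne (m : ℕ) (hm : 1 ≤ m) (q : C3) (hq : q ∈ (cov m hm).carrier) (hu : q.2.2 ≠ 0) :
    wq m q ≠ 0 := by
  rw [wq]
  have := (rho_pos m q (SS_pos m hm q hq)).ne'
  exact mul_ne_zero (by exact_mod_cast this) (pow_ne_zero _ hu)

theorem gmap_locdiff (m : ℕ) (hm : 1 ≤ m) (q : C3) (hq : q ∈ (cov m hm).carrier)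
    (hu : q.2.2 ≠ 0) (v : C3) (hv : v ∈ (cov m hm).Tan q) (h0 : fderiv ℝ (gmap m) q v = 0) :
    v = 0 := by
  have hS := SS_pos m hm q hq
  obtain ⟨r, dz, dw, dx, hdz, hdw, hdx, hre, hD⟩ := gmap_fderiv m hm q hS v
  have hrel := tan_rel m hm q v hq hv r dz dw dx hdz hdw hdx
  have hw := wq_ne m hm q hq hu
  rw [hD] at h0
  have g1 : dx = 0 := congrArg Prod.fst h0
  have g2 : 8 * wq m q * dw - 2 * conj (zq m q) * conj dz = 0 :=
    congrArg (fun s : C3 => s.2.1) h0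
  have g3 : 4 * (zq m q * dw + wq m q * dz) + conj (zq m q) * conj dw
      + conj (wq m q) * conj dz = 0 := congrArg (fun s : C3 => s.2.2) h0
  rw [g1, mul_zero] at hrel
  have hrel' := congrArg conj hrel
  simp only [map_zero, map_sub, map_mul, conj_conj, map_ofNat] at hrel'
  have hdw0 : dw = 0 := by
    have : wq m q * dw = 0 := by linear_combination (4 / 30) * g2 - (1 / 30) * hrel'
    rcases mul_eq_zero.mp this with h | h
    · exact absurd h hw
    · exact h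
  have hdz0 : dz = 0 := by
    rw [hdw0] at g3
    simp only [map_zero, mul_zero, zero_add, add_zero] at g3
    have g3' := congrArg conj g3
    simp only [map_zero, map_add, map_mul, conj_conj, map_ofNat] at g3'
    have : wq m q * dz = 0 := by linear_combination (4 / 15) * g3 - (1 / 15) * g3'
    rcases mul_eq_zero.mp this with h | h
    · exact absurd h hw
    · exact h
  have hρ : ((rho m q : ℝ) : ℂ) ≠ 0 := by exact_mod_cast (rho_pos m q hS).ne'
  rw [hdz0, zq] at hdz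
  rw [g1, xq] at hdx
  rw [hdw0, wq] at hdw
  have s1 : (r : ℂ) * (q.1 + q.2.1) + (v.1 + v.2.1) = 0 := by
    have : (rho m q : ℂ) * ((r : ℂ) * (q.1 + q.2.1) + (v.1 + v.2.1)) = 0 := by
      linear_combination (-4) * hdz
    exact (mul_eq_zero.mp this).resolve_left hρ
  have s2 : (r : ℂ) * (q.2.1 - q.1) + (v.2.1 - v.1) = 0 := by
    have : (rho m q : ℂ) * ((r : ℂ) * (q.2.1 - q.1) + (v.2.1 - v.1)) = 0 := by
      linear_combination (-2) * hdx
    exact (mul_eq_zero.mp this).resolve_left hρ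
  have s3 : v.1 = -(r : ℂ) * q.1 := by linear_combination (1 / 2) * s1 - (1 / 2) * s2
  have s4 : v.2.1 = -(r : ℂ) * q.2.1 := by linear_combination (1 / 2) * s1 + (1 / 2) * s2
  have hr : r = 0 := by
    obtain ⟨_, h2⟩ := cov_tan.mp hv
    obtain ⟨_, h1⟩ := cov_mem.mp hq
    rw [s3, s4] at h2
    simp only [normSq_apply] at h1
    simp only [mul_re, mul_im, conj_re, conj_im, neg_re, neg_im, ofReal_re, ofReal_im] at h2
    linear_combination -h2 - r * h1
  rw [hr] at s3 s4 hdw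
  have s5 : v.2.2 = 0 := by
    have h5 : (rho m q : ℂ) * (m * q.2.2 ^ (m - 1) * v.2.2) = 0 := by
      rw [hdw]; push_cast; ring
    have hm0 : (m : ℂ) ≠ 0 := by exact_mod_cast (by omega : m ≠ 0)
    have h6 := (mul_eq_zero.mp h5).resolve_left hρ
    exact (mul_eq_zero.mp h6).resolve_left (mul_ne_zero hm0 (pow_ne_zero _ hu))
  refine Prod.ext ?_ (Prod.ext ?_ ?_)
  · rw [s3]; simp
  · rw [s4]; simp
  · exact s5

theorem gmap_binding (m : ℕ) (hm : 1 ≤ m) (q : C3) (hq : q ∈ (cov m hm).carrier) :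
    FF (gmap m q) = 0 ↔ q.2.2 = 0 := by
  rw [(gmap_mem m hm q hq).2]
  constructor
  · intro h
    by_contra hu
    have := wq_ne m hm q hq hu
    rcases mul_eq_zero.mp h with h1 | h1
    · norm_num at h1
    · exact this (pow_eq_zero_iff (by norm_num) |>.mp h1)
  · intro h
    rw [wq, h, zero_pow (by omega)]
    ring

theorem gmap_pages (m : ℕ) (hm : 1 ≤ m) (q : C3) (hq : q ∈ (cov m hm).carrier)
    (hu : q.2.2 ≠ 0) :
    FF (gmap m q) / ‖FF (gmap m q)‖ = (q.2.2 / ‖q.2.2‖) ^ (2 * m) := by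
  rw [(gmap_mem m hm q hq).2, wq]
  have hρ := rho_pos m q (SS_pos m hm q hq)
  have hn : ‖(15 : ℂ) * ((rho m q : ℂ) * q.2.2 ^ m) ^ 2‖ = 15 * rho m q ^ 2 * ‖q.2.2‖ ^ (2 * m) := by
    rw [norm_mul, norm_pow, norm_mul, norm_pow, norm_real, Real.norm_of_nonneg hρ.le]
    norm_num
    ring
  rw [hn, div_pow]
  have h1 : ((rho m q : ℝ) : ℂ) ≠ 0 := by exact_mod_cast hρ.ne'
  have h2 : ((‖q.2.2‖ : ℝ) : ℂ) ≠ 0 := by
    exact_mod_cast norm_ne_zero_iff.mpr hu
  push_cast
  field_simp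
  ring

/-- construction of a preimage from `z`, `w`, `x` and an `m`-th root -/
theorem preimage (m : ℕ) (hm : 1 ≤ m) (z w x u : ℂ) (hN : normSq z + normSq w = 1)
    (hx : x ^ 2 = 4 * z ^ 2 - conj w ^ 2) (T : ℝ) (hT : 0 < T)
    (hT2 : T ^ 2 = normSq (2 * z - x) + normSq (2 * z + x)) (hu : (T : ℂ) * u ^ m = w) :
    (((2 * z - x) / T, (2 * z + x) / T, u) : C3) ∈ (cov m hm).carrier ∧
      gmap m ((2 * z - x) / T, (2 * z + x) / T, u) = pt z w x := by
  have hTc : (T : ℂ) ≠ 0 := by exact_mod_cast hT.ne'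
  have hnT : normSq (T : ℂ) = T ^ 2 := by rw [normSq_ofReal]; ring
  have hmem : (((2 * z - x) / T, (2 * z + x) / T, u) : C3) ∈ (cov m hm).carrier := by
    rw [cov_mem]
    constructor
    · simp only
      have hu' : (T : ℂ) * conj u ^ m = conj w := by
        rw [← hu, map_mul, conj_ofReal, map_pow]
      have e : conj u ^ (2 * m) = (conj u ^ m) ^ 2 := by rw [← pow_mul, mul_comm]
      rw [e]
      field_simp
      linear_combination (-1 : ℂ) * hx - ((T : ℂ) * conj u ^ m + conj w) * hu'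
    · simp only [map_div₀, hnT]
      rw [← add_div, ← hT2]
      exact div_self (by positivity)
  refine ⟨hmem, ?_⟩
  have hS : SS m ((2 * z - x) / T, (2 * z + x) / T, u) = 16 / T ^ 2 := by
    rw [SS]
    simp only
    have e1 : (2 * z - x) / (T : ℂ) + (2 * z + x) / T = 4 * z / T := by field_simp; ring
    rw [e1, map_div₀, hnT, map_mul]
    have e2 : normSq u ^ m = normSq w / T ^ 2 := by
      rw [← hu, map_mul, hnT, map_pow]
      field_simp
    have h4 : normSq (4 : ℂ) = 16 := by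
      rw [← ofReal_ofNat, normSq_ofReal]; norm_num
    rw [e2, h4]
    field_simp
    linear_combination hN
  have hρ : rho m ((2 * z - x) / T, (2 * z + x) / T, u) = T := by
    rw [rho, hS, Real.sqrt_div' _ (by positivity), Real.sqrt_sq hT.le]
    have : Real.sqrt 16 = 4 := by
      rw [show (16 : ℝ) = 4 ^ 2 by norm_num, Real.sqrt_sq (by norm_num)]
    rw [this]
    field_simp
  have ez : zq m ((2 * z - x) / T, (2 * z + x) / T, u) = z := by
    rw [zq, hρ]
    simp only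
    field_simp
    ring
  have ew : wq m ((2 * z - x) / T, (2 * z + x) / T, u) = w := by
    rw [wq, hρ]
    exact hu
  have ex : xq m ((2 * z - x) / T, (2 * z + x) / T, u) = x := by
    rw [xq, hρ]
    simp only
    field_simp
    ring
  rw [gmap, ez, ew, ex]

theorem ext_pt (p : C3) {z w : ℂ} (hz : z ^ 2 = (4 * p.1 ^ 2 + conj p.2.1) / 15)
    (hw : w ^ 2 = (4 * p.2.1 + conj p.1 ^ 2) / 15)
    (hzw : z * w = (4 * p.2.2 - conj p.2.2) / 15) : pt z w p.1 = p := by
  obtain ⟨_, k2, k3⟩ := coords_zw p hz hw hzw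
  exact Prod.ext rfl (Prod.ext k2.symm k3.symm)

/-- positivity of the radius -/
theorem T_exists (z w x : ℂ) (hN : normSq z + normSq w = 1)
    (hx : x ^ 2 = 4 * z ^ 2 - conj w ^ 2) :
    ∃ T : ℝ, 0 < T ∧ T ^ 2 = normSq (2 * z - x) + normSq (2 * z + x) := by
  have h0 : 0 < normSq (2 * z - x) + normSq (2 * z + x) := by
    have a1 := normSq_nonneg (2 * z - x)
    have a2 := normSq_nonneg (2 * z + x)
    by_contra hcon
    push Not at hcon
    have b1 : normSq (2 * z - x) = 0 := by linarith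
    have b2 : normSq (2 * z + x) = 0 := by linarith
    rw [normSq_eq_zero] at b1 b2
    have hz : z = 0 := by linear_combination (1 / 4) * b1 + (1 / 4) * b2
    have hx0 : x = 0 := by linear_combination (-1 / 2) * b1 + (1 / 2) * b2
    rw [hz, hx0] at hx
    have hw : conj w = 0 := by
      have : conj w ^ 2 = 0 := by linear_combination hx
      exact pow_eq_zero_iff (by norm_num) |>.mp this
    have hw' : w = 0 := by simpa using hw
    rw [hz, hw'] at hN
    simp at hN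
  exact ⟨Real.sqrt (normSq (2 * z - x) + normSq (2 * z + x)), Real.sqrt_pos.mpr h0,
    Real.sq_sqrt h0.le⟩

theorem gmap_image (m : ℕ) (hm : 1 ≤ m) : gmap m '' (cov m hm).carrier = base.carrier := by
  apply Set.Subset.antisymm
  · rintro _ ⟨q, hq, rfl⟩
    exact (gmap_mem m hm q hq).1
  · intro p hp
    obtain ⟨z, w, hN, hz, hw, hzw⟩ := exists_zw p hp
    obtain ⟨k1, _, _⟩ := coords_zw p hz hw hzw
    obtain ⟨T, hT, hT2⟩ := T_exists z w p.1 hN k1
    obtain ⟨u, hu⟩ := IsAlgClosed.exists_pow_nat_eq (w / T) (n := m) (by omega)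
    have hTc : (T : ℂ) ≠ 0 := by exact_mod_cast hT.ne'
    have hu' : (T : ℂ) * u ^ m = w := by rw [hu]; field_simp
    obtain ⟨h1, h2⟩ := preimage m hm z w p.1 u hN k1 T hT hT2 hu'
    exact ⟨_, h1, by rw [h2, ext_pt p hz hw hzw]⟩

/-- the data `z`, `w`, `x` of a point of the cover, in terms of its image -/
theorem data_of_image (m : ℕ) (q : C3) (hab : q.1 * q.2.1 = conj q.2.2 ^ (2 * m)) (p : C3)
    (hp : gmap m q = p) :
    xq m q = p.1 ∧ wq m q ^ 2 = FF p / 15 ∧ zq m q * wq m q = zeta p := by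
  subst hp
  have hx := xq_sq m q hab
  have hx' : conj (xq m q) ^ 2 = 4 * conj (zq m q) ^ 2 - wq m q ^ 2 := by
    have := congrArg conj hx
    simpa only [map_add, map_sub, map_mul, map_pow, conj_conj, map_ofNat] using this
  refine ⟨rfl, ?_, ?_⟩
  · rw [FF]
    simp only [gmap, pt]
    rw [hx']
    ring
  · rw [zeta]
    simp only [gmap, pt, map_add, map_mul, conj_conj, map_ofNat]
    ring

theorem gmap_fibre (m : ℕ) (hm : 1 ≤ m) (p : C3) (hp : p ∈ base.carrier) (hF : FF p ≠ 0)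
    (c : ℂ) (hc : FF p / ‖FF p‖ = c ^ (2 * m)) :
    ∃! q, q ∈ (cov m hm).carrier ∧ q.2.2 ≠ 0 ∧ gmap m q = p ∧ q.2.2 / ‖q.2.2‖ = c := by
  have hFn : (0 : ℝ) < ‖FF p‖ := norm_pos_iff.mpr hF
  have hFc : ((‖FF p‖ : ℝ) : ℂ) ≠ 0 := by exact_mod_cast hFn.ne'
  have hcn : ‖c‖ = 1 := by
    have h1 := congrArg norm hc
    rw [norm_div, norm_real, norm_norm, div_self hFn.ne', norm_pow] at h1
    exact (pow_eq_one_iff_of_nonneg (norm_nonneg c) (by omega)).mp h1.symm
  have hc0 : c ≠ 0 := by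
    intro h
    rw [h] at hcn
    simp at hcn
  -- the value of `w`
  set β : ℝ := Real.sqrt (‖FF p‖ / 15) with hβ
  have hβpos : 0 < β := Real.sqrt_pos.mpr (by positivity)
  have hβ2 : β ^ 2 = ‖FF p‖ / 15 := Real.sq_sqrt (by positivity)
  have hFeq : FF p = (‖FF p‖ : ℂ) * c ^ (2 * m) := by
    rw [← hc]; field_simp
  set w : ℂ := (β : ℂ) * c ^ m with hw
  have hβ2c : (β : ℂ) ^ 2 = (‖FF p‖ : ℂ) / 15 := by exact_mod_cast hβ2
  have hw2 : w ^ 2 = FF p / 15 := by
    rw [hw, hFeq, mul_pow, ← pow_mul, mul_comm m 2, hβ2c]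
    ring
  have hw2' : w ^ 2 = (4 * p.2.1 + conj p.1 ^ 2) / 15 := hw2
  have hw0 : w ≠ 0 := mul_ne_zero (by exact_mod_cast hβpos.ne') (pow_ne_zero _ hc0)
  have hwn : ‖w‖ = β := by
    rw [hw, norm_mul, norm_pow, hcn, one_pow, mul_one, norm_real, Real.norm_of_nonneg hβpos.le]
  -- the value of `z`
  obtain ⟨z, hN, hz, hzw⟩ : ∃ z : ℂ, normSq z + normSq w = 1 ∧
      z ^ 2 = (4 * p.1 ^ 2 + conj p.2.1) / 15 ∧ z * w = (4 * p.2.2 - conj p.2.2) / 15 := by
    obtain ⟨z0, w0, h1, h2, h3, h4⟩ := exists_zw p hp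
    have h5 : w0 ^ 2 = w ^ 2 := by rw [h3, hw2']
    rcases sq_eq_sq_iff_eq_or_eq_neg.mp h5 with h6 | h6
    · exact ⟨z0, by rw [← h6]; exact h1, h2, by rw [← h6]; exact h4⟩
    · refine ⟨-z0, ?_, ?_, ?_⟩
      · rw [← h1, h6]; simp
      · rw [← h2]; ring
      · rw [← h4, h6]; ring
  obtain ⟨k1, _, _⟩ := coords_zw p hz hw2' hzw
  obtain ⟨T, hT, hT2⟩ := T_exists z w p.1 hN k1
  have hTc : (T : ℂ) ≠ 0 := by exact_mod_cast hT.ne'
  have hm0 : (m : ℝ) ≠ 0 := by exact_mod_cast (by omega : m ≠ 0)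
  -- the value of `u`
  set δ : ℝ := (β / T) ^ ((1 : ℝ) / m) with hδ
  have hδpos : 0 < δ := Real.rpow_pos_of_pos (by positivity) _
  have hδm : δ ^ m = β / T := by
    rw [hδ, ← Real.rpow_natCast, ← Real.rpow_mul (by positivity)]
    rw [one_div, inv_mul_cancel₀ hm0, Real.rpow_one]
  have hu : (T : ℂ) * ((δ : ℂ) * c) ^ m = w := by
    rw [mul_pow, hw]
    have : ((δ : ℂ)) ^ m = (β : ℂ) / T := by exact_mod_cast hδm
    rw [this]
    field_simp
  have hδc : ((δ : ℝ) : ℂ) ≠ 0 := by exact_mod_cast hδpos.ne'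
  obtain ⟨g1, g2⟩ := preimage m hm z w p.1 ((δ : ℂ) * c) hN k1 T hT hT2 hu
  refine ⟨((2 * z - p.1) / T, (2 * z + p.1) / T, (δ : ℂ) * c), ⟨g1, mul_ne_zero hδc hc0, ?_, ?_⟩,
    ?_⟩
  · rw [g2, ext_pt p hz hw2' hzw]
  · simp only
    rw [norm_mul, hcn, mul_one, norm_real, Real.norm_of_nonneg hδpos.le]
    field_simp
  · rintro q ⟨hq, hu0, hgq, hqc⟩
    obtain ⟨hab, hqn⟩ := cov_mem.mp hq
    obtain ⟨d1, d2, d3⟩ := data_of_image m q hab p hgq
    have hS := SS_pos m hm q hq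
    have hρ := rho_pos m q hS
    have hρc : ((rho m q : ℝ) : ℂ) ≠ 0 := by exact_mod_cast hρ.ne'
    have hun : 0 < ‖q.2.2‖ := norm_pos_iff.mpr hu0
    have hq3 : q.2.2 = (‖q.2.2‖ : ℂ) * c := by
      rw [← hqc]
      have : ((‖q.2.2‖ : ℝ) : ℂ) ≠ 0 := by exact_mod_cast hun.ne'
      field_simp
    -- `wq = w`
    have e1 : wq m q = (rho m q * ‖q.2.2‖ ^ m : ℝ) * c ^ m := by
      rw [wq]
      conv_lhs => rw [hq3]
      rw [mul_pow]
      push_cast
      ring
    have e2 : rho m q * ‖q.2.2‖ ^ m = β := by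
      have h1 := congrArg norm d2
      rw [e1, ← hw2, norm_pow, norm_pow, hwn, norm_mul, norm_pow, hcn, one_pow, mul_one,
        norm_real, Real.norm_of_nonneg (by positivity)] at h1
      have h2 : 0 ≤ rho m q * ‖q.2.2‖ ^ m := by positivity
      exact (pow_left_inj₀ h2 hβpos.le (by norm_num)).mp h1
    have e3 : wq m q = w := by rw [e1, e2, hw]
    have e4 : zq m q = z := by
      rw [e3] at d3
      rw [zeta, ← hzw] at d3
      exact mul_right_cancel₀ hw0 d3
    have s1 : (rho m q : ℂ) * q.1 = 2 * z - p.1 := by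
      rw [← e4, ← d1, zq, xq]; ring
    have s2 : (rho m q : ℂ) * q.2.1 = 2 * z + p.1 := by
      rw [← e4, ← d1, zq, xq]; ring
    have e5 : rho m q = T := by
      have h1 : rho m q ^ 2 = T ^ 2 := by
        rw [hT2, ← s1, ← s2, normSq_mul, normSq_mul, normSq_ofReal]
        linear_combination (-(rho m q) ^ 2) * hqn
      exact (pow_left_inj₀ hρ.le hT.le (by norm_num)).mp h1
    have e6 : ‖q.2.2‖ = δ := by
      have h1 : ‖q.2.2‖ ^ m = δ ^ m := by
        rw [hδm, ← e2, e5]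
        field_simp
      exact (pow_left_inj₀ hun.le hδpos.le (by omega)).mp h1
    rw [e5] at s1 s2
    refine Prod.ext ?_ (Prod.ext ?_ ?_)
    · simp only
      rw [← s1]
      field_simp
    · simp only
      rw [← s2]
      field_simp
    · simp only
      rw [hq3, e6]

end Pool.Agent.H92.BC
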