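import Pool.Agent.H92.BC.MapB

/-!
# The covering map preserves the orientation
-/

namespace Pool.Agent.H92.BC

open Complex ComplexConjugate
open scoped ContDiff Topology

/-- `dα` of the base in the coordinates `z`, `w`, `x` -/
theorem pull (z w x dz dw dx dz' dw' dx' : ℂ) (hN : normSq z + normSq w = 1)
    (h1 : (conj z * dz).re + (conj w * dw).re = 0)
    (h2 : (conj z * dz').re + (conj w * dw').re = 0)
    (hx : 2 * x * dx = 8 * z * dz - 2 * conj w * conj dw)
    (hx' : 2 * x * dx' = 8 * z * dz' - 2 * conj w * conj dw') :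
    dOne baseForm (pt z w x)
      (dx, 8 * w * dw - 2 * conj z * conj dz,
        4 * (z * dw + w * dz) + conj z * conj dw + conj w * conj dz)
      (dx', 8 * w * dw' - 2 * conj z * conj dz',
        4 * (z * dw' + w * dz') + conj z * conj dw' + conj w * conj dz')
      = 60 * (conj dz * dz' + conj dw * dw').im + 2 * (conj dx * dx').im := by
  rw [baseForm_dOne, add_im]
  simp only [hz, pt]
  rw [hx, hx']
  have e : (conj (8 * z * dz - 2 * conj w * conj dw) * (8 * z * dz' - 2 * conj w * conj dw')
      + conj (8 * w * dw - 2 * conj z * conj dz) * (8 * w * dw' - 2 * conj z * conj dz')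
      + 2 * (conj (4 * (z * dw + w * dz) + conj z * conj dw + conj w * conj dz)
        * (4 * (z * dw' + w * dz') + conj z * conj dw' + conj w * conj dz'))).im
      = 30 * (conj dz * dz' + conj dw * dw').im := by
    simp only [normSq_apply] at hN
    simp only [add_re, mul_re, conj_re, conj_im] at h1 h2
    simp only [map_add, map_sub, map_mul, conj_conj, map_ofNat, add_re, add_im, sub_re, sub_im,
      mul_re, mul_im, conj_re, conj_im, re_ofNat, im_ofNat]
    linear_combination
      (30 * (z.re * dz'.im - z.im * dz'.re + w.re * dw'.im - w.im * dw'.re)) * h1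
      - (30 * (z.re * dz.im - z.im * dz.re + w.re * dw.im - w.im * dw.re)) * h2
      + (30 * (dz.re * dz'.im - dz.im * dz'.re + dw.re * dw'.im - dw.im * dw'.re)) * hN
  rw [e]
  ring

/-- the covector `Im (conj F dF)` pulled back -/
theorem nu_pull (z w x dz dw dx : ℂ)
    (hxx : x ^ 2 = 4 * z ^ 2 - conj w ^ 2)
    (hx : 2 * x * dx = 8 * z * dz - 2 * conj w * conj dw) :
    nu FF (pt z w x) (dx, 8 * w * dw - 2 * conj z * conj dz,
        4 * (z * dw + w * dz) + conj z * conj dw + conj w * conj dz)
      = 450 * normSq w * (conj w * dw).im := by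
  have hF : FF (pt z w x) = 15 * w ^ 2 := by
    have hx2 : conj x ^ 2 = 4 * conj z ^ 2 - w ^ 2 := by
      have := congrArg conj hxx
      simpa only [map_add, map_sub, map_mul, map_pow, conj_conj, map_ofNat] using this
    simp only [FF, pt]
    rw [hx2]
    ring
  have hx3 : 2 * conj x * conj dx = 8 * conj z * conj dz - 2 * w * dw := by
    have := congrArg conj hx
    simpa only [map_add, map_sub, map_mul, map_pow, conj_conj, map_ofNat] using this
  rw [nu_apply, FF_fderiv, hF]
  simp only [pt]
  rw [hx3]
  have e : conj (15 * w ^ 2) * (4 * (8 * w * dw - 2 * conj z * conj dz)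
      + (8 * conj z * conj dz - 2 * w * dw)) = ((450 * normSq w : ℝ) : ℂ) * (conj w * dw) := by
    push_cast
    rw [← mul_conj]
    simp only [map_mul, map_pow, map_ofNat]
    ring
  rw [e, im_ofReal_mul]

end Pool.Agent.H92.BC
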