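import Pool.Agent.H92.BC.MapC

/-!
# Orientation and branching of the covering map
-/

namespace Pool.Agent.H92.BC

open Complex ComplexConjugate
open scoped ContDiff Topology

theorem gmap_tan (m : ℕ) (hm : 1 ≤ m) (q v : C3) (hq : q ∈ (cov m hm).carrier)
    (hv : v ∈ (cov m hm).Tan q) : fderiv ℝ (gmap m) q v ∈ base.Tan (gmap m q) := by
  have hS := SS_pos m hm q hq
  obtain ⟨r, dz, dw, dx, hdz, hdw, hdx, hre, hD⟩ := gmap_fderiv m hm q hS v
  have hrel := tan_rel m hm q v hq hv r dz dw dx hdz hdw hdx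
  have hxx := xq_sq m q (cov_mem.mp hq).1
  have hN := zw_norm m q hS
  rw [hD, base_tan]
  set z := zq m q
  set w := wq m q
  set x := xq m q
  have hx2 : conj x ^ 2 = 4 * conj z ^ 2 - w ^ 2 := by
    have := congrArg conj hxx
    simpa only [map_add, map_sub, map_mul, map_pow, conj_conj, map_ofNat] using this
  have hNc : z * conj z + w * conj w = 1 := by
    rw [mul_conj, mul_conj]; exact_mod_cast hN
  have hdN : conj z * dz + z * conj dz + conj w * dw + w * conj dw = 0 := by
    have h1 : conj z * dz + conj (conj z * dz) = ((2 * (conj z * dz).re : ℝ) : ℂ) :=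
      add_conj _
    have h2 : conj w * dw + conj (conj w * dw) = ((2 * (conj w * dw).re : ℝ) : ℂ) :=
      add_conj _
    have h3 : ((2 * (conj z * dz).re : ℝ) : ℂ) + ((2 * (conj w * dw).re : ℝ) : ℂ) = 0 := by
      rw [← ofReal_add, ofReal_eq_zero]
      linarith
    rw [← h1, ← h2] at h3
    simp only [map_mul, conj_conj] at h3
    linear_combination h3
  change 2 * x * dx * (4 * w ^ 2 - conj z ^ 2) + x ^ 2 * (8 * w * dw - 2 * conj z * conj dz)
    - 2 * (4 * (z * w) + conj z * conj w) * (4 * (z * dw + w * dz) + conj z * conj dw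
      + conj w * conj dz) = 0 ∧ (conj x ^ 2 * (2 * x * dx)
      + conj (4 * w ^ 2 - conj z ^ 2) * (8 * w * dw - 2 * conj z * conj dz)
      + 2 * (conj (4 * (z * w) + conj z * conj w) * (4 * (z * dw + w * dz) + conj z * conj dw
      + conj w * conj dz))).re = 0
  rw [hrel, hxx, hx2]
  constructor
  · linear_combination (-8 * (z * conj z + w * conj w)) * hdN
  · have e : (4 * conj z ^ 2 - w ^ 2) * (8 * z * dz - 2 * conj w * conj dw)
      + conj (4 * w ^ 2 - conj z ^ 2) * (8 * w * dw - 2 * conj z * conj dz)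
      + 2 * (conj (4 * (z * w) + conj z * conj w) * (4 * (z * dw + w * dz) + conj z * conj dw
        + conj w * conj dz))
      = ((0 : ℝ) : ℂ) + (32 * (z * conj z + w * conj w)) * (conj z * dz + conj w * dw)
        + (2 * (z * conj z + w * conj w)) * (z * conj dz + w * conj dw) := by
      simp only [map_add, map_sub, map_mul, map_pow, conj_conj, map_ofNat]
      push_cast
      ring
    rw [e, hNc]
    have h1 : z * conj dz + w * conj dw = -(conj z * dz + conj w * dw) := by
      linear_combination hdN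
    rw [h1]
    have h2 : (conj z * dz + conj w * dw).re = 0 := by rw [add_re]; exact hre
    simp only [mul_one, add_re, mul_re, neg_re, re_ofNat, im_ofNat, ofReal_zero, zero_re] at h2 ⊢
    linarith

/-- relation of signs on the base -/
theorem sign_rel (p : C3) (hp : p ∈ base.carrier) (hF : FF p ≠ 0) (u v w : C3)
    (hu : u ∈ base.Tan p) (hv : v ∈ base.Tan p) (hw : w ∈ base.Tan p)
    (h : 0 < w3 (nu FF p) baseForm p u v w) : 0 < vol baseForm p u v w := by
  obtain ⟨e1, h1, e2, h2, e3, h3, hV, hW⟩ := base_off p hp hF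
  obtain ⟨a1, a2, a3, ha⟩ := span_vol base baseForm p hp e1 e2 e3 h1 h2 h3 hV.ne' u hu
  obtain ⟨b1, b2, b3, hb⟩ := span_vol base baseForm p hp e1 e2 e3 h1 h2 h3 hV.ne' v hv
  obtain ⟨d1, d2, d3, hd⟩ := span_vol base baseForm p hp e1 e2 e3 h1 h2 h3 hV.ne' w hw
  have k1 := vol_comb baseForm p e1 e2 e3 a1 a2 a3 b1 b2 b3 d1 d2 d3
  have k2 := w3_comb (nu FF p) baseForm p e1 e2 e3 a1 a2 a3 b1 b2 b3 d1 d2 d3
  rw [← ha, ← hb, ← hd] at k1 k2
  rw [k2] at h
  rw [k1]
  exact mul_pos (pos_left h hW.le) hV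

end Pool.Agent.H92.BC
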