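import Pool.Agent.H92.BC.MapD

/-!
# Orientation and branching of the covering map, continued
-/

namespace Pool.Agent.H92.BC

open Complex ComplexConjugate
open scoped ContDiff Topology

/-- the positivity used for the orientation: the area of the page in the cover -/
theorem page_pos (A B g h t ρ r2 r3 : ℝ) (hAB : A + B = 1) (ht : 0 < t) (htt : t ^ 2 = A * B)
    (hgh : g ^ 2 + h ^ 2 = A * B) (hρ : 0 < ρ) (hS : ρ ^ 2 * (1 + 2 * g + 16 * t) = 16)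
    (h2 : r2 = -(ρ ^ 2 * h / 8)) (h3 : r3 = -(ρ ^ 2 * (A - B) * (g + 8 * t) / 16)) :
    0 < 60 * (ρ ^ 2 / 16 * (r2 * h - r3 * (A - B) - g + 2 * (A * B)))
      + 2 * (ρ ^ 2 / 4 * (-(r2 * h) - r3 * (A - B) + g + 2 * (A * B))) := by
  have hδ : (A - B) ^ 2 = 1 - 4 * t ^ 2 := by
    rw [htt]
    have : (A + B) ^ 2 = 1 := by rw [hAB]; norm_num
    linear_combination this
  have e1 : r2 * h - r3 * (A - B) - g + 2 * (A * B) = ρ ^ 2 / 16 * (8 * t - 16 * t * g) := by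
    rw [h2, h3]
    have : g = ρ ^ 2 * (1 + 2 * g + 16 * t) / 16 * g := by rw [hS]; ring
    have h4 : 2 * (A * B) = ρ ^ 2 * (1 + 2 * g + 16 * t) / 16 * (2 * (A * B)) := by rw [hS]; ring
    rw [h4]
    linear_combination (-1 : ℝ) * this + ρ ^ 2 * (g + 8 * t) / 16 * hδ - ρ ^ 2 / 8 * hgh
      - ρ ^ 2 / 16 * (2 + 4 * g + 32 * t - 2) * htt
  have e2 : -(r2 * h) - r3 * (A - B) + g + 2 * (A * B)
      = ρ ^ 2 / 16 * (8 * t + 2 * g + 16 * t * g + 4 * t ^ 2) := by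
    rw [h2, h3]
    have : g = ρ ^ 2 * (1 + 2 * g + 16 * t) / 16 * g := by rw [hS]; ring
    have h4 : 2 * (A * B) = ρ ^ 2 * (1 + 2 * g + 16 * t) / 16 * (2 * (A * B)) := by rw [hS]; ring
    rw [h4]
    linear_combination this + ρ ^ 2 * (g + 8 * t) / 16 * hδ + ρ ^ 2 / 8 * hgh
      - ρ ^ 2 / 16 * (2 + 4 * g + 32 * t + 2) * htt
  rw [e1, e2]
  have ht2 : t ≤ 1 / 2 := by
    have : t ^ 2 ≤ 1 / 4 := by
      rw [htt]
      nlinarith [sq_nonneg (A - B)]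
    nlinarith
  have hg1 : g ^ 2 ≤ t ^ 2 := by rw [htt, ← hgh]; nlinarith [sq_nonneg h]
  have hg2 : g ≤ t := abs_le_of_sq_le_sq' hg1 ht.le |>.2
  have hg3 : -t ≤ g := abs_le_of_sq_le_sq' hg1 ht.le |>.1
  have key : 0 < 34 * t + g - 52 * t * g + 2 * t ^ 2 := by
    have h5 : 0 < 2 * t * (34 * t + g - 52 * t * g + 2 * t ^ 2) := by
      have e : 2 * t * (34 * t + g - 52 * t * g + 2 * t ^ 2)
          = (t + g) * (35 * t - 50 * t ^ 2) + (t - g) * (33 * t + 54 * t ^ 2) := by ring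
      rw [e]
      have a1 : 10 * t ≤ 35 * t - 50 * t ^ 2 := by nlinarith
      have a2 : 10 * t ≤ 33 * t + 54 * t ^ 2 := by nlinarith
      have b1 : (t + g) * (10 * t) ≤ (t + g) * (35 * t - 50 * t ^ 2) :=
        mul_le_mul_of_nonneg_left a1 (by linarith)
      have b2 : (t - g) * (10 * t) ≤ (t - g) * (33 * t + 54 * t ^ 2) :=
        mul_le_mul_of_nonneg_left a2 (by linarith)
      nlinarith
    exact pos_right h5 (by positivity)
  have e3 : 60 * (ρ ^ 2 / 16 * (ρ ^ 2 / 16 * (8 * t - 16 * t * g)))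
      + 2 * (ρ ^ 2 / 4 * (ρ ^ 2 / 16 * (8 * t + 2 * g + 16 * t * g + 4 * t ^ 2)))
      = ρ ^ 2 * ρ ^ 2 / 16 * (34 * t + g - 52 * t * g + 2 * t ^ 2) := by ring
  rw [e3]
  positivity

end Pool.Agent.H92.BC
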