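import Pool.Agent.H92.BC.MapE

/-!
# The covering map: the orientation and the branching
-/

namespace Pool.Agent.H92.BC

open Complex ComplexConjugate
open scoped ContDiff Topology

/-- the frame of the cover is mapped to a positive frame of the base -/
theorem frame_image (m : ℕ) (hm : 1 ≤ m) (q : C3) (hq : q ∈ (cov m hm).carrier)
    (hu : q.2.2 ≠ 0) (e1 e2 e3 : C3) (t1 : e1 ∈ (cov m hm).Tan q) (t2 : e2 ∈ (cov m hm).Tan q)
    (t3 : e3 ∈ (cov m hm).Tan q) (h2 : e2 = (I * q.1, -(I * q.2.1), 0))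
    (h3 : e3 = (-((normSq q.2.1 : ℝ) : ℂ) * q.1, ((normSq q.1 : ℝ) : ℂ) * q.2.1,
        ((1 / (2 * (m : ℝ)) * (normSq q.1 - normSq q.2.1) : ℝ) : ℂ) * q.2.2))
    (h1 : 0 < (conj q.2.2 * e1.2.2).im) :
    0 < vol baseForm (gmap m q) (fderiv ℝ (gmap m) q e1) (fderiv ℝ (gmap m) q e2)
      (fderiv ℝ (gmap m) q e3) := by
  have hS := SS_pos m hm q hq
  obtain ⟨hab, hn⟩ := cov_mem.mp hq
  obtain ⟨kAB, _, _⟩ := cov_bound hm hab hn
  have hbase := gmap_mem m hm q hq
  have hw0 := wq_ne m hm q hq hu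
  have hF : FF (gmap m q) ≠ 0 := by
    rw [hbase.2]
    exact mul_ne_zero (by norm_num) (pow_ne_zero _ hw0)
  have hxx := xq_sq m q hab
  have hN := zw_norm m q hS
  have hρ := rho_pos m q hS
  have hρS := rho_sq m q hS
  apply sign_rel _ hbase.1 hF _ _ _ (gmap_tan m hm q e1 hq t1) (gmap_tan m hm q e2 hq t2)
    (gmap_tan m hm q e3 hq t3)
  obtain ⟨r1, dz1, dw1, dx1, hdz1, hdw1, hdx1, hre1, hD1⟩ := gmap_fderiv m hm q hS e1
  obtain ⟨r2, dz2, dw2, dx2, hdz2, hdw2, hdx2, hre2, hD2⟩ := gmap_fderiv m hm q hS e2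
  obtain ⟨r3, dz3, dw3, dx3, hdz3, hdw3, hdx3, hre3, hD3⟩ := gmap_fderiv m hm q hS e3
  have hrel1 := tan_rel m hm q e1 hq t1 r1 dz1 dw1 dx1 hdz1 hdw1 hdx1
  have hrel2 := tan_rel m hm q e2 hq t2 r2 dz2 dw2 dx2 hdz2 hdw2 hdx2
  have hrel3 := tan_rel m hm q e3 hq t3 r3 dz3 dw3 dx3 hdz3 hdw3 hdx3
  have hm0 : (m : ℝ) ≠ 0 := by exact_mod_cast (by omega : m ≠ 0)
  have hm0c : (m : ℂ) ≠ 0 := by exact_mod_cast (by omega : m ≠ 0)
  have hpow : q.2.2 ^ m = q.2.2 ^ (m - 1) * q.2.2 := by
    rw [← pow_succ]; congr 1; omega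
  -- `dw` for the three vectors
  have w2 : dw2 = (r2 : ℂ) * wq m q := by
    rw [hdw2, h2]
    ring
  have w3' : dw3 = ((r3 + (normSq q.1 - normSq q.2.1) / 2 : ℝ) : ℂ) * wq m q := by
    rw [hdw3, h3, wq, hpow]
    push_cast
    field_simp
  rw [hD1, hD2, hD3, w3, gmap, nu_pull _ _ _ _ _ _ hxx hrel1, nu_pull _ _ _ _ _ _ hxx hrel2,
    nu_pull _ _ _ _ _ _ hxx hrel3, pull _ _ _ _ _ _ _ _ _ hN hre2 hre3 hrel2 hrel3]
  have im0 : ∀ s : ℝ, (conj (wq m q) * ((s : ℂ) * wq m q)).im = 0 := by
    intro s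
    simp only [mul_re, mul_im, conj_re, conj_im, ofReal_re, ofReal_im]
    ring
  have z2 : (conj (wq m q) * dw2).im = 0 := by rw [w2, im0]
  have z3 : (conj (wq m q) * dw3).im = 0 := by rw [w3', im0]
  rw [z2, z3, mul_zero, zero_mul, zero_mul, add_zero, add_zero]
  apply mul_pos
  · apply mul_pos
    · have := normSq_pos.mpr hw0
      positivity
    · have e : conj (wq m q) * dw1 = ((r1 * normSq (wq m q) : ℝ) : ℂ)
          + ((rho m q ^ 2 * m * normSq q.2.2 ^ (m - 1) : ℝ) : ℂ) * (conj q.2.2 * e1.2.2) := by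
        rw [hdw1]
        push_cast
        rw [← mul_conj, ← mul_conj, mul_pow]
        simp only [wq, map_mul, conj_ofReal, map_pow]
        have hpc : conj q.2.2 ^ m = conj q.2.2 ^ (m - 1) * conj q.2.2 := by
          rw [← pow_succ]; congr 1; omega
        rw [hpc]
        ring
      rw [e, add_im, ofReal_im, zero_add, im_ofReal_mul]
      have h5 := normSq_pos.mpr hu
      have hmp : (0 : ℝ) < m := by exact_mod_cast hm
      have h6 : 0 < rho m q ^ 2 * m * normSq q.2.2 ^ (m - 1) := by positivity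
      exact mul_pos h6 h1
  · -- the page area
    have zd : (conj dz2 * dz3 + conj dw2 * dw3).im = (conj dz2 * dz3).im := by
      rw [add_im, w2, w3']
      have : (conj ((r2 : ℂ) * wq m q)
          * (((r3 + (normSq q.1 - normSq q.2.1) / 2 : ℝ) : ℂ) * wq m q)).im = 0 := by
        simp only [map_mul, conj_ofReal, mul_re, mul_im, conj_re, conj_im, ofReal_re, ofReal_im]
        ring
      rw [this, add_zero]
    rw [zd]
    set ρ := rho m q with hρdef
    set A := normSq q.1 with hA
    set B := normSq q.2.1 with hB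
    set t := normSq q.2.2 ^ m with ht
    set g := (conj q.1 * q.2.1).re with hg
    set h := (conj q.1 * q.2.1).im with hh
    have eA : q.1.re * q.1.re + q.1.im * q.1.im = A := (normSq_apply q.1).symm
    have eB : q.2.1.re * q.2.1.re + q.2.1.im * q.2.1.im = B := (normSq_apply q.2.1).symm
    have htpos : 0 < t := pow_pos (normSq_pos.mpr hu) _
    have htt : t ^ 2 = A * B := by rw [kAB, ht, ← pow_mul, mul_comm]
    have hgh : g ^ 2 + h ^ 2 = A * B := by
      rw [hA, hB, ← normSq_conj q.1, ← normSq_mul, normSq_apply]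
      ring
    have eg : q.1.re * q.2.1.re + q.1.im * q.2.1.im = g := by
      rw [hg]; simp only [mul_re, conj_re, conj_im]; ring
    have eh : q.1.re * q.2.1.im - q.1.im * q.2.1.re = h := by
      rw [hh]; simp only [mul_im, conj_re, conj_im]; ring
    have hS' : ρ ^ 2 * (1 + 2 * g + 16 * t) = 16 := by
      have hs : 1 + 2 * g + 16 * t = SS m q := by
        rw [SS, ← ht, normSq_apply]
        simp only [add_re, add_im]
        linear_combination -hn - 2 * eg - eA - eB
      rw [hs]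
      exact hρS
    have hzz : normSq (zq m q) = ρ ^ 2 / 16 * (1 + 2 * g) := by
      rw [zq, normSq_mul, normSq_ofReal, map_div₀]
      have h4 : normSq (4 : ℂ) = 16 := by
        rw [← ofReal_ofNat, normSq_ofReal]; norm_num
      rw [h4, normSq_apply]
      simp only [add_re, add_im]
      linear_combination (ρ ^ 2 / 16) * (hn + 2 * eg + eA + eB)
    have hww : normSq (wq m q) = ρ ^ 2 * t := by
      rw [wq, normSq_mul, normSq_ofReal, map_pow]
      ring
    have hr2 : r2 = -(ρ ^ 2 * h / 8) := by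
      have k1 : (conj (zq m q) * dz2).re
          = r2 * (ρ ^ 2 / 16 * (1 + 2 * g)) + ρ ^ 2 / 16 * (2 * h) := by
        rw [hdz2, h2, zq]
        simp only [map_mul, map_div₀, conj_ofReal, mul_re, mul_im, conj_re, conj_im,
          ofReal_re, ofReal_im, add_re, add_im, div_ofNat_re, div_ofNat_im, I_re, I_im, neg_re,
          neg_im, map_add, map_ofNat]
        linear_combination (ρ ^ 2 / 8) * eh + r2 * (ρ ^ 2 / 16) * (hn + 2 * eg + eA + eB)
      have k2 : (conj (wq m q) * dw2).re = r2 * normSq (wq m q) := by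
        rw [w2]
        simp only [normSq_apply, mul_re, mul_im, conj_re, conj_im, ofReal_re, ofReal_im]
        ring
      rw [k1, k2] at hre2
      rw [hzz] at hN
      linear_combination hre2 - r2 * hN
    have hr3 : r3 = -(ρ ^ 2 * (A - B) * (g + 8 * t) / 16) := by
      have k1 : (conj (zq m q) * dz3).re
          = r3 * (ρ ^ 2 / 16 * (1 + 2 * g)) + ρ ^ 2 / 16 * ((A - B) * g) := by
        rw [hdz3, h3, zq]
        simp only [map_mul, map_div₀, conj_ofReal, mul_re, mul_im, conj_re,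
          conj_im, ofReal_re, ofReal_im, add_re, add_im, div_ofNat_re, div_ofNat_im, neg_re,
          neg_im, map_add, map_ofNat]
        linear_combination (ρ ^ 2 / 16) * ((A - B) * eg - B * eA + A * eB)
          + r3 * (ρ ^ 2 / 16) * (hn + 2 * eg + eA + eB)
      have k2 : (conj (wq m q) * dw3).re = (r3 + (A - B) / 2) * normSq (wq m q) := by
        rw [w3']
        simp only [normSq_apply (wq m q), mul_re, mul_im, conj_re, conj_im, ofReal_re, ofReal_im]
        ring
      rw [k1, k2] at hre3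
      rw [hww] at hre3
      rw [hww, hzz] at hN
      linear_combination hre3 - r3 * hN
    have zz : (conj dz2 * dz3).im
        = ρ ^ 2 / 16 * (r2 * h - r3 * (A - B) - g + 2 * (A * B)) := by
      rw [hdz2, hdz3, h2, h3, zq]
      simp only [map_mul, map_div₀, conj_ofReal, mul_re, mul_im, conj_re,
          conj_im, ofReal_re, ofReal_im, add_re, add_im, div_ofNat_re, div_ofNat_im, neg_re,
          neg_im, map_add, map_ofNat, I_re, I_im]
      linear_combination (ρ ^ 2 / 16) * (r2 * (A + B) * eh + r2 * h * hn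
        - r3 * (eA - eB) - (A + B) * eg - g * hn + B * eA + A * eB)
    have xx : (conj dx2 * dx3).im
        = ρ ^ 2 / 4 * (-(r2 * h) - r3 * (A - B) + g + 2 * (A * B)) := by
      rw [hdx2, hdx3, h2, h3, xq]
      simp only [map_mul, map_div₀, conj_ofReal, mul_re, mul_im, conj_re,
          conj_im, ofReal_re, ofReal_im, add_re, add_im, sub_re, sub_im, div_ofNat_re,
          div_ofNat_im, neg_re, neg_im, map_sub, map_ofNat, I_re, I_im]
      linear_combination (ρ ^ 2 / 4) * (-r2 * (A + B) * eh - r2 * h * hn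
        - r3 * (eA - eB) + (A + B) * eg + g * hn + B * eA + A * eB)
    rw [zz, xx]
    exact page_pos A B g h t ρ r2 r3 hn htpos htt hgh hρ hS' hr2 hr3

end Pool.Agent.H92.BC
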